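import Mathlib

/-!
# Definitions for the query problem on the continuous random energy model
-/

namespace Pool.Agent.Lib.MP_f9dad2_pr

open MeasureTheory ProbabilityTheory
open scoped ENNReal

/-- The vertices of the rooted binary tree of depth `N`: the words of length at most `N` over a
two letter alphabet. The depth of a vertex is its length and the root is the empty word. -/
abbrev Vtx (N : ℕ) : Type := {l : List Bool // l.length ≤ N}

/-- The length of the longest common prefix of two words, that is, the depth of the deepest common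
ancestor of two vertices. -/
def meet : List Bool → List Bool → ℕ
  | a :: l, b :: l' => if a = b then meet l l' + 1 else 0
  | _, _ => 0

/-- Riemann integrability on `[0, 1]`: the Riemann sums over tagged partitions converge as the
mesh of the partition tends to zero. -/
def RiemannIntegrable (f : ℝ → ℝ) : Prop :=
  ∃ I : ℝ, ∀ ε > 0, ∃ δ > 0, ∀ (n : ℕ) (x t : ℕ → ℝ), x 0 = 0 → x n = 1 →
    (∀ i < n, x i ≤ t i ∧ t i ≤ x (i + 1) ∧ x (i + 1) - x i < δ) →
    |∑ i ∈ Finset.range n, f (t i) * (x (i + 1) - x i) - I| < ε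

/-- The primitive `A` of `a`. -/
noncomputable def primitive (a : ℝ → ℝ) (t : ℝ) : ℝ := ∫ s in (0 : ℝ)..t, a s

/-- The algorithmic threshold `x_*`. -/
noncomputable def xstar (a : ℝ → ℝ) : ℝ :=
  √(2 * Real.log 2) * ∫ t in (0 : ℝ)..1, √(a t)

variable {Ω : Type*} {N : ℕ}

/-- The centred Gaussian process on the tree of depth `N` with covariance
`E[X_v X_w] = N A(|v ∧ w| / N)`. -/
structure IsCREM [MeasurableSpace Ω] (a : ℝ → ℝ) (N : ℕ) (X : Vtx N → Ω → ℝ) (P : Measure Ω) :
    Prop where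
  measurable : ∀ u, Measurable (X u)
  gaussian : IsGaussianProcess X P
  mean : ∀ u, ∫ ω, X u ω ∂P = 0
  cov : ∀ u w, ∫ ω, X u ω * X w ω ∂P = N * primitive a (meet u.1 w.1 / N)

/-- Auxiliary random variables independent of the process. -/
structure IsAux [MeasurableSpace Ω] (X : Vtx N → Ω → ℝ) (U : ℕ → Ω → ℝ) (P : Measure Ω) :
    Prop where
  measurable : ∀ k, Measurable (U k)
  indep : Indep (⨆ k, MeasurableSpace.comap (U k) (borel ℝ))
    (⨆ u, MeasurableSpace.comap (X u) (borel ℝ)) P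

/-- The sigma-algebra generated by `v 1, …, v n`, by `X (v 1), …, X (v n)` and by
`U 1, …, U (n + 1)`. -/
def queryInfo (X : Vtx N → Ω → ℝ) (U : ℕ → Ω → ℝ) (v : ℕ → Ω → Vtx N) (n : ℕ) :
    MeasurableSpace Ω :=
  (⨆ k ∈ Set.Icc 1 n, MeasurableSpace.comap (v k) ⊤) ⊔
  (⨆ k ∈ Set.Icc 1 n, MeasurableSpace.comap (fun ω => X (v k ω) ω) (borel ℝ)) ⊔
  (⨆ k ∈ Set.Icc 1 (n + 1), MeasurableSpace.comap (U k) (borel ℝ))

/-- A randomised search algorithm: query `n + 1` is a function of the outcome of the first `n`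
queries and of `U 1, …, U (n + 1)`. -/
def IsAlgorithm (X : Vtx N → Ω → ℝ) (U : ℕ → Ω → ℝ) (v : ℕ → Ω → Vtx N) : Prop :=
  ∀ n, Measurable[queryInfo X U v n, ⊤] (v (n + 1))

/-- The first `n ≥ 1` such that query `n` is a leaf with value at least `y` (infinite if there is
none). -/
noncomputable def hittingTime (X : Vtx N → Ω → ℝ) (v : ℕ → Ω → Vtx N) (y : ℝ) (ω : Ω) : ℝ≥0∞ :=
  ⨅ n ∈ {n : ℕ | 1 ≤ n ∧ (v n ω).1.length = N ∧ y ≤ X (v n ω) ω}, (n : ℝ≥0∞)

end Pool.Agent.Lib.MP_f9dad2_pr
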