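import Mathlib

/-!
# A deterministic lemma on sums along a path
-/

namespace Pool.Agent.Lib.MP_f9dad2_pr

open Finset

/-- `k` is the first index of a run (a maximal interval on which `ρ` is constant) in `[a, b]`. -/
def IsStart (a b : ℕ) (ρ : ℕ → ℕ) (k : ℕ) : Prop :=
  a ≤ k ∧ k ≤ b ∧ (k = a ∨ ρ (k - 1) ≠ ρ k)

lemma sum_Icc_split (x : ℕ → ℝ) {i j k : ℕ} (h1 : i ≤ j + 1) (h2 : j ≤ k) :
    ∑ t ∈ Icc i k, x t = ∑ t ∈ Icc i j, x t + ∑ t ∈ Icc (j + 1) k, x t := by
  have : Icc i k = Icc i j ∪ Icc (j + 1) k := by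
    ext t
    simp only [mem_Icc, mem_union]
    omega
  rw [this, sum_union]
  rw [Finset.disjoint_left]
  intro t ht ht'
  simp only [mem_Icc] at ht ht'
  omega

section
variable {a b : ℕ} {ρ : ℕ → ℕ}

lemma exists_start {k j : ℕ} (hk : IsStart a b ρ k) (hkj : k ≤ j) (hj : j ≤ b) :
    ∃ k1, IsStart a b ρ k1 ∧ k ≤ k1 ∧ k1 ≤ j ∧ ρ k1 = ρ j := by
  classical
  have hex : ∃ i, k ≤ i ∧ ρ i = ρ j := ⟨j, hkj, rfl⟩
  refine ⟨Nat.find hex, ?_, (Nat.find_spec hex).1, Nat.find_min' hex ⟨hkj, rfl⟩,
    (Nat.find_spec hex).2⟩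
  have h1 := (Nat.find_spec hex).1
  have h2 : Nat.find hex ≤ j := Nat.find_min' hex ⟨hkj, rfl⟩
  have h3 := (Nat.find_spec hex).2
  rcases h1.lt_or_eq with hlt | heq
  · refine ⟨by have := hk.1; omega, by omega, Or.inr ?_⟩
    intro h4
    have := Nat.find_min hex (m := Nat.find hex - 1) (by omega)
    apply this
    exact ⟨by omega, h4.trans h3⟩
  · rw [← heq]
    exact hk

lemma exists_last {j m : ℕ} (ha : a ≤ j) (hjm : j ≤ m) (hm : m ≤ b) :
    ∃ e, j ≤ e ∧ e ≤ m ∧ ρ e = ρ j ∧ (e = m ∨ IsStart a b ρ (e + 1)) := by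
  induction hd : m - j generalizing j with
  | zero => exact ⟨j, le_refl _, hjm, rfl, Or.inl (by omega)⟩
  | succ d ih =>
    by_cases h : ρ (j + 1) = ρ j
    · obtain ⟨e, h1, h2, h3, h4⟩ := ih (j := j + 1) (by omega) (by omega) (by omega)
      exact ⟨e, by omega, h2, h3.trans h, h4⟩
    · refine ⟨j, le_refl _, hjm, rfl, Or.inr ⟨by omega, by omega, Or.inr ?_⟩⟩
      rw [Nat.add_sub_cancel]
      exact fun h' => h h'.symm

theorem seq_bound {θ h κ : ℝ} {Λ : ℕ} {x : ℕ → ℝ} {W : ℕ → ℝ}
    (hθ : 0 < θ) (hh : 0 < h) (hκ : 0 ≤ κ) (hΛ : 1 ≤ Λ) (hκΛ : κ * Λ ≤ h / 2)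
    (hκθ : κ ≤ θ / 2)
    (hmono : ∀ i j, a ≤ i → i ≤ j → j ≤ b → ρ i ≤ ρ j)
    (hW : ∀ r, 0 ≤ W r)
    (P1 : ∀ k j, IsStart a b ρ k → k ≤ j → j < k + Λ → j ≤ b →
      ∑ i ∈ Icc k j, x i ≤ h / 2 + W (ρ k) / θ)
    (P1' : ∀ k j, IsStart a b ρ k → k ≤ j → j < k + Λ → j ≤ b → W (ρ k) < 1 →
      ∑ i ∈ Icc k j, x i < h / 2)
    (P2 : ∀ k s j, IsStart a b ρ k → k ≤ s → s ≤ k + Λ → s ≤ j → j ≤ b → ρ j = ρ k →
      ∑ i ∈ Icc s j, (x i + θ / 2) ≤ h / 2 + 2 * W (ρ k) / θ)
    (P2' : ∀ k s j, IsStart a b ρ k → k ≤ s → s ≤ k + Λ → s ≤ j → j ≤ b → ρ j = ρ k →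
      W (ρ k) < 1 → ∑ i ∈ Icc s j, (x i + θ / 2) < h / 2)
    (P3 : ∀ k, IsStart a b ρ k → k + Λ ≤ b + 1 → W (ρ k) < 1 →
      ∃ j, k ≤ j ∧ j < k + Λ ∧ (∑ i ∈ Icc k j, x i < -(2 * h) ∨ 2 * h < ∑ i ∈ Icc k j, x i)) :
    ∀ k, IsStart a b ρ k → ∑ i ∈ Icc k b, x i ≤
      -κ * ((b : ℝ) - k + 1) + 2 * h + (3 / 2 * h + 3 / θ) * ∑ r ∈ (Icc k b).image ρ, W r := by
  classical
  -- climbs inside a good stretch
  have hclimb : ∀ k m j, IsStart a b ρ k → k ≤ j → j < m → m < k + Λ → m ≤ b →
      (∀ r ∈ (Icc k m).image ρ, W r < 1) → ∑ i ∈ Icc (j + 1) m, x i < h := by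
    intro k m j hk hkj hjm hmk hmb hgood
    obtain ⟨k1, hk1, hkk1, hk1j, hρk1⟩ := exists_start (b := b) hk hkj (by omega)
    obtain ⟨e1, hje, hem, hρe, hlast⟩ := exists_last (a := a) (b := b) (ρ := ρ) (j := j) (m := m)
      (by have := hk.1; omega) hjm.le hmb
    have hWk1 : W (ρ k1) < 1 := hgood _ (mem_image_of_mem _ (mem_Icc.2 ⟨hkk1, by omega⟩))
    have hfirst : ∑ i ∈ Icc (j + 1) e1, x i ≤ h / 2 ∧
        (j < e1 → ∑ i ∈ Icc (j + 1) e1, x i < h / 2) := by
      rcases hje.lt_or_eq with hlt | heq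
      · have h1 := P2' k1 (j + 1) e1 hk1 (by omega) (by omega) (by omega) (by omega)
          (hρe.trans hρk1.symm) hWk1
        rw [sum_add_distrib, sum_const, nsmul_eq_mul] at h1
        have h2 : 0 ≤ ((Icc (j + 1) e1).card : ℝ) * (θ / 2) := by positivity
        exact ⟨by linarith, fun _ => by linarith⟩
      · subst heq
        have : Icc (j + 1) j = ∅ := Icc_eq_empty (by omega)
        rw [this, sum_empty]
        exact ⟨by linarith, fun hlt => absurd hlt (lt_irrefl _)⟩
    rcases hlast with heq | hstart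
    · subst heq
      have := hfirst.2 hjm
      linarith
    · rcases hem.lt_or_eq with hlt | heq
      · have hρ' : W (ρ (e1 + 1)) < 1 :=
          hgood _ (mem_image_of_mem _ (mem_Icc.2 ⟨by omega, by omega⟩))
        have h2 := P1' (e1 + 1) m hstart (by omega) (by omega) hmb hρ'
        rw [sum_Icc_split x (i := j + 1) (j := e1) (k := m) (by omega) (by omega)]
        linarith [hfirst.1]
      · subst heq
        have := hfirst.2 hjm
        linarith
  intro k
  induction hd : b - k using Nat.strong_induction_on generalizing k with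
  | _ d ih =>
    intro hk
    have hkb := hk.2.1
    have hka := hk.1
    set K0 : ℝ := 3 / 2 * h + 3 / θ with hK0
    have hK0θ : 3 / θ ≤ K0 := by rw [hK0]; linarith
    have h3θ : 0 < 3 / θ := by positivity
    have h1θ : 1 / θ ≤ K0 := by
      have : 1 / θ ≤ 3 / θ := by gcongr; norm_num
      linarith
    have hsumnn : ∀ s : Finset ℕ, 0 ≤ ∑ r ∈ s, W r := fun s => sum_nonneg fun r _ => hW r
    rcases Nat.lt_or_ge (b + 1) (k + Λ) with hshort | hlong
    · -- short remaining path
      have h1 := P1 k b hk hkb (by omega) (le_refl b)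
      have h2 : W (ρ k) ≤ ∑ r ∈ (Icc k b).image ρ, W r :=
        single_le_sum (fun r _ => hW r) (mem_image_of_mem _ (mem_Icc.2 ⟨le_refl k, hkb⟩))
      have h3 : W (ρ k) / θ ≤ K0 * ∑ r ∈ (Icc k b).image ρ, W r := by
        calc W (ρ k) / θ = (1 / θ) * W (ρ k) := by ring
          _ ≤ K0 * ∑ r ∈ (Icc k b).image ρ, W r :=
            mul_le_mul h1θ h2 (hW _) (by linarith)
      have h4 : κ * ((b : ℝ) - k + 1) ≤ κ * Λ := by
        apply mul_le_mul_of_nonneg_left _ hκ
        have : (b : ℝ) + 1 ≤ k + Λ := by exact_mod_cast hshort.le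
        linarith
      nlinarith
    · -- long remaining path
      obtain ⟨m, hm⟩ : ∃ m, m + 1 = k + Λ := ⟨k + Λ - 1, by omega⟩
      have hkm : k ≤ m := by omega
      have hmb : m ≤ b := by omega
      have hcast : (m : ℝ) + 1 = k + Λ := by exact_mod_cast hm
      -- the run containing `m`
      obtain ⟨k2, hk2, hkk2, hk2m, hρk2⟩ := exists_start (b := b) hk hkm hmb
      obtain ⟨e, hme, heb, hρe, hlast⟩ := exists_last (a := a) (b := b) (ρ := ρ) (j := m) (m := b)
        (by omega) hmb (le_refl b)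
      have hcaste : (m : ℝ) ≤ e := by exact_mod_cast hme
      -- the remainder
      have hrem : ∑ i ∈ Icc (m + 1) e, x i ≤ h / 2 + 2 * W (ρ m) / θ - θ / 2 * ((e : ℝ) - m) := by
        rcases hme.lt_or_eq with hlt | heq
        · have h1 := P2 k2 (m + 1) e hk2 (by omega) (by omega) (by omega) (by omega)
            (hρe.trans hρk2.symm)
          rw [sum_add_distrib, sum_const, nsmul_eq_mul, Nat.card_Icc, hρk2] at h1
          have h2 : ((e + 1 - (m + 1) : ℕ) : ℝ) = (e : ℝ) - m := by
            rw [Nat.add_sub_add_right, Nat.cast_sub hme]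
          rw [h2] at h1
          linarith
        · subst heq
          have : Icc (m + 1) m = ∅ := Icc_eq_empty (by omega)
          rw [this, sum_empty]
          have : 0 ≤ 2 * W (ρ m) / θ := by have := hW (ρ m); positivity
          simp only [sub_self, mul_zero, sub_zero]
          linarith
      have hrem' : W (ρ m) < 1 → ∑ i ∈ Icc (m + 1) e, x i ≤ h / 2 - θ / 2 * ((e : ℝ) - m) := by
        intro hWm
        rcases hme.lt_or_eq with hlt | heq
        · have h1 := P2' k2 (m + 1) e hk2 (by omega) (by omega) (by omega) (by omega)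
            (hρe.trans hρk2.symm) (by rw [hρk2]; exact hWm)
          rw [sum_add_distrib, sum_const, nsmul_eq_mul, Nat.card_Icc] at h1
          have h2 : ((e + 1 - (m + 1) : ℕ) : ℝ) = (e : ℝ) - m := by
            rw [Nat.add_sub_add_right, Nat.cast_sub hme]
          rw [h2] at h1
          linarith
        · subst heq
          have : Icc (m + 1) m = ∅ := Icc_eq_empty (by omega)
          rw [this, sum_empty]
          simp only [sub_self, mul_zero, sub_zero]
          linarith
      -- the segment bound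
      have hseg : ∑ i ∈ Icc k e, x i ≤
          -κ * ((e : ℝ) - k + 1) + K0 * ∑ r ∈ (Icc k e).image ρ, W r := by
        rw [sum_Icc_split x (i := k) (j := m) (k := e) (by omega) hme]
        have hnn : 0 ≤ K0 * ∑ r ∈ (Icc k e).image ρ, W r :=
          mul_nonneg (by linarith) (hsumnn _)
        have hκe : κ * ((e : ℝ) - m) ≤ θ / 2 * ((e : ℝ) - m) :=
          mul_le_mul_of_nonneg_right hκθ (by linarith)
        have hlen : -κ * ((e : ℝ) - k + 1) = -(κ * Λ) - κ * ((e : ℝ) - m) := by
          have : (e : ℝ) - k + 1 = Λ + (e - m) := by linarith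
          rw [this]; ring
        by_cases hgood : ∀ r ∈ (Icc k m).image ρ, W r < 1
        · -- good case
          have hS : ∑ i ∈ Icc k m, x i < -h := by
            by_contra hcon
            push Not at hcon
            obtain ⟨j, hkj, hjk, hj⟩ := P3 k hk hlong
              (hgood _ (mem_image_of_mem _ (mem_Icc.2 ⟨le_refl k, hkm⟩)))
            rcases hj with hj | hj
            · have hsplit := sum_Icc_split x (i := k) (j := j) (k := m) (by omega) (by omega)
              rcases Nat.lt_or_ge j m with hlt | hge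
              · have := hclimb k m j hk hkj hlt (by omega) hmb hgood
                linarith
              · have : j = m := by omega
                subst this
                linarith
            · have := P1' k j hk hkj hjk (by omega)
                (hgood _ (mem_image_of_mem _ (mem_Icc.2 ⟨le_refl k, hkm⟩)))
              linarith
          have hr := hrem' (hgood _ (mem_image_of_mem _ (mem_Icc.2 ⟨hkm, le_refl m⟩)))
          linarith
        · -- bad case
          push Not at hgood
          obtain ⟨r, hr, hWr⟩ := hgood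
          have hsub : (Icc k m).image ρ ⊆ (Icc k e).image ρ :=
            image_subset_image (Icc_subset_Icc_right hme)
          have h1 : 1 ≤ ∑ r ∈ (Icc k e).image ρ, W r :=
            hWr.trans (single_le_sum (f := W) (fun r _ => hW r) (hsub hr))
          have h2 : W (ρ k) ≤ ∑ r ∈ (Icc k e).image ρ, W r :=
            single_le_sum (f := W) (fun r _ => hW r)
              (hsub (mem_image_of_mem _ (mem_Icc.2 ⟨le_refl k, hkm⟩)))
          have h3 : W (ρ m) ≤ ∑ r ∈ (Icc k e).image ρ, W r :=
            single_le_sum (f := W) (fun r _ => hW r)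
              (hsub (mem_image_of_mem _ (mem_Icc.2 ⟨hkm, le_refl m⟩)))
          have h4 := P1 k m hk hkm (by omega) hmb
          set Sg := ∑ r ∈ (Icc k e).image ρ, W r with hSg
          have h5 : W (ρ k) / θ ≤ Sg / θ := by gcongr
          have h6 : 2 * W (ρ m) / θ ≤ 2 * Sg / θ := by gcongr
          have h7 : K0 * Sg = 3 / 2 * h * Sg + Sg / θ + 2 * Sg / θ := by
            rw [hK0]; ring
          have h8 : 3 / 2 * h ≤ 3 / 2 * h * Sg := by nlinarith
          linarith
      rcases heb.lt_or_eq with hlt | heq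
      · have hstart : IsStart a b ρ (e + 1) := by
          rcases hlast with h | h
          · omega
          · exact h
        have ih' := ih (b - (e + 1)) (by omega) (e + 1) rfl hstart
        rw [sum_Icc_split x (i := k) (j := e) (k := b) (by omega) heb]
        have himg : (Icc k b).image ρ = (Icc k e).image ρ ∪ (Icc (e + 1) b).image ρ := by
          rw [← image_union]
          congr 1
          ext t
          simp only [mem_Icc, mem_union]
          omega
        have hne : ρ e < ρ (e + 1) := by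
          rcases hstart.2.2 with h | h
          · omega
          · rw [Nat.add_sub_cancel] at h
            exact lt_of_le_of_ne (hmono e (e + 1) (by omega) (by omega) (by omega)) h
        have hdisj : Disjoint ((Icc k e).image ρ) ((Icc (e + 1) b).image ρ) := by
          rw [Finset.disjoint_left]
          intro r hr hr'
          simp only [mem_image, mem_Icc] at hr hr'
          obtain ⟨i, hi, rfl⟩ := hr
          obtain ⟨j, hj, hij⟩ := hr'
          have e1 := hmono i e (by omega) hi.2 (by omega)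
          have e2 := hmono (e + 1) j (by omega) hj.1 hj.2
          omega
        rw [himg, sum_union hdisj]
        push_cast at ih'
        have : -κ * ((b : ℝ) - k + 1) = -κ * ((e : ℝ) - k + 1) + -κ * ((b : ℝ) - (e + 1) + 1) := by
          ring
        rw [this, mul_add K0]
        linarith
      · subst heq
        linarith

end

end Pool.Agent.Lib.MP_f9dad2_pr
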