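import Mathlib
import Pool.Agent.Lib.MP_f9dad2_pr.Defs
import Pool.Agent.Lib.MP_f9dad2_pr.Seq

/-!
# The binary tree, exploration, and the charges
-/

namespace Pool.Agent.Lib.MP_f9dad2_pr

open Finset

instance (N : ℕ) : Finite (Vtx N) := List.finite_length_le Bool N

noncomputable instance (N : ℕ) : Fintype (Vtx N) := Fintype.ofFinite _

/-- The ancestor of `z` at depth `i` (and `z` itself if `i` exceeds the depth of `z`). -/
def tk {N : ℕ} (z : Vtx N) (i : ℕ) : Vtx N :=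
  ⟨z.1.take i, (List.length_take_le' i z.1).trans z.2⟩

variable {N : ℕ}

lemma tk_length {z : Vtx N} {i : ℕ} (h : i ≤ z.1.length) : (tk z i).1.length = i := by
  simp [tk, h]

lemma tk_tk (z : Vtx N) {i j : ℕ} (h : i ≤ j) : tk (tk z j) i = tk z i := by
  apply Subtype.ext
  simp [tk, List.take_take, h]

lemma tk_prefix (z : Vtx N) {i j : ℕ} (h : i ≤ j) : (tk z i).1 <+: (tk z j).1 := by
  simp only [tk]
  have : z.1.take i = (z.1.take j).take i := by
    rw [List.take_take, min_eq_left h]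
  rw [this]
  exact List.take_prefix _ _

lemma tk_prefix_self (z : Vtx N) (i : ℕ) : (tk z i).1 <+: z.1 := List.take_prefix _ _

/-- If `tk w k` is an ancestor of `w'` (and `k` is at most the depth of `w`), then the ancestors of
`w` and `w'` at depths at most `k` agree. -/
lemma tk_eq_of_prefix {w w' : Vtx N} {k i : ℕ} (hk : k ≤ w.1.length)
    (h : (tk w k).1 <+: w'.1) (hi : i ≤ k) : tk w' i = tk w i := by
  apply Subtype.ext
  have h1 : (tk w k).1 = w'.1.take k := by
    have := List.prefix_iff_eq_take.1 h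
    rwa [tk_length hk] at this
  simp only [tk] at h1 ⊢
  have h2 : w.1.take i = (w.1.take k).take i := by rw [List.take_take, min_eq_left hi]
  have h3 : w'.1.take i = (w'.1.take k).take i := by rw [List.take_take, min_eq_left hi]
  rw [h2, h3, h1]

lemma le_length_of_prefix {w w' : Vtx N} {k : ℕ} (hk : k ≤ w.1.length)
    (h : (tk w k).1 <+: w'.1) : k ≤ w'.1.length := by
  have := h.length_le
  rwa [tk_length hk] at this

/-- Sum of `ξ - c` over the ancestors of `z` at depths in `[i, j]`. -/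
noncomputable def psum (ξ : Vtx N → ℝ) (c : ℝ) (z : Vtx N) (i j : ℕ) : ℝ :=
  ∑ t ∈ Icc i j, (ξ (tk z t) - c)

/-- Descendants of `a` at depth `j`. -/
noncomputable def desc (a : Vtx N) (j : ℕ) : Finset (Vtx N) := by
  classical
  exact Finset.univ.filter fun z => z.1.length = j ∧ a.1 <+: z.1

lemma mem_desc {a z : Vtx N} {j : ℕ} : z ∈ desc a j ↔ z.1.length = j ∧ a.1 <+: z.1 := by
  classical
  simp [desc]

lemma psum_tk (ξ : Vtx N → ℝ) (c : ℝ) (z : Vtx N) {i j : ℕ} : psum ξ c (tk z j) i j =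
    psum ξ c z i j := by
  unfold psum
  apply sum_congr rfl
  intro t ht
  rw [tk_tk z (mem_Icc.1 ht).2]

/-- Exponential sum of the climbs below `a` within `Λ` generations. -/
noncomputable def EM (θ : ℝ) (Λ b : ℕ) (ξ : Vtx N → ℝ) (a : Vtx N) : ℝ :=
  ∑ j ∈ (Icc a.1.length b).filter (fun j => j < a.1.length + Λ),
    ∑ z ∈ desc a j, Real.exp (θ * psum ξ θ z a.1.length j)

/-- Exponential sum of the climbs along the path to `w`. -/
noncomputable def ER (θ : ℝ) (Λ b : ℕ) (ξ : Vtx N → ℝ) (k : ℕ) (w : Vtx N) : ℝ :=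
  ∑ s ∈ Icc k (k + Λ), ∑ j ∈ (Icc s b).filter (fun j => j ≤ w.1.length),
    Real.exp (θ / 2 * psum ξ (θ / 2) w s j)

/-- The window weight of block number `t`. -/
noncomputable def win (θ h : ℝ) (T0 : ℕ) (ξ : Vtx N → ℝ) (z : Vtx N) (k t : ℕ) : ℝ :=
  (Set.Icc (-(4 * h)) (4 * h)).indicator (fun y => Real.exp (θ * y))
    (∑ i ∈ Ico (k + t * T0) (k + (t + 1) * T0), (ξ (tk z i) - θ))

/-- Weighted count of the paths below `a` that stay in a strip. -/
noncomputable def ES (θ h : ℝ) (T0 q b : ℕ) (ξ : Vtx N → ℝ) (a : Vtx N) : ℝ :=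
  if a.1.length + q * T0 ≤ b + 1 then
    ∑ z ∈ desc a (a.1.length + q * T0 - 1), Real.exp (2 * θ * h) *
      ∏ t ∈ range q, win θ h T0 ξ z a.1.length t
  else 0

/-- The charge of a run that enters fresh territory at `a` and ends at `w`. -/
noncomputable def Wt (θ h : ℝ) (T0 q b : ℕ) (ξ : Vtx N → ℝ) (a w : Vtx N) : ℝ :=
  Real.exp (-(θ * h / 2)) * EM θ (q * T0) b ξ a +
  Real.exp (-(θ * h / 4)) * ER θ (q * T0) b ξ a.1.length w +
  ES θ h T0 q b ξ a

/-- Depths in `[a0, b]` at which the path to `H r` is fresh at time `r`. -/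
def Fresh (a0 b : ℕ) (H : ℕ → Vtx N) (r j : ℕ) : Prop :=
  a0 ≤ j ∧ j ≤ b ∧ j ≤ (H r).1.length ∧ ∀ k < r, ¬ ((tk (H r) j).1 <+: (H k).1)

open Classical in
/-- The charge of query `r`. -/
noncomputable def Wq (θ h : ℝ) (T0 q a0 b : ℕ) (ξ : Vtx N → ℝ) (H : ℕ → Vtx N) (r : ℕ) : ℝ :=
  if hex : ∃ j, Fresh a0 b H r j then Wt θ h T0 q b ξ (tk (H r) (Nat.find hex)) (H r) else 0

lemma EM_nonneg (θ : ℝ) (Λ b : ℕ) (ξ : Vtx N → ℝ) (a : Vtx N) : 0 ≤ EM θ Λ b ξ a :=
  sum_nonneg fun _ _ => sum_nonneg fun _ _ => (Real.exp_pos _).le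

lemma ER_nonneg (θ : ℝ) (Λ b : ℕ) (ξ : Vtx N → ℝ) (k : ℕ) (w : Vtx N) : 0 ≤ ER θ Λ b ξ k w :=
  sum_nonneg fun _ _ => sum_nonneg fun _ _ => (Real.exp_pos _).le

lemma win_nonneg (θ h : ℝ) (T0 : ℕ) (ξ : Vtx N → ℝ) (z : Vtx N) (k t : ℕ) :
    0 ≤ win θ h T0 ξ z k t := by
  unfold win
  apply Set.indicator_nonneg
  intro y _
  exact (Real.exp_pos _).le

lemma ES_nonneg (θ h : ℝ) (T0 q b : ℕ) (ξ : Vtx N → ℝ) (a : Vtx N) : 0 ≤ ES θ h T0 q b ξ a := by
  unfold ES
  split_ifs
  · exact sum_nonneg fun _ _ => mul_nonneg (Real.exp_pos _).le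
      (prod_nonneg fun _ _ => win_nonneg _ _ _ _ _ _ _)
  · exact le_refl _

lemma Wt_nonneg (θ h : ℝ) (T0 q b : ℕ) (ξ : Vtx N → ℝ) (a w : Vtx N) :
    0 ≤ Wt θ h T0 q b ξ a w := by
  unfold Wt
  have := EM_nonneg θ (q * T0) b ξ a
  have := ER_nonneg θ (q * T0) b ξ a.1.length w
  have := ES_nonneg θ h T0 q b ξ a
  positivity

lemma Wq_nonneg (θ h : ℝ) (T0 q a0 b : ℕ) (ξ : Vtx N → ℝ) (H : ℕ → Vtx N) (r : ℕ) :
    0 ≤ Wq θ h T0 q a0 b ξ H r := by
  unfold Wq
  split_ifs
  · exact Wt_nonneg _ _ _ _ _ _ _ _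
  · exact le_refl _

/-- From an exponential bound to a linear bound. -/
lemma lin_of_exp {μ y S W : ℝ} (hμ : 0 < μ) (hW : 0 ≤ W) (h : Real.exp (μ * S) ≤ Real.exp (μ * y) * W) :
    S ≤ y + W / μ := by
  have hWpos : 0 < W := by
    rcases hW.lt_or_eq with h1 | h1
    · exact h1
    · rw [← h1, mul_zero] at h
      exact absurd h (not_le.2 (Real.exp_pos _))
  have h1 : W ≤ Real.exp W := by
    have := Real.add_one_le_exp W
    linarith
  have h2 : Real.exp (μ * S) ≤ Real.exp (μ * y + W) := by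
    rw [Real.exp_add]
    exact h.trans (mul_le_mul_of_nonneg_left h1 (Real.exp_pos _).le)
  have h3 := Real.exp_le_exp.1 h2
  have h4 : μ * S ≤ μ * (y + W / μ) := by
    have : μ * (y + W / μ) = μ * y + W := by field_simp
    rw [this]; exact h3
  exact le_of_mul_le_mul_left h4 hμ

lemma lt_of_exp {μ y S W : ℝ} (hμ : 0 < μ) (hW : W < 1) (h : Real.exp (μ * S) ≤ Real.exp (μ * y) * W) :
    S < y := by
  have h2 : Real.exp (μ * S) < Real.exp (μ * y) := by
    refine h.trans_lt ?_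
    have := Real.exp_pos (μ * y)
    nlinarith
  have h3 := Real.exp_lt_exp.1 h2
  exact lt_of_mul_lt_mul_left h3 hμ.le

section path

variable {θ h : ℝ} {T0 q a0 b : ℕ} {ξ : Vtx N → ℝ} {H : ℕ → Vtx N} {R : ℕ}

open Classical in
/-- The first query that explores the ancestor at depth `k` of query `R`. -/
noncomputable def disc (H : ℕ → Vtx N) (R k : ℕ) : ℕ :=
  Nat.find (⟨R, tk_prefix_self (H R) k⟩ : ∃ r, (tk (H R) k).1 <+: (H r).1)

lemma disc_spec (H : ℕ → Vtx N) (R k : ℕ) : (tk (H R) k).1 <+: (H (disc H R k)).1 := by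
  classical
  exact Nat.find_spec (⟨R, tk_prefix_self (H R) k⟩ : ∃ r, (tk (H R) k).1 <+: (H r).1)

lemma disc_le (H : ℕ → Vtx N) (R k : ℕ) : disc H R k ≤ R := by
  classical
  exact Nat.find_min' _ (tk_prefix_self (H R) k)

lemma disc_min (H : ℕ → Vtx N) {R k r : ℕ} (hr : r < disc H R k) :
    ¬ (tk (H R) k).1 <+: (H r).1 := by
  classical
  exact Nat.find_min _ hr

lemma disc_mono (H : ℕ → Vtx N) (R : ℕ) {i j : ℕ} (hij : i ≤ j) : disc H R i ≤ disc H R j := by
  classical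
  exact Nat.find_min' _ ((tk_prefix (H R) hij).trans (disc_spec H R j))

lemma fresh_find (hb : b ≤ (H R).1.length) {k : ℕ} (hk : IsStart a0 b (disc H R) k) :
    ∃ hex : ∃ j, Fresh a0 b H (disc H R k) j, by
      classical
      exact Nat.find hex = k := by
  classical
  obtain ⟨h1, h2, h3⟩ := hk
  have hkl : k ≤ (H R).1.length := h2.trans hb
  have hspec := disc_spec H R k
  have hF : Fresh a0 b H (disc H R k) k := by
    refine ⟨h1, h2, le_length_of_prefix hkl hspec, ?_⟩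
    intro r hr
    rw [tk_eq_of_prefix hkl hspec (le_refl k)]
    exact disc_min H hr
  refine ⟨⟨k, hF⟩, ?_⟩
  rw [Nat.find_eq_iff]
  refine ⟨hF, ?_⟩
  intro j hj hFj
  obtain ⟨g1, g2, g3, g4⟩ := hFj
  rcases h3 with h3 | h3
  · omega
  · have hlt : disc H R (k - 1) < disc H R k :=
      lt_of_le_of_ne (disc_mono H R (by omega)) h3
    apply g4 _ hlt
    rw [tk_eq_of_prefix hkl hspec hj.le]
    exact (tk_prefix (H R) (by omega)).trans (disc_spec H R (k - 1))

lemma Wq_start (θ h : ℝ) (T0 q : ℕ) (ξ : Vtx N → ℝ) (hb : b ≤ (H R).1.length) {k : ℕ}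
    (hk : IsStart a0 b (disc H R) k) :
    Wq θ h T0 q a0 b ξ H (disc H R k) = Wt θ h T0 q b ξ (tk (H R) k) (H (disc H R k)) := by
  classical
  obtain ⟨hex, hfind⟩ := fresh_find hb hk
  unfold Wq
  rw [dif_pos hex, hfind, tk_eq_of_prefix (hk.2.1.trans hb) (disc_spec H R k) (le_refl k)]

theorem path_bound (hθ : 0 < θ) (hh : 0 < h) (hT : 1 ≤ T0) (hq : 1 ≤ q) {κ : ℝ} (hκ : 0 ≤ κ)
    (hκΛ : κ * (q * T0 : ℕ) ≤ h / 2) (hκθ : κ ≤ θ / 2) (hab : a0 ≤ b)
    (hb : b ≤ (H R).1.length) :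
    psum ξ θ (H R) a0 b ≤ -κ * ((b : ℝ) - a0 + 1) + 2 * h +
      (3 / 2 * h + 3 / θ) * ∑ r ∈ range (R + 1), Wq θ h T0 q a0 b ξ H r := by
  classical
  set w := H R with hw
  set x : ℕ → ℝ := fun i => ξ (tk w i) - θ with hx
  set ρ : ℕ → ℕ := disc H R with hρ
  set W : ℕ → ℝ := fun r => Wq θ h T0 q a0 b ξ H r with hWdef
  have hW : ∀ r, 0 ≤ W r := fun r => Wq_nonneg _ _ _ _ _ _ _ _ _
  have hΛ1 : 1 ≤ q * T0 := Nat.one_le_iff_ne_zero.2 (by positivity)
  have hWk : ∀ k, IsStart a0 b ρ k → W (ρ k) = Wt θ h T0 q b ξ (tk w k) (H (ρ k)) :=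
    fun k hk => Wq_start θ h T0 q ξ hb hk
  -- the three inequalities between the parts of the charge and the charge
  have hEM : ∀ k, IsStart a0 b ρ k → EM θ (q * T0) b ξ (tk w k) ≤
      Real.exp (θ * (h / 2)) * W (ρ k) := by
    intro k hk
    rw [hWk k hk]
    unfold Wt
    have e2 := ER_nonneg θ (q * T0) b ξ (tk w k).1.length (H (ρ k))
    have e3 := ES_nonneg θ h T0 q b ξ (tk w k)
    have e4 : Real.exp (θ * (h / 2)) * Real.exp (-(θ * h / 2)) = 1 := by
      rw [← Real.exp_add]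
      have : θ * (h / 2) + -(θ * h / 2) = 0 := by ring
      rw [this, Real.exp_zero]
    have e5 : 0 ≤ Real.exp (θ * (h / 2)) * (Real.exp (-(θ * h / 4)) *
        ER θ (q * T0) b ξ (tk w k).1.length (H (ρ k)) + ES θ h T0 q b ξ (tk w k)) := by
      positivity
    calc EM θ (q * T0) b ξ (tk w k)
        = (Real.exp (θ * (h / 2)) * Real.exp (-(θ * h / 2))) * EM θ (q * T0) b ξ (tk w k) := by
          rw [e4, one_mul]
      _ ≤ _ := by linarith
  have hER : ∀ k, IsStart a0 b ρ k → ER θ (q * T0) b ξ k (H (ρ k)) ≤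
      Real.exp (θ / 2 * (h / 2)) * W (ρ k) := by
    intro k hk
    rw [hWk k hk]
    unfold Wt
    rw [tk_length (hk.2.1.trans hb)]
    have e1 := EM_nonneg θ (q * T0) b ξ (tk w k)
    have e3 := ES_nonneg θ h T0 q b ξ (tk w k)
    have e4 : Real.exp (θ / 2 * (h / 2)) * Real.exp (-(θ * h / 4)) = 1 := by
      rw [← Real.exp_add]
      have : θ / 2 * (h / 2) + -(θ * h / 4) = 0 := by ring
      rw [this, Real.exp_zero]
    have e5 : 0 ≤ Real.exp (θ / 2 * (h / 2)) * (Real.exp (-(θ * h / 2)) *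
        EM θ (q * T0) b ξ (tk w k) + ES θ h T0 q b ξ (tk w k)) := by
      positivity
    calc ER θ (q * T0) b ξ k (H (ρ k))
        = (Real.exp (θ / 2 * (h / 2)) * Real.exp (-(θ * h / 4))) *
          ER θ (q * T0) b ξ k (H (ρ k)) := by
          rw [e4, one_mul]
      _ ≤ _ := by linarith
  have hES : ∀ k, IsStart a0 b ρ k → ES θ h T0 q b ξ (tk w k) ≤ W (ρ k) := by
    intro k hk
    rw [hWk k hk]
    unfold Wt
    have e1 := EM_nonneg θ (q * T0) b ξ (tk w k)
    have e2 := ER_nonneg θ (q * T0) b ξ (tk w k).1.length (H (ρ k))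
    have e5 : 0 ≤ Real.exp (-(θ * h / 2)) * EM θ (q * T0) b ξ (tk w k) := by positivity
    have e6 : 0 ≤ Real.exp (-(θ * h / 4)) *
        ER θ (q * T0) b ξ (tk w k).1.length (H (ρ k)) := by positivity
    linarith
  -- the exponential form of `P1`
  have Q1 : ∀ k j, IsStart a0 b ρ k → k ≤ j → j < k + q * T0 → j ≤ b →
      Real.exp (θ * ∑ i ∈ Icc k j, x i) ≤ Real.exp (θ * (h / 2)) * W (ρ k) := by
    intro k j hk hkj hjk hjb
    refine le_trans ?_ (hEM k hk)
    have hkl : (tk w k).1.length = k := tk_length (hk.2.1.trans hb)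
    unfold EM
    rw [hkl]
    refine le_trans ?_ (single_le_sum (f := fun j => ∑ z ∈ desc (tk w k) j,
      Real.exp (θ * psum ξ θ z k j)) (fun _ _ => sum_nonneg fun _ _ => (Real.exp_pos _).le)
      (mem_filter.2 ⟨mem_Icc.2 ⟨hkj, hjb⟩, hjk⟩))
    refine le_trans ?_ (single_le_sum (f := fun z => Real.exp (θ * psum ξ θ z k j))
      (fun _ _ => (Real.exp_pos _).le)
      (mem_desc.2 ⟨tk_length (hjb.trans hb), tk_prefix w hkj⟩))
    rw [psum_tk]
    exact le_refl _
  have Q2 : ∀ k s j, IsStart a0 b ρ k → k ≤ s → s ≤ k + q * T0 → s ≤ j → j ≤ b → ρ j = ρ k →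
      Real.exp (θ / 2 * ∑ i ∈ Icc s j, (x i + θ / 2)) ≤
        Real.exp (θ / 2 * (h / 2)) * W (ρ k) := by
    intro k s j hk hks hsk hsj hjb hρj
    refine le_trans ?_ (hER k hk)
    have hjl : j ≤ w.1.length := hjb.trans hb
    have hspec : (tk w j).1 <+: (H (ρ k)).1 := by
      rw [← hρj]
      exact disc_spec H R j
    unfold ER
    refine le_trans ?_ (single_le_sum (f := fun s => ∑ j ∈ (Icc s b).filter
      (fun j => j ≤ (H (ρ k)).1.length), Real.exp (θ / 2 * psum ξ (θ / 2) (H (ρ k)) s j))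
      (fun _ _ => sum_nonneg fun _ _ => (Real.exp_pos _).le) (mem_Icc.2 ⟨hks, hsk⟩))
    refine le_trans ?_ (single_le_sum (f := fun j =>
      Real.exp (θ / 2 * psum ξ (θ / 2) (H (ρ k)) s j)) (fun _ _ => (Real.exp_pos _).le)
      (mem_filter.2 ⟨mem_Icc.2 ⟨hsj, hjb⟩, le_length_of_prefix hjl hspec⟩))
    apply le_of_eq
    congr 2
    unfold psum
    apply sum_congr rfl
    intro i hi
    rw [hx, tk_eq_of_prefix hjl hspec (mem_Icc.1 hi).2]
    ring
  have himg : (Icc a0 b).image ρ ⊆ range (R + 1) := by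
    intro r hr
    obtain ⟨k, _, rfl⟩ := mem_image.1 hr
    exact mem_range.2 (Nat.lt_succ_of_le (disc_le H R k))
  have key := seq_bound (a := a0) (b := b) (ρ := ρ) (θ := θ) (h := h) (κ := κ) (Λ := q * T0)
    (x := x) (W := W) hθ hh hκ hΛ1 hκΛ hκθ (fun i j _ hij _ => disc_mono H R hij) hW
    (fun k j hk hkj hjk hjb => lin_of_exp hθ (hW _) (Q1 k j hk hkj hjk hjb))
    (fun k j hk hkj hjk hjb hlt => lt_of_exp hθ hlt (Q1 k j hk hkj hjk hjb))
    (fun k s j hk hks hsk hsj hjb hρj => by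
      have := lin_of_exp (by positivity) (hW _) (Q2 k s j hk hks hsk hsj hjb hρj)
      have e : W (ρ k) / (θ / 2) = 2 * W (ρ k) / θ := by field_simp
      rwa [e] at this)
    (fun k s j hk hks hsk hsj hjb hρj hlt =>
      lt_of_exp (by positivity) hlt (Q2 k s j hk hks hsk hsj hjb hρj))
    ?_ a0 ⟨le_refl _, hab, Or.inl rfl⟩
  · have h1 : ∑ r ∈ (Icc a0 b).image ρ, W r ≤ ∑ r ∈ range (R + 1), W r :=
      sum_le_sum_of_subset_of_nonneg himg (fun r _ _ => hW r)
    have h2 : 0 ≤ 3 / 2 * h + 3 / θ := by positivity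
    have h3 := mul_le_mul_of_nonneg_left h1 h2
    unfold psum
    linarith
  · -- P3
    intro k hk hkb hlt
    by_contra hcon
    push Not at hcon
    have h1 := hES k hk
    have hkl : (tk w k).1.length = k := tk_length (hk.2.1.trans hb)
    unfold ES at h1
    rw [hkl, if_pos hkb] at h1
    have hmb : k + q * T0 - 1 ≤ b := by omega
    have h2 : Real.exp (2 * θ * h) * ∏ t ∈ range q, win θ h T0 ξ (tk w (k + q * T0 - 1)) k t ≤
        W (ρ k) := by
      refine le_trans ?_ h1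
      exact single_le_sum (f := fun z => Real.exp (2 * θ * h) *
        ∏ t ∈ range q, win θ h T0 ξ z k t)
        (fun _ _ => mul_nonneg (Real.exp_pos _).le
          (prod_nonneg fun _ _ => win_nonneg _ _ _ _ _ _ _))
        (mem_desc.2 ⟨tk_length (hmb.trans hb), tk_prefix w (by omega)⟩)
    -- the partial sums at the block ends
    set y : ℕ → ℝ := fun t => ∑ i ∈ Ico k (k + t * T0), x i with hy
    have hybound : ∀ t, t ≤ q → -(2 * h) ≤ y t ∧ y t ≤ 2 * h := by
      intro t ht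
      rcases Nat.eq_zero_or_pos t with h0 | h0
      · subst h0
        simp only [hy, zero_mul, add_zero, Ico_self, sum_empty]
        constructor <;> linarith
      · have hpos : 1 ≤ t * T0 := Nat.one_le_iff_ne_zero.2 (by positivity)
        have hle : t * T0 ≤ q * T0 := Nat.mul_le_mul_right _ ht
        have e : Ico k (k + t * T0) = Icc k (k + t * T0 - 1) := by
          ext i; simp only [mem_Ico, mem_Icc]; omega
        simp only [hy, e]
        exact hcon (k + t * T0 - 1) (by omega) (by omega)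
    have hinc : ∀ t, t < q → ∑ i ∈ Ico (k + t * T0) (k + (t + 1) * T0), x i =
        y (t + 1) - y t := by
      intro t _
      have := sum_Ico_consecutive x (m := k) (n := k + t * T0) (k := k + (t + 1) * T0)
        (by omega) (by rw [add_mul]; omega)
      simp only [hy]
      linarith
    have hwin : ∀ t ∈ range q, win θ h T0 ξ (tk w (k + q * T0 - 1)) k t =
        Real.exp (θ * (y (t + 1) - y t)) := by
      intro t ht
      have htq := mem_range.1 ht
      have e : ∑ i ∈ Ico (k + t * T0) (k + (t + 1) * T0),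
          (ξ (tk (tk w (k + q * T0 - 1)) i) - θ) = y (t + 1) - y t := by
        rw [← hinc t htq]
        apply sum_congr rfl
        intro i hi
        have hi2 := (mem_Ico.1 hi).2
        have : (t + 1) * T0 ≤ q * T0 := Nat.mul_le_mul_right _ htq
        rw [tk_tk w (by omega)]
      unfold win
      rw [e, Set.indicator_of_mem]
      have b1 := hybound (t + 1) htq
      have b2 := hybound t htq.le
      constructor <;> linarith [b1.1, b1.2, b2.1, b2.2]
    rw [prod_congr rfl hwin, ← Real.exp_sum, ← mul_sum, sum_range_sub, ← Real.exp_add] at h2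
    have hy0 : y 0 = 0 := by simp [hy]
    have h3 : 1 ≤ Real.exp (2 * θ * h + θ * (y q - y 0)) := by
      rw [Real.one_le_exp_iff, hy0, sub_zero]
      have := (hybound q (le_refl q)).1
      nlinarith
    linarith

end path

end Pool.Agent.Lib.MP_f9dad2_pr
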