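import Mathlib
import Pool.Agent.Lib.MP_f9dad2_pr.Tree

/-!
# Adapted exploration of the tree
-/

namespace Pool.Agent.Lib.MP_f9dad2_pr

open MeasureTheory ProbabilityTheory
open scoped ENNReal

variable {Ω : Type*} {mΩ : MeasurableSpace Ω}

/-- The information available before query `n` is made: the first `n` queried vertices, their
values, and the auxiliary random variables `U 0, …, U n`. -/
@[reducible] def info {N : ℕ} (X : Vtx N → Ω → ℝ) (U : ℕ → Ω → ℝ) (v : ℕ → Ω → Vtx N) (n : ℕ) :
    MeasurableSpace Ω :=
  (⨆ k : Fin n, MeasurableSpace.comap (v k) ⊤) ⊔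
  (⨆ k : Fin n, MeasurableSpace.comap (fun ω => X (v k ω) ω) (borel ℝ)) ⊔
  (⨆ k : Fin (n + 1), MeasurableSpace.comap (U k) (borel ℝ))

/-- The sigma-algebra of the auxiliary randomness. -/
@[reducible] def sU (U : ℕ → Ω → ℝ) : MeasurableSpace Ω :=
  ⨆ k, MeasurableSpace.comap (U k) (borel ℝ)

/-- The sigma-algebra of the increments indexed by `S`. -/
@[reducible] def sD {V : Type*} (D : V → Ω → ℝ) (S : Set V) : MeasurableSpace Ω :=
  ⨆ u ∈ S, MeasurableSpace.comap (D u) (borel ℝ)

section indep

variable {V : Type*} {P : Measure Ω} {D : V → Ω → ℝ} {U : ℕ → Ω → ℝ}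

lemma iIndep_option (hD : iIndepFun D P)
    (hUD : Indep (sU U) (⨆ u, MeasurableSpace.comap (D u) (borel ℝ)) P) :
    iIndep (fun o : Option V => match o with
      | none => sU U
      | some u => MeasurableSpace.comap (D u) (borel ℝ)) P := by
  classical
  rw [iIndep_iff]
  intro s f hf
  have hD' : ∀ (t : Finset V) {g : V → Set Ω},
      (∀ u ∈ t, MeasurableSet[MeasurableSpace.comap (D u) (borel ℝ)] (g u)) →
      P (⋂ u ∈ t, g u) = ∏ u ∈ t, P (g u) := by
    intro t g hg
    rw [iIndepFun_iff] at hD
    refine hD t (f' := g) ?_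
    intro i hi
    have := hg i hi
    rwa [← BorelSpace.measurable_eq (α := ℝ)] at this
  have hprob : IsProbabilityMeasure P := hD.isProbabilityMeasure
  have hsome : ∀ u ∈ s.eraseNone, MeasurableSet[MeasurableSpace.comap (D u) (borel ℝ)]
      (f (some u)) := fun u hu => hf (some u) (Finset.mem_eraseNone.1 hu)
  have hrest : P (⋂ u ∈ s.eraseNone, f (some u)) = ∏ u ∈ s.eraseNone, P (f (some u)) :=
    hD' _ hsome
  have hrestm : MeasurableSet[⨆ u, MeasurableSpace.comap (D u) (borel ℝ)]
      (⋂ u ∈ s.eraseNone, f (some u)) := by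
    apply MeasurableSet.biInter (Finset.countable_toSet _)
    intro u hu
    exact (le_iSup (fun u => MeasurableSpace.comap (D u) (borel ℝ)) u) _ (hsome u hu)
  by_cases hn : none ∈ s
  · have h1 : ⋂ o ∈ s, f o = f none ∩ ⋂ u ∈ s.eraseNone, f (some u) := by
      ext ω
      simp only [Set.mem_iInter, Set.mem_inter_iff, Finset.mem_eraseNone]
      constructor
      · intro h
        exact ⟨h none hn, fun u hu => h (some u) hu⟩
      · rintro ⟨h0, h1⟩ o ho
        cases o with
        | none => exact h0
        | some u => exact h1 u ho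
    have h2 : ∏ o ∈ s, P (f o) = P (f none) * ∏ u ∈ s.eraseNone, P (f (some u)) := by
      rw [← Finset.mul_prod_erase s _ hn]
      congr 1
      have : s.erase none = s.eraseNone.map Function.Embedding.some := by
        ext o
        cases o with
        | none => simp
        | some u => simp
      rw [this, Finset.prod_map]
      rfl
    rw [h1, h2, ← hrest]
    exact (Indep_iff _ _ _).1 hUD _ _ (hf none hn) hrestm
  · have h1 : ⋂ o ∈ s, f o = ⋂ u ∈ s.eraseNone, f (some u) := by
      ext ω
      simp only [Set.mem_iInter, Finset.mem_eraseNone]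
      constructor
      · intro h u hu
        exact h (some u) hu
      · intro h1 o ho
        cases o with
        | none => exact absurd ho hn
        | some u => exact h1 u ho
    have h2 : ∏ o ∈ s, P (f o) = ∏ u ∈ s.eraseNone, P (f (some u)) := by
      have : s = s.eraseNone.map Function.Embedding.some := by
        ext o
        cases o with
        | none => simp [hn]
        | some u => simp
      conv_lhs => rw [this, Finset.prod_map]
      rfl
    rw [h1, h2, ← hrest]

/-- The increments in `S` are independent of the auxiliary randomness and the other increments. -/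
lemma indep_of_option (hD : iIndepFun D P) (hDm : ∀ u, Measurable (D u)) (hU : sU U ≤ mΩ)
    (hUD : Indep (sU U) (⨆ u, MeasurableSpace.comap (D u) (borel ℝ)) P) (S : Set V) :
    Indep (sU U ⊔ sD D Sᶜ) (sD D S) P := by
  have h := iIndep_option hD hUD
  have hle : ∀ o : Option V, (match o with
      | none => sU U
      | some u => MeasurableSpace.comap (D u) (borel ℝ)) ≤ mΩ := by
    intro o
    cases o with
    | none => exact hU
    | some u =>
      have := (hDm u).comap_le
      rwa [BorelSpace.measurable_eq (α := ℝ)] at this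
  have hdisj : Disjoint ({none} ∪ some '' Sᶜ : Set (Option V)) (some '' S) := by
    rw [Set.disjoint_left]
    rintro o (ho | ⟨u, hu, rfl⟩) ⟨u', hu', heq⟩
    · rw [Set.mem_singleton_iff] at ho
      rw [ho] at heq
      exact absurd heq (by simp)
    · rw [Option.some_inj] at heq
      exact hu (heq ▸ hu')
  have key := indep_iSup_of_disjoint hle h hdisj
  rw [iSup_union, iSup_singleton, iSup_image, iSup_image] at key
  exact key

end indep

section adapt

variable {N : ℕ} {P : Measure Ω} {X D : Vtx N → Ω → ℝ} {U : ℕ → Ω → ℝ} {v : ℕ → Ω → Vtx N}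

/-- The event that the first queries follow the history `H`. -/
def Follow (v : ℕ → Ω → Vtx N) (H : ℕ → Vtx N) (n : ℕ) : Set Ω := {ω | ∀ k < n, v k ω = H k}

/-- The trace of a sigma-algebra on a measurable set. -/
@[reducible] def traceOn (m1 : MeasurableSpace Ω) (B : Set Ω) (hB : MeasurableSet[m1] B) :
    MeasurableSpace Ω :=
  { MeasurableSet' := fun E => MeasurableSet[m1] (B ∩ E)
    measurableSet_empty := by
      rw [Set.inter_empty]
      exact @MeasurableSet.empty _ m1
    measurableSet_compl := by
      intro E hE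
      have : B ∩ Eᶜ = B \ (B ∩ E) := by
        ext ω
        simp only [Set.mem_inter_iff, Set.mem_compl_iff, Set.mem_sdiff]
        tauto
      rw [this]
      exact @MeasurableSet.diff _ m1 _ _ hB hE
    measurableSet_iUnion := by
      intro f hf
      rw [Set.inter_iUnion]
      exact @MeasurableSet.iUnion _ _ m1 _ _ hf }

lemma follow_meas {H : ℕ → Vtx N} {r : ℕ} (m1 : MeasurableSpace Ω)
    (hv : ∀ n, Measurable[info X U v n, ⊤] (v n))
    (hU : ∀ k, MeasurableSpace.comap (U k) (borel ℝ) ≤ m1)
    (hX : ∀ k < r, MeasurableSpace.comap (X (H k)) (borel ℝ) ≤ m1) :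
    ∀ n ≤ r + 1, MeasurableSet[m1] (Follow v H n) := by
  intro n
  induction n with
  | zero =>
    intro _
    have : Follow v H 0 = Set.univ := by
      ext ω
      simp [Follow]
    rw [this]
    exact @MeasurableSet.univ _ m1
  | succ n ih =>
    intro hn
    have hB := ih (by omega)
    have hle : info X U v n ≤ traceOn m1 (Follow v H n) hB := by
      unfold info
      refine sup_le (sup_le ?_ ?_) ?_
      · refine iSup_le fun k => ?_
        rintro E ⟨S, _, rfl⟩
        change MeasurableSet[m1] (Follow v H n ∩ v k ⁻¹' S)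
        by_cases hk : H k ∈ S
        · have : Follow v H n ∩ v k ⁻¹' S = Follow v H n := by
            ext ω
            simp only [Set.mem_inter_iff, Set.mem_preimage, and_iff_left_iff_imp]
            intro hω
            rw [hω k k.2]
            exact hk
          rw [this]
          exact hB
        · have : Follow v H n ∩ v k ⁻¹' S = ∅ := by
            ext ω
            simp only [Set.mem_inter_iff, Set.mem_preimage, Set.mem_empty_iff_false, iff_false,
              not_and]
            intro hω
            rw [hω k k.2]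
            exact hk
          rw [this]
          exact @MeasurableSet.empty _ m1
      · refine iSup_le fun k => ?_
        rintro E ⟨S, hS, rfl⟩
        change MeasurableSet[m1] (Follow v H n ∩ (fun ω => X (v k ω) ω) ⁻¹' S)
        have : Follow v H n ∩ (fun ω => X (v k ω) ω) ⁻¹' S =
            Follow v H n ∩ X (H k) ⁻¹' S := by
          ext ω
          simp only [Set.mem_inter_iff, Set.mem_preimage, and_congr_right_iff]
          intro hω
          rw [hω k k.2]
        rw [this]
        have hk : (k : ℕ) < r := by have := k.2; omega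
        exact @MeasurableSet.inter _ m1 _ _ hB (hX k hk _ ⟨S, hS, rfl⟩)
      · refine iSup_le fun k => ?_
        intro E hE
        change MeasurableSet[m1] (Follow v H n ∩ E)
        exact @MeasurableSet.inter _ m1 _ _ hB (hU k _ (by simpa using hE))
    have h1 : MeasurableSet[info X U v n] {ω | v n ω = H n} := hv n (t := {H n}) trivial
    have h2 : MeasurableSet[m1] (Follow v H n ∩ {ω | v n ω = H n}) := hle _ h1
    have h3 : Follow v H (n + 1) = Follow v H n ∩ {ω | v n ω = H n} := by
      ext ω
      simp only [Follow, Set.mem_ofPred_eq, Set.mem_inter_iff]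
      constructor
      · intro h
        exact ⟨fun k hk => h k (by omega), h n (by omega)⟩
      · rintro ⟨h4, h5⟩ k hk
        rcases Nat.lt_succ_iff_lt_or_eq.1 hk with h6 | h6
        · exact h4 k h6
        · rw [h6]; exact h5
    rw [h3]
    exact h2

/-- **Adaptivity lemma.** If `Φ H` depends only on the increments in a set `S H` of vertices that
are not ancestors of the vertices queried before time `r`, then the expectation of `Φ` along the
actual exploration is at most the supremum of the expectations of the `Φ H`. -/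
theorem adapt_bound [IsProbabilityMeasure P] (hD : iIndepFun D P) (hDm : ∀ u, Measurable (D u))
    (hXD : ∀ u ω, X u ω = ∑ i ∈ Finset.range (u.1.length + 1), D (tk u i) ω)
    (hUm : ∀ k, Measurable (U k))
    (hUD : Indep (sU U) (⨆ u, MeasurableSpace.comap (D u) (borel ℝ)) P)
    (hv : ∀ n, Measurable[info X U v n, ⊤] (v n))
    (r : ℕ) (S : (ℕ → Vtx N) → Set (Vtx N)) (Φ : (ℕ → Vtx N) → Ω → ℝ≥0∞) (y : ℝ≥0∞)
    (hdep : ∀ H H' : ℕ → Vtx N, (∀ k ≤ r, H k = H' k) → Φ H = Φ H')
    (hmeas : ∀ H, Measurable[sD D (S H)] (Φ H))
    (hS : ∀ H, ∀ k < r, ∀ u ∈ S H, ¬ (u.1 <+: (H k).1))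
    (hy : ∀ H, ∫⁻ ω, Φ H ω ∂P ≤ y) :
    ∫⁻ ω, Φ (fun k => v k ω) ω ∂P ≤ y := by
  classical
  have hUle : ∀ k, MeasurableSpace.comap (U k) (borel ℝ) ≤ mΩ := by
    intro k
    have := (hUm k).comap_le
    rwa [BorelSpace.measurable_eq (α := ℝ)] at this
  have hDle : ∀ u, MeasurableSpace.comap (D u) (borel ℝ) ≤ mΩ := by
    intro u
    have := (hDm u).comap_le
    rwa [BorelSpace.measurable_eq (α := ℝ)] at this
  have hmUle : sU U ≤ mΩ := iSup_le hUle
  have hsDle : ∀ S : Set (Vtx N), sD D S ≤ mΩ := fun S => iSup₂_le fun u _ => hDle u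
  let root : Vtx N := ⟨[], by simp⟩
  let ext : (Fin (r + 1) → Vtx N) → ℕ → Vtx N := fun g k =>
    if h : k < r + 1 then g ⟨k, h⟩ else root
  have hpt : ∀ ω, Φ (fun k => v k ω) ω =
      ∑ g : Fin (r + 1) → Vtx N, (Follow v (ext g) (r + 1)).indicator 1 ω * Φ (ext g) ω := by
    intro ω
    set g0 : Fin (r + 1) → Vtx N := fun k => v k ω with hg0
    rw [Finset.sum_eq_single g0]
    · have h1 : ω ∈ Follow v (ext g0) (r + 1) := by
        intro k hk
        simp only [ext]
        rw [dif_pos hk]
      rw [Set.indicator_of_mem h1, Pi.one_apply, one_mul]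
      rw [hdep (fun k => v k ω) (ext g0)]
      intro k hk
      simp only [ext]
      rw [dif_pos (by omega)]
    · intro g _ hg
      have h1 : ω ∉ Follow v (ext g) (r + 1) := by
        intro h
        apply hg
        ext k : 1
        have := h k k.2
        simp only [ext] at this
        rw [dif_pos k.2] at this
        rw [hg0]
        exact this.symm
      rw [Set.indicator_of_notMem h1, zero_mul]
    · intro h
      exact absurd (Finset.mem_univ _) h
  -- measurability of the events
  have hFm : ∀ H : ℕ → Vtx N, MeasurableSet[sU U ⊔ sD D (S H)ᶜ] (Follow v H (r + 1)) := by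
    intro H
    refine follow_meas (X := X) (U := U) (sU U ⊔ sD D (S H)ᶜ) hv ?_ ?_ (r + 1) (le_refl _)
    · intro k
      exact (le_iSup (fun k => MeasurableSpace.comap (U k) (borel ℝ)) k).trans le_sup_left
    · intro k hk
      refine le_trans ?_ (le_sup_right (a := sU U))
      rw [← measurable_iff_comap_le]
      have : X (H k) = fun ω => ∑ i ∈ Finset.range ((H k).1.length + 1), D (tk (H k) i) ω := by
        ext ω
        exact hXD (H k) ω
      rw [this]
      have hb : borel ℝ = (inferInstance : MeasurableSpace ℝ) :=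
        (BorelSpace.measurable_eq (α := ℝ)).symm
      rw [hb]
      refine Finset.measurable_fun_sum _ ?_
      intro i _
      rw [measurable_iff_comap_le]
      have hi : tk (H k) i ∈ (S H)ᶜ := fun h => hS H k hk _ h (tk_prefix_self (H k) i)
      exact le_iSup₂_of_le (tk (H k) i) hi (le_refl _)
  have hFm' : ∀ H : ℕ → Vtx N, MeasurableSet (Follow v H (r + 1)) := by
    intro H
    have hle : sU U ⊔ sD D (S H)ᶜ ≤ mΩ := sup_le hmUle (hsDle _)
    exact hle _ (hFm H)
  have hΦm : ∀ H, Measurable (Φ H) := by
    intro H
    exact (hmeas H).mono (hsDle _) le_rfl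
  simp_rw [hpt]
  rw [lintegral_finsetSum]
  · have hprod : ∀ g : Fin (r + 1) → Vtx N,
        ∫⁻ ω, (Follow v (ext g) (r + 1)).indicator 1 ω * Φ (ext g) ω ∂P ≤
          P (Follow v (ext g) (r + 1)) * y := by
      intro g
      have hone : Measurable[sU U ⊔ sD D (S (ext g))ᶜ]
          ((Follow v (ext g) (r + 1)).indicator (1 : Ω → ℝ≥0∞)) :=
        (measurable_const (a := (1 : ℝ≥0∞))).indicator (hFm (ext g))
      rw [lintegral_mul_eq_lintegral_mul_lintegral_of_independent_measurableSpace
        (Mf := sU U ⊔ sD D (S (ext g))ᶜ) (Mg := sD D (S (ext g)))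
        (sup_le hmUle (hsDle _)) (hsDle _)
        (indep_of_option hD hDm hmUle hUD (S (ext g)))
        hone (hmeas (ext g))]
      have h1 : ∫⁻ ω, (Follow v (ext g) (r + 1)).indicator (1 : Ω → ℝ≥0∞) ω ∂P =
          P (Follow v (ext g) (r + 1)) := lintegral_indicator_one (hFm' _)
      rw [h1]
      exact mul_le_mul_right (hy _) _
    refine (Finset.sum_le_sum fun g _ => hprod g).trans ?_
    rw [← Finset.sum_mul]
    have hsum : ∑ g : Fin (r + 1) → Vtx N, P (Follow v (ext g) (r + 1)) ≤ 1 := by
      rw [← measure_biUnion_finset]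
      · exact prob_le_one
      · intro g _ g' _ hgg'
        rw [Function.onFun, Set.disjoint_left]
        intro ω hω hω'
        apply hgg'
        ext k : 1
        have h1 := hω k k.2
        have h2 := hω' k k.2
        simp only [ext] at h1 h2
        rw [dif_pos k.2] at h1 h2
        exact h1.symm.trans h2
      · intro g _
        exact hFm' _
    calc (∑ g : Fin (r + 1) → Vtx N, P (Follow v (ext g) (r + 1))) * y ≤ 1 * y :=
          mul_le_mul_left hsum _
      _ = y := one_mul y
  · intro g _
    exact ((measurable_const (a := (1 : ℝ≥0∞))).indicator (hFm' (ext g))).mul (hΦm _)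

end adapt

end Pool.Agent.Lib.MP_f9dad2_pr
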