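import Mathlib

/-!
# Gaussian computations
-/

namespace Pool.Agent.Lib.MP_f9dad2_pr

open MeasureTheory ProbabilityTheory
open scoped ENNReal NNReal

/-- The critical exponent `√(2 log 2)`. -/
noncomputable def θc : ℝ := Real.sqrt (2 * Real.log 2)

lemma θc_sq : θc ^ 2 = 2 * Real.log 2 := by
  unfold θc
  exact Real.sq_sqrt (by positivity)

lemma θc_pos : 0 < θc := by
  unfold θc
  positivity

variable {Ω : Type*} {mΩ : MeasurableSpace Ω} {P : Measure Ω}

lemma lintegral_exp_gaussianReal (m : ℝ) (v : ℝ≥0) (t c : ℝ) :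
    ∫⁻ x, ENNReal.ofReal (Real.exp (t * x - c)) ∂(gaussianReal m v) =
      ENNReal.ofReal (Real.exp (m * t + v * t ^ 2 / 2 - c)) := by
  have h1 : Integrable (fun x => Real.exp (t * x)) (gaussianReal m v) :=
    integrable_exp_mul_gaussianReal t
  have h2 : Integrable (fun x => Real.exp (t * x - c)) (gaussianReal m v) := by
    have : (fun x => Real.exp (t * x - c)) = fun x => Real.exp (t * x) * Real.exp (-c) := by
      ext x
      rw [← Real.exp_add, sub_eq_add_neg]
    rw [this]
    exact h1.mul_const _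
  rw [← ofReal_integral_eq_lintegral_ofReal h2 (Filter.Eventually.of_forall fun x =>
    (Real.exp_pos _).le)]
  congr 1
  have h3 : ∫ x, Real.exp (t * x) ∂(gaussianReal m v) = Real.exp (m * t + v * t ^ 2 / 2) := by
    have := congrFun (mgf_fun_id_gaussianReal (μ := m) (v := v)) t
    simpa [mgf] using this
  calc ∫ x, Real.exp (t * x - c) ∂(gaussianReal m v)
      = ∫ x, Real.exp (t * x) * Real.exp (-c) ∂(gaussianReal m v) := by
        congr 1
        ext x
        rw [← Real.exp_add, sub_eq_add_neg]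
    _ = Real.exp (m * t + v * t ^ 2 / 2) * Real.exp (-c) := by
        rw [integral_mul_const, h3]
    _ = _ := by rw [← Real.exp_add, sub_eq_add_neg]

lemma lintegral_exp_of_map {X : Ω → ℝ} (hX : Measurable X) {m : ℝ} {v : ℝ≥0}
    (hlaw : P.map X = gaussianReal m v) (t c : ℝ) :
    ∫⁻ ω, ENNReal.ofReal (Real.exp (t * X ω - c)) ∂P =
      ENNReal.ofReal (Real.exp (m * t + v * t ^ 2 / 2 - c)) := by
  rw [← lintegral_exp_gaussianReal, ← hlaw, lintegral_map (by fun_prop) hX]

lemma map_sum_gaussian {ι : Type*} {η : ι → Ω → ℝ} {v : ι → ℝ≥0} (hind : iIndepFun η P)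
    (hmeas : ∀ i, Measurable (η i)) (s : Finset ι)
    (hlaw : ∀ i ∈ s, P.map (η i) = gaussianReal 0 (v i)) :
    P.map (fun ω => ∑ i ∈ s, η i ω) = gaussianReal 0 (∑ i ∈ s, v i) := by
  classical
  have : IsProbabilityMeasure P := hind.isProbabilityMeasure
  induction s using Finset.induction_on with
  | empty =>
    simp only [Finset.sum_empty, gaussianReal_zero_var]
    rw [Measure.map_const]
    simp
  | insert j s hj ih =>
    have h1 := ih (fun i hi => hlaw i (Finset.mem_insert_of_mem hi))
    have h2 := hlaw j (Finset.mem_insert_self j s)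
    have h3 : IndepFun (η j) (fun ω => ∑ i ∈ s, η i ω) P := by
      have := (hind.indepFun_finsetSum_of_notMem hmeas hj).symm
      have he : (∑ i ∈ s, η i) = fun ω => ∑ i ∈ s, η i ω := by
        ext ω
        simp
      rwa [he] at this
    have h4 := gaussianReal_add_gaussianReal_of_indepFun h3 h2 h1
    rw [Finset.sum_insert hj]
    rw [zero_add] at h4
    rw [← h4]
    congr 1
    ext ω
    simp [Finset.sum_insert hj]

/-- Exponential moment of a sum of independent centred Gaussians. -/
lemma lintegral_exp_sum {ι : Type*} {η : ι → Ω → ℝ} {v : ι → ℝ≥0} (hind : iIndepFun η P)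
    (hmeas : ∀ i, Measurable (η i)) (s : Finset ι)
    (hlaw : ∀ i ∈ s, P.map (η i) = gaussianReal 0 (v i)) (t c : ℝ) :
    ∫⁻ ω, ENNReal.ofReal (Real.exp (t * (∑ i ∈ s, η i ω) - c)) ∂P =
      ENNReal.ofReal (Real.exp ((∑ i ∈ s, (v i : ℝ)) * t ^ 2 / 2 - c)) := by
  rw [lintegral_exp_of_map (by fun_prop) (map_sum_gaussian hind hmeas s hlaw)]
  simp

/-- The tilted mass of a window of half width `w` under a centred Gaussian of variance `T`. -/
lemma window_bound (T : ℕ) (hT : 0 < T) (w : ℝ) (hw : 0 ≤ w) :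
    ∫⁻ x, (Set.Icc (-w) w).indicator (fun y => ENNReal.ofReal (Real.exp (θc * y)))
      (x - θc * T) ∂(gaussianReal 0 (T : ℝ≥0)) ≤
      ENNReal.ofReal (2 * w * (Real.sqrt (2 * Real.pi * T))⁻¹ * (1 / 2) ^ T) := by
  have hT' : (T : ℝ≥0) ≠ 0 := by exact_mod_cast hT.ne'
  have hTR : (0 : ℝ) < T := by exact_mod_cast hT
  rw [gaussianReal_of_var_ne_zero _ hT']
  have hmeas : Measurable fun x : ℝ => (Set.Icc (-w) w).indicator
      (fun y => ENNReal.ofReal (Real.exp (θc * y))) (x - θc * T) := by
    apply Measurable.comp (g := (Set.Icc (-w) w).indicator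
      (fun y => ENNReal.ofReal (Real.exp (θc * y)))) _ (by fun_prop)
    exact Measurable.indicator (by fun_prop) measurableSet_Icc
  rw [lintegral_withDensity_eq_lintegral_mul _ (measurable_gaussianPDF _ _) hmeas]
  have hpt : ∀ x : ℝ, (gaussianPDF 0 (T : ℝ≥0) * fun x : ℝ => (Set.Icc (-w) w).indicator
      (fun y => ENNReal.ofReal (Real.exp (θc * y))) (x - θc * T)) x ≤
      (Set.Icc (θc * T - w) (θc * T + w)).indicator
        (fun _ => ENNReal.ofReal ((Real.sqrt (2 * Real.pi * T))⁻¹ * (1 / 2) ^ T)) x := by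
    intro x
    simp only [Pi.mul_apply]
    by_cases hx : x - θc * T ∈ Set.Icc (-w) w
    · have hx' : x ∈ Set.Icc (θc * T - w) (θc * T + w) := by
        rw [Set.mem_Icc] at hx ⊢
        constructor <;> linarith [hx.1, hx.2]
      rw [Set.indicator_of_mem hx, Set.indicator_of_mem hx']
      unfold gaussianPDF gaussianPDFReal
      rw [← ENNReal.ofReal_mul (by positivity)]
      apply ENNReal.ofReal_le_ofReal
      rw [mul_assoc]
      simp only [NNReal.coe_natCast, sub_zero]
      apply mul_le_mul_of_nonneg_left _ (by positivity)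
      rw [← Real.exp_add]
      have h1 : ((1 : ℝ) / 2) ^ T = Real.exp (-(T * Real.log 2)) := by
        rw [Real.exp_neg, Real.exp_nat_mul, Real.exp_log (by norm_num)]
        simp
      rw [h1]
      apply Real.exp_le_exp.2
      have h2 := θc_sq
      have h3 : -x ^ 2 / (2 * T) + θc * (x - θc * T) =
          -(x - θc * T) ^ 2 / (2 * T) - θc ^ 2 * T / 2 := by
        field_simp
        ring
      rw [h3, h2]
      have h4 : 0 ≤ (x - θc * T) ^ 2 / (2 * T) := by positivity
      have h5 : -(x - θc * T) ^ 2 / (2 * T) = -((x - θc * T) ^ 2 / (2 * T)) := by ring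
      rw [h5]
      linarith
    · rw [Set.indicator_of_notMem hx, mul_zero]
      exact zero_le
  refine (lintegral_mono hpt).trans ?_
  rw [lintegral_indicator measurableSet_Icc, setLIntegral_const, Real.volume_Icc,
    ← ENNReal.ofReal_mul (by positivity)]
  apply ENNReal.ofReal_le_ofReal
  apply le_of_eq
  ring

end Pool.Agent.Lib.MP_f9dad2_pr
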