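import Mathlib
import Pool.Agent.Lib.MP_f9dad2_pr.Gauss
import Pool.Agent.Lib.MP_f9dad2_pr.Adapt

/-!
# Expectation of the charges
-/

namespace Pool.Agent.Lib.MP_f9dad2_pr

open MeasureTheory ProbabilityTheory Finset
open scoped ENNReal NNReal

variable {Ω : Type*} {mΩ : MeasurableSpace Ω} {P : Measure Ω} {N : ℕ}

section sigma

variable {V : Type*} {D : V → Ω → ℝ}

lemma measurable_sD {S : Set V} {u : V} (hu : u ∈ S) : Measurable[sD D S] (D u) := by
  rw [measurable_iff_comap_le, BorelSpace.measurable_eq (α := ℝ)]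
  exact le_iSup₂_of_le u hu (le_refl _)

lemma sD_le (hDm : ∀ u, Measurable (D u)) (S : Set V) : sD D S ≤ mΩ := by
  refine iSup₂_le fun u _ => ?_
  have := (hDm u).comap_le
  rwa [BorelSpace.measurable_eq (α := ℝ)] at this

lemma sD_mono {S T : Set V} (h : S ⊆ T) : sD D S ≤ sD D T := by
  refine iSup₂_le fun u hu => ?_
  exact le_iSup₂_of_le u (h hu) (le_refl _)

lemma indep_sD (hD : iIndepFun D P) (hDm : ∀ u, Measurable (D u)) {S T : Set V}
    (hST : Disjoint S T) : Indep (sD D S) (sD D T) P := by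
  have h1 : iIndep (fun u => MeasurableSpace.comap (D u) (borel ℝ)) P := by
    have := hD.iIndep
    rwa [BorelSpace.measurable_eq (α := ℝ)] at this
  have h2 : ∀ u, MeasurableSpace.comap (D u) (borel ℝ) ≤ mΩ := by
    intro u
    have := (hDm u).comap_le
    rwa [BorelSpace.measurable_eq (α := ℝ)] at this
  exact indep_iSup_of_disjoint h2 h1 hST

end sigma

lemma card_desc_le (a : Vtx N) {j : ℕ} (_hj : a.1.length ≤ j) :
    (desc a j).card ≤ 2 ^ (j - a.1.length) := by
  classical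
  have h1 : Fintype.card (Fin (j - a.1.length) → Bool) = 2 ^ (j - a.1.length) := by
    rw [Fintype.card_fun, Fintype.card_bool, Fintype.card_fin]
  rw [← h1, ← Finset.card_univ]
  let f : Vtx N → (Fin (j - a.1.length) → Bool) := fun z i =>
    (z.1.drop a.1.length).getD i true
  apply Finset.card_le_card_of_injOn f (fun _ _ => Finset.mem_coe.2 (Finset.mem_univ _))
  intro z hz z' hz' heq
  have hz := mem_desc.1 (Finset.mem_coe.1 hz)
  have hz' := mem_desc.1 (Finset.mem_coe.1 hz')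
  have e1 : (z.1.drop a.1.length).length = j - a.1.length := by
    rw [List.length_drop, hz.1]
  have e2 : (z'.1.drop a.1.length).length = j - a.1.length := by
    rw [List.length_drop, hz'.1]
  have e3 : z.1.drop a.1.length = z'.1.drop a.1.length := by
    apply List.ext_getElem (e1.trans e2.symm)
    intro i h1 h2
    have h3 := congrFun heq ⟨i, by omega⟩
    simp only [f] at h3
    rwa [List.getD_eq_getElem _ _ h1, List.getD_eq_getElem _ _ h2] at h3
  obtain ⟨t, ht⟩ := hz.2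
  obtain ⟨t', ht'⟩ := hz'.2
  apply Subtype.ext
  rw [← ht, ← ht'] at e3 ⊢
  rw [List.drop_left, List.drop_left] at e3
  rw [e3]

lemma tk_injOn (z : Vtx N) : Set.InjOn (tk z) {i | i ≤ z.1.length} := by
  intro i hi j hj h
  have h1 : (tk z i).1.length = (tk z j).1.length := by rw [h]
  rwa [tk_length hi, tk_length hj] at h1

/-- Expectation of a double sum of nonnegative functions. -/
lemma lintegral_double_sum {ι κ : Type*} (s : Finset ι) (t : ι → Finset κ) (f : ι → κ → Ω → ℝ)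
    (hf0 : ∀ i k ω, 0 ≤ f i k ω) (hfm : ∀ i k, Measurable (f i k)) :
    ∫⁻ ω, ENNReal.ofReal (∑ i ∈ s, ∑ k ∈ t i, f i k ω) ∂P =
      ∑ i ∈ s, ∑ k ∈ t i, ∫⁻ ω, ENNReal.ofReal (f i k ω) ∂P := by
  have h1 : ∀ ω, ENNReal.ofReal (∑ i ∈ s, ∑ k ∈ t i, f i k ω) =
      ∑ i ∈ s, ∑ k ∈ t i, ENNReal.ofReal (f i k ω) := by
    intro ω
    rw [ENNReal.ofReal_sum_of_nonneg (fun i _ => sum_nonneg fun k _ => hf0 i k ω)]
    apply sum_congr rfl
    intro i _
    rw [ENNReal.ofReal_sum_of_nonneg (fun k _ => hf0 i k ω)]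
  simp_rw [h1]
  rw [lintegral_finsetSum]
  · apply sum_congr rfl
    intro i _
    rw [lintegral_finsetSum]
    intro k _
    exact (hfm i k).ennreal_ofReal
  · intro i _
    exact Finset.measurable_fun_sum _ fun k _ => (hfm i k).ennreal_ofReal

section
variable {ξ : Vtx N → Ω → ℝ} {a0 b : ℕ}

lemma sum_law (hξ : iIndepFun ξ P) (hξm : ∀ u, Measurable (ξ u))
    (hlaw : ∀ u : Vtx N, a0 ≤ u.1.length → u.1.length ≤ b → P.map (ξ u) = gaussianReal 0 1)
    (z : Vtx N) (s : Finset ℕ) (hs : ∀ i ∈ s, a0 ≤ i ∧ i ≤ b ∧ i ≤ z.1.length) :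
    P.map (fun ω => ∑ i ∈ s, ξ (tk z i) ω) = gaussianReal 0 (s.card : ℝ≥0) := by
  classical
  have hinj : Function.Injective (fun i : s => tk z i) := by
    intro i j hij
    exact Subtype.ext (tk_injOn z (hs i i.2).2.2 (hs j j.2).2.2 hij)
  have h1 : iIndepFun (fun i : s => ξ (tk z i)) P := hξ.precomp hinj
  have h2 := map_sum_gaussian (v := fun _ : s => (1 : ℝ≥0)) h1 (fun i => hξm _) Finset.univ
    (fun i _ => by
      have hi := hs i i.2
      exact hlaw _ (by rw [tk_length hi.2.2]; exact hi.1) (by rw [tk_length hi.2.2]; exact hi.2.1))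
  have h3 : (fun ω => ∑ i ∈ s, ξ (tk z i) ω) = fun ω => ∑ i : s, ξ (tk z i) ω := by
    ext ω
    rw [← Finset.sum_coe_sort s]
  rw [h3, h2]
  congr 1
  simp

lemma lintegral_exp_psum (hξ : iIndepFun ξ P) (hξm : ∀ u, Measurable (ξ u))
    (hlaw : ∀ u : Vtx N, a0 ≤ u.1.length → u.1.length ≤ b → P.map (ξ u) = gaussianReal 0 1)
    (z : Vtx N) (t c : ℝ) {i j : ℕ} (hi : a0 ≤ i) (hij : i ≤ j) (hj : j ≤ b)
    (hjz : j ≤ z.1.length) :
    ∫⁻ ω, ENNReal.ofReal (Real.exp (t * psum (fun u => ξ u ω) c z i j)) ∂P =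
      ENNReal.ofReal (Real.exp (((j : ℝ) + 1 - i) * (t ^ 2 / 2 - t * c))) := by
  have h1 := sum_law hξ hξm hlaw z (Icc i j) (fun k hk => by
    have := mem_Icc.1 hk
    omega)
  have hcard : ((Icc i j).card : ℝ) = (j : ℝ) + 1 - i := by
    rw [Nat.card_Icc, Nat.cast_sub (by omega)]
    push_cast
    ring
  have h2 := lintegral_exp_of_map (P := P) (X := fun ω => ∑ k ∈ Icc i j, ξ (tk z k) ω)
    (by fun_prop) h1 t (t * c * ((Icc i j).card : ℝ))
  have h3 : ∀ ω, t * psum (fun u => ξ u ω) c z i j =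
      t * (∑ k ∈ Icc i j, ξ (tk z k) ω) - t * c * ((Icc i j).card : ℝ) := by
    intro ω
    unfold psum
    rw [sum_sub_distrib, sum_const, nsmul_eq_mul]
    ring
  simp_rw [h3]
  rw [h2]
  congr 2
  rw [← hcard]
  simp only [NNReal.coe_natCast]
  ring

lemma θc_ratio : Real.exp (-(Real.log 2 / 4)) ≤ 6 / 7 := by
  have h1 : Real.exp (-(Real.log 2 / 4)) ^ 4 = 1 / 2 := by
    rw [← Real.exp_nat_mul]
    have : ((4 : ℕ) : ℝ) * -(Real.log 2 / 4) = -Real.log 2 := by push_cast; ring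
    rw [this, Real.exp_neg, Real.exp_log (by norm_num)]
    norm_num
  by_contra h
  push Not at h
  have h2 : (6 / 7 : ℝ) ^ 4 < Real.exp (-(Real.log 2 / 4)) ^ 4 :=
    pow_lt_pow_left₀ h (by norm_num) (by norm_num)
  rw [h1] at h2
  norm_num at h2

lemma lintegral_EM (hξ : iIndepFun ξ P) (hξm : ∀ u, Measurable (ξ u))
    (hlaw : ∀ u : Vtx N, a0 ≤ u.1.length → u.1.length ≤ b → P.map (ξ u) = gaussianReal 0 1)
    (Λ : ℕ) (a : Vtx N) (ha : a0 ≤ a.1.length) :
    ∫⁻ ω, ENNReal.ofReal (EM θc Λ b (fun u => ξ u ω) a) ∂P ≤ ENNReal.ofReal Λ := by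
  have hterm : ∀ j ∈ (Icc a.1.length b).filter (fun j => j < a.1.length + Λ),
      ∀ z ∈ desc a j, ∫⁻ ω, ENNReal.ofReal
        (Real.exp (θc * psum (fun u => ξ u ω) θc z a.1.length j)) ∂P =
        ENNReal.ofReal ((1 / 2) ^ (j + 1 - a.1.length)) := by
    intro j hj z hz
    have h1 := mem_Icc.1 (mem_filter.1 hj).1
    have h2 := mem_desc.1 hz
    rw [lintegral_exp_psum hξ hξm hlaw z θc θc ha h1.1 h1.2 h2.1.symm.le]
    congr 1
    have h3 : θc ^ 2 / 2 - θc * θc = -Real.log 2 := by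
      have := θc_sq
      nlinarith
    rw [h3]
    have h4 : ((j : ℝ) + 1 - a.1.length) = ((j + 1 - a.1.length : ℕ) : ℝ) := by
      rw [Nat.cast_sub (by omega)]
      push_cast
      ring
    rw [h4, mul_neg, Real.exp_neg, Real.exp_nat_mul, Real.exp_log (by norm_num)]
    simp
  unfold EM
  have hmeas : ∀ j z, Measurable fun ω =>
      (Real.exp (θc * psum (fun u => ξ u ω) θc z a.1.length j)) := by
    intro j z
    unfold psum
    fun_prop
  rw [lintegral_double_sum _ _ (fun j z ω => Real.exp (θc * psum (fun u => ξ u ω) θc z a.1.length j))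
    (fun _ _ _ => (Real.exp_pos _).le) hmeas]
  have h1 : ∀ j ∈ (Icc a.1.length b).filter (fun j => j < a.1.length + Λ),
      ∑ z ∈ desc a j, ∫⁻ ω, ENNReal.ofReal
        (Real.exp (θc * psum (fun u => ξ u ω) θc z a.1.length j)) ∂P ≤ 1 := by
    intro j hj
    rw [sum_congr rfl (hterm j hj), sum_const, nsmul_eq_mul]
    have hj1 := mem_Icc.1 (mem_filter.1 hj).1
    have h2 : ((desc a j).card : ℝ≥0∞) ≤ ENNReal.ofReal (2 ^ (j - a.1.length)) := by
      rw [← ENNReal.ofReal_natCast]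
      apply ENNReal.ofReal_le_ofReal
      exact_mod_cast card_desc_le a hj1.1
    calc ((desc a j).card : ℝ≥0∞) * ENNReal.ofReal ((1 / 2) ^ (j + 1 - a.1.length))
        ≤ ENNReal.ofReal (2 ^ (j - a.1.length)) *
          ENNReal.ofReal ((1 / 2) ^ (j + 1 - a.1.length)) := mul_le_mul_left h2 _
      _ = ENNReal.ofReal (2 ^ (j - a.1.length) * (1 / 2) ^ (j + 1 - a.1.length)) :=
          (ENNReal.ofReal_mul (by positivity)).symm
      _ ≤ ENNReal.ofReal 1 := by
          apply ENNReal.ofReal_le_ofReal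
          have : j + 1 - a.1.length = (j - a.1.length) + 1 := by omega
          rw [this, pow_succ, ← mul_assoc, ← mul_pow]
          norm_num
      _ = 1 := ENNReal.ofReal_one
  calc _ ≤ ∑ j ∈ (Icc a.1.length b).filter (fun j => j < a.1.length + Λ), (1 : ℝ≥0∞) :=
        sum_le_sum h1
    _ = (((Icc a.1.length b).filter (fun j => j < a.1.length + Λ)).card : ℝ≥0∞) := by simp
    _ ≤ (Λ : ℝ≥0∞) := by
        have : ((Icc a.1.length b).filter (fun j => j < a.1.length + Λ)).card ≤ Λ := by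
          calc _ ≤ (Ico a.1.length (a.1.length + Λ)).card := by
                apply card_le_card
                intro j hj
                rw [mem_filter, mem_Icc] at hj
                rw [mem_Ico]
                omega
            _ = Λ := by simp
        exact_mod_cast this
    _ = _ := (ENNReal.ofReal_natCast Λ).symm

lemma geom_sum_bound (s b : ℕ) (f : ℕ → ℝ) (hf : ∀ j ∈ Icc s b, f j ≤ (6 / 7) ^ (j + 1 - s)) :
    ∑ j ∈ Icc s b, f j ≤ 6 := by
  calc ∑ j ∈ Icc s b, f j ≤ ∑ j ∈ Icc s b, (6 / 7 : ℝ) ^ (j + 1 - s) := sum_le_sum hf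
    _ = ∑ i ∈ range (b + 1 - s), (6 / 7 : ℝ) ^ (i + 1) := by
        have h1 : Icc s b = Ico s (b + 1) := by
          ext i; simp only [mem_Icc, mem_Ico]; omega
        rw [h1, sum_Ico_eq_sum_range]
        apply sum_congr rfl
        intro i _
        congr 1
        omega
    _ = 6 / 7 * ∑ i ∈ range (b + 1 - s), (6 / 7 : ℝ) ^ i := by
        rw [mul_sum]
        apply sum_congr rfl
        intro i _
        rw [pow_succ]
        ring
    _ ≤ 6 / 7 * 7 := by
        apply mul_le_mul_of_nonneg_left _ (by norm_num)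
        rw [geom_sum_eq (by norm_num)]
        have : (0 : ℝ) ≤ (6 / 7) ^ (b + 1 - s) := by positivity
        have h2 : ((6 / 7 : ℝ) ^ (b + 1 - s) - 1) / (6 / 7 - 1) =
            7 - 7 * (6 / 7) ^ (b + 1 - s) := by ring
        rw [h2]
        linarith
    _ = 6 := by norm_num

lemma lintegral_ER (hξ : iIndepFun ξ P) (hξm : ∀ u, Measurable (ξ u))
    (hlaw : ∀ u : Vtx N, a0 ≤ u.1.length → u.1.length ≤ b → P.map (ξ u) = gaussianReal 0 1)
    (Λ k : ℕ) (w : Vtx N) (hk : a0 ≤ k) :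
    ∫⁻ ω, ENNReal.ofReal (ER θc Λ b (fun u => ξ u ω) k w) ∂P ≤
      ENNReal.ofReal (6 * (Λ + 1)) := by
  unfold ER
  have hmeas : ∀ s j, Measurable fun ω =>
      (Real.exp (θc / 2 * psum (fun u => ξ u ω) (θc / 2) w s j)) := by
    intro s j
    unfold psum
    fun_prop
  rw [lintegral_double_sum _ _
    (fun s j ω => Real.exp (θc / 2 * psum (fun u => ξ u ω) (θc / 2) w s j))
    (fun _ _ _ => (Real.exp_pos _).le) hmeas]
  have hterm : ∀ s ∈ Icc k (k + Λ), ∀ j ∈ (Icc s b).filter (fun j => j ≤ w.1.length),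
      ∫⁻ ω, ENNReal.ofReal (Real.exp (θc / 2 * psum (fun u => ξ u ω) (θc / 2) w s j)) ∂P ≤
        ENNReal.ofReal ((6 / 7) ^ (j + 1 - s)) := by
    intro s hs j hj
    have h1 := mem_Icc.1 (mem_filter.1 hj).1
    have h2 := mem_Icc.1 hs
    rw [lintegral_exp_psum hξ hξm hlaw w (θc / 2) (θc / 2) (by omega) h1.1 h1.2
      (mem_filter.1 hj).2]
    apply ENNReal.ofReal_le_ofReal
    have h3 : (θc / 2) ^ 2 / 2 - θc / 2 * (θc / 2) = -(Real.log 2 / 4) := by
      have := θc_sq
      nlinarith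
    rw [h3]
    have h4 : ((j : ℝ) + 1 - s) = ((j + 1 - s : ℕ) : ℝ) := by
      rw [Nat.cast_sub (by omega)]
      push_cast
      ring
    rw [h4, Real.exp_nat_mul]
    exact pow_le_pow_left₀ (Real.exp_pos _).le θc_ratio _
  have hin : ∀ s ∈ Icc k (k + Λ), ∑ j ∈ (Icc s b).filter (fun j => j ≤ w.1.length),
      ∫⁻ ω, ENNReal.ofReal (Real.exp (θc / 2 * psum (fun u => ξ u ω) (θc / 2) w s j)) ∂P ≤
        ENNReal.ofReal 6 := by
    intro s hs
    calc _ ≤ ∑ j ∈ (Icc s b).filter (fun j => j ≤ w.1.length),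
          ENNReal.ofReal ((6 / 7) ^ (j + 1 - s)) := sum_le_sum (hterm s hs)
      _ ≤ ∑ j ∈ Icc s b, ENNReal.ofReal ((6 / 7) ^ (j + 1 - s)) :=
          sum_le_sum_of_subset (filter_subset _ _)
      _ = ENNReal.ofReal (∑ j ∈ Icc s b, (6 / 7) ^ (j + 1 - s)) :=
          (ENNReal.ofReal_sum_of_nonneg fun _ _ => by positivity).symm
      _ ≤ ENNReal.ofReal 6 := ENNReal.ofReal_le_ofReal
          (geom_sum_bound s b _ fun _ _ => le_refl _)
  calc _ ≤ ∑ s ∈ Icc k (k + Λ), ENNReal.ofReal 6 := sum_le_sum hin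
    _ = ENNReal.ofReal (6 * (Λ + 1)) := by
        rw [sum_const, nsmul_eq_mul, Nat.card_Icc, ← ENNReal.ofReal_natCast,
          ← ENNReal.ofReal_mul (by positivity)]
        congr 1
        have : k + Λ + 1 - k = Λ + 1 := by omega
        rw [this]
        push_cast
        ring

lemma lintegral_win (hξ : iIndepFun ξ P) (hξm : ∀ u, Measurable (ξ u))
    (hlaw : ∀ u : Vtx N, a0 ≤ u.1.length → u.1.length ≤ b → P.map (ξ u) = gaussianReal 0 1)
    {h : ℝ} (hh : 0 ≤ h) {T0 : ℕ} (hT : 0 < T0) (z : Vtx N) (k t : ℕ) (hk : a0 ≤ k)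
    (hb : k + (t + 1) * T0 ≤ b + 1) (hz : k + (t + 1) * T0 ≤ z.1.length + 1) :
    ∫⁻ ω, ENNReal.ofReal (win θc h T0 (fun u => ξ u ω) z k t) ∂P ≤
      ENNReal.ofReal (8 * h * (Real.sqrt (2 * Real.pi * T0))⁻¹ * (1 / 2) ^ T0) := by
  have hcard : (Ico (k + t * T0) (k + (t + 1) * T0)).card = T0 := by
    rw [Nat.card_Ico]
    have : (t + 1) * T0 = t * T0 + T0 := by ring
    omega
  have hlaw' := sum_law hξ hξm hlaw z (Ico (k + t * T0) (k + (t + 1) * T0)) (fun i hi => by
    have h1 := mem_Ico.1 hi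
    have h2 : (t + 1) * T0 = t * T0 + T0 := by ring
    constructor
    · have : 0 ≤ t * T0 := Nat.zero_le _
      omega
    · omega)
  rw [hcard] at hlaw'
  have h1 := window_bound T0 hT (4 * h) (by positivity)
  have hmeas : Measurable fun x : ℝ => (Set.Icc (-(4 * h)) (4 * h)).indicator
      (fun y => ENNReal.ofReal (Real.exp (θc * y))) (x - θc * T0) := by
    apply Measurable.comp (g := (Set.Icc (-(4 * h)) (4 * h)).indicator
      (fun y => ENNReal.ofReal (Real.exp (θc * y)))) _ (by fun_prop)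
    exact Measurable.indicator (by fun_prop) measurableSet_Icc
  rw [← hlaw', lintegral_map hmeas (by fun_prop)] at h1
  have h2 : ∀ ω, ENNReal.ofReal (win θc h T0 (fun u => ξ u ω) z k t) =
      (Set.Icc (-(4 * h)) (4 * h)).indicator (fun y => ENNReal.ofReal (Real.exp (θc * y)))
        ((∑ i ∈ Ico (k + t * T0) (k + (t + 1) * T0), ξ (tk z i) ω) - θc * T0) := by
    intro ω
    unfold win
    have h3 : ∑ i ∈ Ico (k + t * T0) (k + (t + 1) * T0), (ξ (tk z i) ω - θc) =
        (∑ i ∈ Ico (k + t * T0) (k + (t + 1) * T0), ξ (tk z i) ω) - θc * T0 := by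
      rw [sum_sub_distrib, sum_const, hcard, nsmul_eq_mul]
      ring
    rw [h3]
    by_cases hx : ((∑ i ∈ Ico (k + t * T0) (k + (t + 1) * T0), ξ (tk z i) ω) - θc * T0) ∈
      Set.Icc (-(4 * h)) (4 * h)
    · rw [Set.indicator_of_mem hx, Set.indicator_of_mem hx]
    · rw [Set.indicator_of_notMem hx, Set.indicator_of_notMem hx, ENNReal.ofReal_zero]
  simp_rw [h2]
  refine h1.trans (le_of_eq ?_)
  congr 1
  ring

lemma measurable_win {m : MeasurableSpace Ω} {h : ℝ} {T0 : ℕ} (z : Vtx N) (k t : ℕ)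
    (hm : ∀ i ∈ Ico (k + t * T0) (k + (t + 1) * T0), Measurable[m] (ξ (tk z i))) :
    Measurable[m] fun ω => win θc h T0 (fun u => ξ u ω) z k t := by
  unfold win
  apply Measurable.comp (g := (Set.Icc (-(4 * h)) (4 * h)).indicator
      (fun y => Real.exp (θc * y)))
  · exact Measurable.indicator (by fun_prop) measurableSet_Icc
  · exact Finset.measurable_fun_sum _ fun i hi => (hm i hi).sub measurable_const

lemma lintegral_prod_win (hξ : iIndepFun ξ P) (hξm : ∀ u, Measurable (ξ u))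
    (hlaw : ∀ u : Vtx N, a0 ≤ u.1.length → u.1.length ≤ b → P.map (ξ u) = gaussianReal 0 1)
    {h : ℝ} (hh : 0 ≤ h) {T0 : ℕ} (hT : 0 < T0) (z : Vtx N) (k : ℕ) (hk : a0 ≤ k) (q : ℕ)
    (hb : k + q * T0 ≤ b + 1) (hz : k + q * T0 ≤ z.1.length + 1) :
    ∫⁻ ω, ∏ t ∈ range q, ENNReal.ofReal (win θc h T0 (fun u => ξ u ω) z k t) ∂P ≤
      ENNReal.ofReal (8 * h * (Real.sqrt (2 * Real.pi * T0))⁻¹ * (1 / 2) ^ T0) ^ q := by
  have : IsProbabilityMeasure P := hξ.isProbabilityMeasure
  induction q with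
  | zero => simp
  | succ q ih =>
    have hq : (q + 1) * T0 = q * T0 + T0 := by ring
    have h1 := ih (by omega) (by omega)
    have h2 := lintegral_win hξ hξm hlaw hh hT z k q hk hb hz
    set S1 : Set (Vtx N) := {u | ∃ i, i < k + q * T0 ∧ u = tk z i} with hS1
    set S2 : Set (Vtx N) := {u | ∃ i, k + q * T0 ≤ i ∧ i < k + (q + 1) * T0 ∧ u = tk z i} with hS2
    have hdisj : Disjoint S1 S2 := by
      rw [Set.disjoint_left]
      rintro u ⟨i, hi, rfl⟩ ⟨j, hj1, hj2, hj3⟩
      have := tk_injOn z (x₁ := i) (x₂ := j) (by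
        show i ≤ z.1.length
        omega) (by
        show j ≤ z.1.length
        omega) hj3
      omega
    have hm1 : Measurable[sD ξ S1] fun ω =>
        ∏ t ∈ range q, ENNReal.ofReal (win θc h T0 (fun u => ξ u ω) z k t) := by
      refine Finset.measurable_fun_prod _ fun t ht => ?_
      refine Measurable.ennreal_ofReal (measurable_win z k t fun i hi => measurable_sD ?_)
      have h3 := mem_Ico.1 hi
      have h4 : (t + 1) * T0 ≤ q * T0 := Nat.mul_le_mul_right _ (mem_range.1 ht)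
      exact ⟨i, by omega, rfl⟩
    have hm2 : Measurable[sD ξ S2] fun ω =>
        ENNReal.ofReal (win θc h T0 (fun u => ξ u ω) z k q) := by
      refine Measurable.ennreal_ofReal (measurable_win z k q fun i hi => measurable_sD ?_)
      have h3 := mem_Ico.1 hi
      exact ⟨i, h3.1, h3.2, rfl⟩
    simp_rw [prod_range_succ]
    rw [lintegral_mul_eq_lintegral_mul_lintegral_of_independent_measurableSpace
      (Mf := sD ξ S1) (Mg := sD ξ S2) (sD_le hξm _) (sD_le hξm _) (indep_sD hξ hξm hdisj) hm1 hm2]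
    rw [pow_succ]
    exact mul_le_mul' h1 h2

lemma lintegral_ES (hξ : iIndepFun ξ P) (hξm : ∀ u, Measurable (ξ u))
    (hlaw : ∀ u : Vtx N, a0 ≤ u.1.length → u.1.length ≤ b → P.map (ξ u) = gaussianReal 0 1)
    {h : ℝ} (hh : 0 ≤ h) {T0 q : ℕ} (hT : 0 < T0) (hq : 0 < q) (a : Vtx N)
    (ha : a0 ≤ a.1.length) :
    ∫⁻ ω, ENNReal.ofReal (ES θc h T0 q b (fun u => ξ u ω) a) ∂P ≤
      ENNReal.ofReal (Real.exp (2 * θc * h) *
        (8 * h * (Real.sqrt (2 * Real.pi * T0))⁻¹) ^ q) := by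
  unfold ES
  split_ifs with hcond
  · have hqT : 1 ≤ q * T0 := Nat.one_le_iff_ne_zero.2 (by positivity)
    have hmw : ∀ z : Vtx N, Measurable fun ω =>
        ∏ t ∈ range q, ENNReal.ofReal (win θc h T0 (fun u => ξ u ω) z a.1.length t) := by
      intro z
      refine Finset.measurable_fun_prod _ fun t _ => ?_
      exact Measurable.ennreal_ofReal (measurable_win z _ t fun i _ => hξm _)
    have h1 : ∀ ω, ENNReal.ofReal (∑ z ∈ desc a (a.1.length + q * T0 - 1),
        Real.exp (2 * θc * h) * ∏ t ∈ range q, win θc h T0 (fun u => ξ u ω) z a.1.length t) =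
        ∑ z ∈ desc a (a.1.length + q * T0 - 1), ENNReal.ofReal (Real.exp (2 * θc * h)) *
          ∏ t ∈ range q, ENNReal.ofReal (win θc h T0 (fun u => ξ u ω) z a.1.length t) := by
      intro ω
      rw [ENNReal.ofReal_sum_of_nonneg (fun z _ => mul_nonneg (Real.exp_pos _).le
        (prod_nonneg fun _ _ => win_nonneg _ _ _ _ _ _ _))]
      apply sum_congr rfl
      intro z _
      rw [ENNReal.ofReal_mul (Real.exp_pos _).le,
        ENNReal.ofReal_prod_of_nonneg (fun _ _ => win_nonneg _ _ _ _ _ _ _)]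
    simp_rw [h1]
    rw [lintegral_finsetSum]
    · have h2 : ∀ z ∈ desc a (a.1.length + q * T0 - 1),
          ∫⁻ ω, ENNReal.ofReal (Real.exp (2 * θc * h)) *
          ∏ t ∈ range q, ENNReal.ofReal (win θc h T0 (fun u => ξ u ω) z a.1.length t) ∂P ≤
          ENNReal.ofReal (Real.exp (2 * θc * h) *
            (8 * h * (Real.sqrt (2 * Real.pi * T0))⁻¹ * (1 / 2) ^ T0) ^ q) := by
        intro z hz
        have hzl := (mem_desc.1 hz).1
        rw [lintegral_const_mul _ (hmw z), ENNReal.ofReal_mul (Real.exp_pos _).le,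
          ENNReal.ofReal_pow (by positivity)]
        apply mul_le_mul_right
        exact lintegral_prod_win hξ hξm hlaw hh hT z a.1.length ha q hcond (by omega)
      calc _ ≤ ∑ z ∈ desc a (a.1.length + q * T0 - 1), ENNReal.ofReal (Real.exp (2 * θc * h) *
            (8 * h * (Real.sqrt (2 * Real.pi * T0))⁻¹ * (1 / 2) ^ T0) ^ q) := sum_le_sum h2
        _ = ((desc a (a.1.length + q * T0 - 1)).card : ℝ≥0∞) *
            ENNReal.ofReal (Real.exp (2 * θc * h) *
            (8 * h * (Real.sqrt (2 * Real.pi * T0))⁻¹ * (1 / 2) ^ T0) ^ q) := by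
            rw [sum_const, nsmul_eq_mul]
        _ ≤ ENNReal.ofReal (2 ^ (q * T0)) * ENNReal.ofReal (Real.exp (2 * θc * h) *
            (8 * h * (Real.sqrt (2 * Real.pi * T0))⁻¹ * (1 / 2) ^ T0) ^ q) := by
            apply mul_le_mul_left
            rw [← ENNReal.ofReal_natCast]
            apply ENNReal.ofReal_le_ofReal
            have h3 := card_desc_le a (j := a.1.length + q * T0 - 1) (by omega)
            have h4 : (2 : ℕ) ^ (a.1.length + q * T0 - 1 - a.1.length) ≤ 2 ^ (q * T0) :=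
              Nat.pow_le_pow_right (by norm_num) (by omega)
            exact_mod_cast h3.trans h4
        _ = ENNReal.ofReal (2 ^ (q * T0) * (Real.exp (2 * θc * h) *
            (8 * h * (Real.sqrt (2 * Real.pi * T0))⁻¹ * (1 / 2) ^ T0) ^ q)) := by
            rw [← ENNReal.ofReal_mul (by positivity)]
        _ = _ := by
            congr 1
            rw [mul_pow _ ((1 / 2 : ℝ) ^ T0) q, ← pow_mul, mul_comm T0 q]
            have h5 : (2 : ℝ) ^ (q * T0) * (1 / 2) ^ (q * T0) = 1 := by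
              rw [← mul_pow]
              norm_num
            calc _ = (2 : ℝ) ^ (q * T0) * (1 / 2) ^ (q * T0) * (Real.exp (2 * θc * h) *
                  (8 * h * (Real.sqrt (2 * Real.pi * T0))⁻¹) ^ q) := by ring
              _ = _ := by rw [h5, one_mul]
    · intro z _
      exact (hmw z).const_mul _
  · simp

end

end Pool.Agent.Lib.MP_f9dad2_pr
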