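import Mathlib
import Pool.Agent.Lib.MP_f9dad2_pr.Expect

/-!
# Expectation of the charge of a query
-/

namespace Pool.Agent.Lib.MP_f9dad2_pr

open MeasureTheory ProbabilityTheory Finset
open scoped ENNReal NNReal

variable {Ω : Type*} {mΩ : MeasurableSpace Ω} {P : Measure Ω} {N : ℕ}

lemma prefix_tk {a z : Vtx N} {t : ℕ} (h : a.1 <+: z.1) (ht : a.1.length ≤ t) :
    a.1 <+: (tk z t).1 := by
  simp only [tk]
  exact List.prefix_take_iff.2 ⟨h, ht⟩

section
variable {ξ : Vtx N → Ω → ℝ} {a0 b : ℕ}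

lemma measurable_psum {m : MeasurableSpace Ω} (c : ℝ) (z : Vtx N) (i j : ℕ)
    (hm : ∀ t ∈ Icc i j, Measurable[m] (ξ (tk z t))) :
    Measurable[m] fun ω => psum (fun u => ξ u ω) c z i j := by
  unfold psum
  exact Finset.measurable_fun_sum _ fun t ht => (hm t ht).sub measurable_const

lemma measurable_Wt {m : MeasurableSpace Ω} {h : ℝ} {T0 q : ℕ} {a w : Vtx N}
    (hm : ∀ u : Vtx N, a.1 <+: u.1 → Measurable[m] (ξ u)) (haw : a.1 <+: w.1) :
    Measurable[m] fun ω => Wt θc h T0 q b (fun u => ξ u ω) a w := by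
  unfold Wt
  refine Measurable.add (Measurable.add ?_ ?_) ?_
  · refine Measurable.mul measurable_const ?_
    unfold EM
    refine Finset.measurable_fun_sum _ fun j hj => Finset.measurable_fun_sum _ fun z hz => ?_
    refine Real.measurable_exp.comp (Measurable.mul measurable_const ?_)
    refine measurable_psum _ _ _ _ fun t ht => hm _ ?_
    exact prefix_tk (mem_desc.1 hz).2 (mem_Icc.1 ht).1
  · refine Measurable.mul measurable_const ?_
    unfold ER
    refine Finset.measurable_fun_sum _ fun s hs => Finset.measurable_fun_sum _ fun j hj => ?_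
    refine Real.measurable_exp.comp (Measurable.mul measurable_const ?_)
    refine measurable_psum _ _ _ _ fun t ht => hm _ ?_
    exact prefix_tk haw ((mem_Icc.1 hs).1.trans (mem_Icc.1 ht).1)
  · unfold ES
    split_ifs
    · refine Finset.measurable_fun_sum _ fun z hz => ?_
      refine Measurable.mul measurable_const ?_
      refine Finset.measurable_fun_prod _ fun t _ => ?_
      refine measurable_win z _ t fun i hi => hm _ ?_
      exact prefix_tk (mem_desc.1 hz).2 (by have := (mem_Ico.1 hi).1; omega)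
    · exact measurable_const

lemma lintegral_three (f g k : Ω → ℝ≥0∞) (hf : Measurable f) (hg : Measurable g)
    (α β : ℝ≥0∞) : ∫⁻ ω, (α * f ω + β * g ω + k ω) ∂P =
      α * ∫⁻ ω, f ω ∂P + β * ∫⁻ ω, g ω ∂P + ∫⁻ ω, k ω ∂P := by
  have h1 : Measurable fun ω => α * f ω + β * g ω := (hf.const_mul _).add (hg.const_mul _)
  rw [lintegral_add_left h1, lintegral_add_left (hf.const_mul _), lintegral_const_mul _ hf,
    lintegral_const_mul _ hg]

/-- The bound for the expectation of the charge. -/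
noncomputable def yh (h : ℝ) (T0 q : ℕ) : ℝ :=
  Real.exp (-(θc * h / 2)) * (q * T0 : ℕ) + Real.exp (-(θc * h / 4)) * (6 * ((q * T0 : ℕ) + 1)) +
    Real.exp (2 * θc * h) * (8 * h * (Real.sqrt (2 * Real.pi * T0))⁻¹) ^ q

lemma yh_nonneg {h : ℝ} (hh : 0 ≤ h) (T0 q : ℕ) : 0 ≤ yh h T0 q := by
  unfold yh
  positivity

lemma lintegral_Wt (hξ : iIndepFun ξ P) (hξm : ∀ u, Measurable (ξ u))
    (hlaw : ∀ u : Vtx N, a0 ≤ u.1.length → u.1.length ≤ b → P.map (ξ u) = gaussianReal 0 1)
    {h : ℝ} (hh : 0 ≤ h) {T0 q : ℕ} (hT : 0 < T0) (hq : 0 < q) (a w : Vtx N)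
    (ha : a0 ≤ a.1.length) :
    ∫⁻ ω, ENNReal.ofReal (Wt θc h T0 q b (fun u => ξ u ω) a w) ∂P ≤
      ENNReal.ofReal (yh h T0 q) := by
  have hm1 : Measurable fun ω => EM θc (q * T0) b (fun u => ξ u ω) a := by
    unfold EM
    refine Finset.measurable_fun_sum _ fun j hj => Finset.measurable_fun_sum _ fun z hz => ?_
    exact Real.measurable_exp.comp (Measurable.mul measurable_const
      (measurable_psum _ _ _ _ fun t _ => hξm _))
  have hm2 : Measurable fun ω => ER θc (q * T0) b (fun u => ξ u ω) a.1.length w := by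
    unfold ER
    refine Finset.measurable_fun_sum _ fun j hj => Finset.measurable_fun_sum _ fun z hz => ?_
    exact Real.measurable_exp.comp (Measurable.mul measurable_const
      (measurable_psum _ _ _ _ fun t _ => hξm _))
  have h1 := lintegral_EM hξ hξm hlaw (q * T0) a ha
  have h2 := lintegral_ER hξ hξm hlaw (q * T0) a.1.length w ha
  have h3 := lintegral_ES hξ hξm hlaw hh hT hq a ha
  have hpt : ∀ ω, ENNReal.ofReal (Wt θc h T0 q b (fun u => ξ u ω) a w) =
      ENNReal.ofReal (Real.exp (-(θc * h / 2))) *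
        ENNReal.ofReal (EM θc (q * T0) b (fun u => ξ u ω) a) +
      ENNReal.ofReal (Real.exp (-(θc * h / 4))) *
        ENNReal.ofReal (ER θc (q * T0) b (fun u => ξ u ω) a.1.length w) +
      ENNReal.ofReal (ES θc h T0 q b (fun u => ξ u ω) a) := by
    intro ω
    have e1 := EM_nonneg θc (q * T0) b (fun u => ξ u ω) a
    have e2 := ER_nonneg θc (q * T0) b (fun u => ξ u ω) a.1.length w
    have e3 := ES_nonneg θc h T0 q b (fun u => ξ u ω) a
    unfold Wt
    rw [ENNReal.ofReal_add (by positivity) e3, ENNReal.ofReal_add (by positivity) (by positivity),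
      ENNReal.ofReal_mul (Real.exp_pos _).le, ENNReal.ofReal_mul (Real.exp_pos _).le]
  simp_rw [hpt]
  rw [lintegral_three _ _ _ hm1.ennreal_ofReal hm2.ennreal_ofReal]
  unfold yh
  rw [ENNReal.ofReal_add (by positivity) (by positivity), ENNReal.ofReal_add (by positivity)
    (by positivity), ENNReal.ofReal_mul (Real.exp_pos _).le,
    ENNReal.ofReal_mul (Real.exp_pos _).le]
  exact add_le_add (add_le_add (mul_le_mul_right h1 _) (mul_le_mul_right h2 _)) h3

end

section
variable {D X : Vtx N → Ω → ℝ} {ξ : Vtx N → Ω → ℝ} {a0 b : ℕ} {U : ℕ → Ω → ℝ}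
  {v : ℕ → Ω → Vtx N}

lemma Wq_congr (θ h : ℝ) (T0 q a0 b : ℕ) (x : Vtx N → ℝ) {H H' : ℕ → Vtx N} {r : ℕ}
    (hHH : ∀ k ≤ r, H k = H' k) : Wq θ h T0 q a0 b x H r = Wq θ h T0 q a0 b x H' r := by
  classical
  have h1 : Fresh a0 b H r = Fresh a0 b H' r := by
    ext j
    unfold Fresh
    rw [hHH r (le_refl r)]
    constructor
    · rintro ⟨h1, h2, h3, h4⟩
      exact ⟨h1, h2, h3, fun k hk => by rw [← hHH k hk.le]; exact h4 k hk⟩
    · rintro ⟨h1, h2, h3, h4⟩
      exact ⟨h1, h2, h3, fun k hk => by rw [hHH k hk.le]; exact h4 k hk⟩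
  unfold Wq
  simp only [h1, hHH r (le_refl r)]

theorem lintegral_Wq [IsProbabilityMeasure P] (hD : iIndepFun D P) (hDm : ∀ u, Measurable (D u))
    (hXD : ∀ u ω, X u ω = ∑ i ∈ Finset.range (u.1.length + 1), D (tk u i) ω)
    (hUm : ∀ k, Measurable (U k))
    (hUD : Indep (sU U) (⨆ u, MeasurableSpace.comap (D u) (borel ℝ)) P)
    (hv : ∀ n, Measurable[info X U v n, ⊤] (v n))
    {c : Vtx N → ℝ} (hξD : ∀ u ω, ξ u ω = c u * D u ω)
    (hlaw : ∀ u : Vtx N, a0 ≤ u.1.length → u.1.length ≤ b → P.map (ξ u) = gaussianReal 0 1)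
    {h : ℝ} (hh : 0 ≤ h) {T0 q : ℕ} (hT : 0 < T0) (hq : 0 < q) (r : ℕ) :
    ∫⁻ ω, ENNReal.ofReal (Wq θc h T0 q a0 b (fun u => ξ u ω) (fun k => v k ω) r) ∂P ≤
      ENNReal.ofReal (yh h T0 q) := by
  classical
  have hξeq : ξ = fun u => (fun x => c u * x) ∘ D u := by
    ext u ω
    exact hξD u ω
  have hξi : iIndepFun ξ P := by
    rw [hξeq]
    exact hD.comp (fun u x => c u * x) (fun u => measurable_const.mul measurable_id)
  have hξm : ∀ u, Measurable (ξ u) := by
    intro u
    rw [hξeq]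
    exact (measurable_const.mul measurable_id).comp (hDm u)
  have hξS : ∀ (S : Set (Vtx N)), ∀ u ∈ S, Measurable[sD D S] (ξ u) := by
    intro S u hu
    rw [hξeq]
    exact Measurable.comp (measurable_const.mul measurable_id) (measurable_sD hu)
  refine adapt_bound hD hDm hXD hUm hUD hv r
    (fun H => {u | ∃ hex : ∃ j, Fresh a0 b H r j, (tk (H r) (Nat.find hex)).1 <+: u.1})
    (fun H ω => ENNReal.ofReal (Wq θc h T0 q a0 b (fun u => ξ u ω) H r)) _ ?_ ?_ ?_ ?_
  · intro H H' hHH
    ext ω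
    rw [Wq_congr θc h T0 q a0 b _ hHH]
  · intro H
    by_cases hex : ∃ j, Fresh a0 b H r j
    · have h1 : (fun ω => ENNReal.ofReal (Wq θc h T0 q a0 b (fun u => ξ u ω) H r)) =
          fun ω => ENNReal.ofReal (Wt θc h T0 q b (fun u => ξ u ω)
            (tk (H r) (Nat.find hex)) (H r)) := by
        ext ω
        unfold Wq
        rw [dif_pos hex]
      rw [h1]
      refine Measurable.ennreal_ofReal (measurable_Wt (fun u hu => hξS _ u ⟨hex, hu⟩) ?_)
      exact tk_prefix_self _ _
    · have h1 : (fun ω => ENNReal.ofReal (Wq θc h T0 q a0 b (fun u => ξ u ω) H r)) =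
          fun ω => 0 := by
        ext ω
        unfold Wq
        rw [dif_neg hex, ENNReal.ofReal_zero]
      rw [h1]
      exact measurable_const
  · rintro H k hk u ⟨hex, hu⟩ hcon
    obtain ⟨_, _, _, h4⟩ := Nat.find_spec hex
    exact h4 k hk (hu.trans hcon)
  · intro H
    by_cases hex : ∃ j, Fresh a0 b H r j
    · have h1 : ∀ ω, Wq θc h T0 q a0 b (fun u => ξ u ω) H r =
          Wt θc h T0 q b (fun u => ξ u ω) (tk (H r) (Nat.find hex)) (H r) := by
        intro ω
        unfold Wq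
        rw [dif_pos hex]
      simp_rw [h1]
      obtain ⟨g1, _, g3, _⟩ := Nat.find_spec hex
      apply lintegral_Wt hξi hξm hlaw hh hT hq
      rw [tk_length g3]
      exact g1
    · have h1 : ∀ ω, Wq θc h T0 q a0 b (fun u => ξ u ω) H r = 0 := by
        intro ω
        unfold Wq
        rw [dif_neg hex]
      simp_rw [h1]
      simp

end

end Pool.Agent.Lib.MP_f9dad2_pr
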