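import Mathlib
import Pool.Agent.Lib.MP_f9dad2_pr.Charge

/-!
# First order bound on a macroscopic block of levels
-/

namespace Pool.Agent.Lib.MP_f9dad2_pr

open MeasureTheory ProbabilityTheory Finset
open scoped ENNReal NNReal

variable {Ω : Type*} {mΩ : MeasurableSpace Ω} {P : Measure Ω} {N : ℕ}

/-- The level `a0` ancestor of query `r` is fresh at time `r`. -/
def FreshAt (a0 : ℕ) (H : ℕ → Vtx N) (r : ℕ) : Prop :=
  a0 ≤ (H r).1.length ∧ ∀ k < r, ¬ ((tk (H r) a0).1 <+: (H k).1)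

/-- Exponential sum of the climbs over the levels `[a0, t]` below `a`. -/
noncomputable def BV (lam θ y : ℝ) (cc : ℕ → ℝ≥0) (a0 t : ℕ) (x : Vtx N → ℝ) (a : Vtx N) : ℝ :=
  ∑ z ∈ desc a t, Real.exp (lam * (∑ i ∈ Icc a0 t, (x (tk z i) - θ * cc i) - y))

open Classical in
/-- The charge of query `r` for the block `[a0, t]`. -/
noncomputable def Bq (lam θ y : ℝ) (cc : ℕ → ℝ≥0) (a0 t : ℕ) (x : Vtx N → ℝ) (H : ℕ → Vtx N)
    (r : ℕ) : ℝ :=
  if FreshAt a0 H r then BV lam θ y cc a0 t x (tk (H r) a0) else 0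

lemma BV_nonneg (lam θ y : ℝ) (cc : ℕ → ℝ≥0) (a0 t : ℕ) (x : Vtx N → ℝ) (a : Vtx N) :
    0 ≤ BV lam θ y cc a0 t x a := sum_nonneg fun _ _ => (Real.exp_pos _).le

lemma Bq_nonneg (lam θ y : ℝ) (cc : ℕ → ℝ≥0) (a0 t : ℕ) (x : Vtx N → ℝ) (H : ℕ → Vtx N)
    (r : ℕ) : 0 ≤ Bq lam θ y cc a0 t x H r := by
  unfold Bq
  split_ifs
  · exact BV_nonneg _ _ _ _ _ _ _ _
  · exact le_refl _

lemma block_path {lam θ y : ℝ} (hlam : 0 < lam) {cc : ℕ → ℝ≥0} {a0 t : ℕ} {x : Vtx N → ℝ}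
    {H : ℕ → Vtx N} {R : ℕ} (hat : a0 ≤ t) (ht : t ≤ (H R).1.length)
    (hV : ∀ r ≤ R, Bq lam θ y cc a0 t x H r < 1) :
    ∑ i ∈ Icc a0 t, (x (tk (H R) i) - θ * cc i) < y := by
  classical
  have hal : a0 ≤ (H R).1.length := hat.trans ht
  have hspec := disc_spec H R a0
  have htk : tk (H (disc H R a0)) a0 = tk (H R) a0 := tk_eq_of_prefix hal hspec (le_refl _)
  have hfr : FreshAt a0 H (disc H R a0) := by
    refine ⟨le_length_of_prefix hal hspec, ?_⟩
    intro k hk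
    rw [htk]
    exact disc_min H hk
  have h1 := hV _ (disc_le H R a0)
  unfold Bq at h1
  rw [if_pos hfr, htk] at h1
  unfold BV at h1
  have h2 : tk (H R) t ∈ desc (tk (H R) a0) t :=
    mem_desc.2 ⟨tk_length ht, tk_prefix _ hat⟩
  have h3 := single_le_sum (f := fun z => Real.exp (lam *
    (∑ i ∈ Icc a0 t, (x (tk z i) - θ * cc i) - y))) (fun _ _ => (Real.exp_pos _).le) h2
  have h4 : Real.exp (lam * (∑ i ∈ Icc a0 t, (x (tk (tk (H R) t) i) - θ * cc i) - y)) < 1 :=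
    lt_of_le_of_lt h3 h1
  rw [Real.exp_lt_one_iff] at h4
  have h5 : ∑ i ∈ Icc a0 t, (x (tk (tk (H R) t) i) - θ * cc i) - y < 0 := by
    by_contra h
    push Not at h
    have := mul_nonneg hlam.le h
    linarith
  have h6 : ∑ i ∈ Icc a0 t, (x (tk (tk (H R) t) i) - θ * cc i) =
      ∑ i ∈ Icc a0 t, (x (tk (H R) i) - θ * cc i) := by
    apply sum_congr rfl
    intro i hi
    rw [tk_tk _ (mem_Icc.1 hi).2]
  rw [h6] at h5
  linarith

section
variable {e : Vtx N → Ω → ℝ} {a0 t : ℕ} {cc : ℕ → ℝ≥0}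

lemma lintegral_BV (he : iIndepFun e P) (hem : ∀ u, Measurable (e u))
    (hlaw : ∀ u : Vtx N, a0 ≤ u.1.length → u.1.length ≤ t →
      P.map (e u) = gaussianReal 0 (cc u.1.length ^ 2))
    {cbar : ℝ} (hc : 0 < cbar) (hcc : ∀ i ∈ Icc a0 t, (cc i : ℝ) ≤ cbar) (δ : ℝ)
    (hat : a0 ≤ t) (a : Vtx N) (ha : a.1.length = a0) :
    ∫⁻ ω, ENNReal.ofReal (BV (θc / cbar) θc (θc / 2 * ∑ i ∈ Icc a0 t, (cbar - cc i) + δ) cc a0 t
      (fun u => e u ω) a) ∂P ≤ ENNReal.ofReal (Real.exp (-(θc * δ / cbar))) := by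
  classical
  set y := θc / 2 * ∑ i ∈ Icc a0 t, (cbar - (cc i : ℝ)) + δ with hy
  unfold BV
  have hterm : ∀ z ∈ desc a t, ∫⁻ ω, ENNReal.ofReal (Real.exp (θc / cbar *
      (∑ i ∈ Icc a0 t, (e (tk z i) ω - θc * cc i) - y))) ∂P =
      ENNReal.ofReal (Real.exp ((∑ i ∈ Icc a0 t, (cc i : ℝ) ^ 2) * (θc / cbar) ^ 2 / 2 -
        θc / cbar * (θc * ∑ i ∈ Icc a0 t, (cc i : ℝ) + y))) := by
    intro z hz
    have hzl := (mem_desc.1 hz).1
    have hinj : Function.Injective (fun i : Icc a0 t => tk z i) := by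
      intro i j hij
      have hi := mem_Icc.1 i.2
      have hj := mem_Icc.1 j.2
      refine Subtype.ext (tk_injOn z ?_ ?_ hij)
      · show i.1 ≤ z.1.length
        omega
      · show j.1 ≤ z.1.length
        omega
    have h1 : iIndepFun (fun i : Icc a0 t => e (tk z i)) P := he.precomp hinj
    have h2 := lintegral_exp_sum (v := fun i : Icc a0 t => cc i ^ 2) h1 (fun i => hem _)
      Finset.univ (fun i _ => by
        have hi := mem_Icc.1 i.2
        have h3 := hlaw (tk z i) (by rw [tk_length (by omega)]; exact hi.1)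
          (by rw [tk_length (by omega)]; exact hi.2)
        rw [tk_length (by omega)] at h3
        exact h3) (θc / cbar) (θc / cbar * (θc * ∑ i ∈ Icc a0 t, (cc i : ℝ) + y))
    have h3 : ∀ ω, θc / cbar * (∑ i ∈ Icc a0 t, (e (tk z i) ω - θc * cc i) - y) =
        θc / cbar * (∑ i : Icc a0 t, e (tk z i) ω) -
          θc / cbar * (θc * ∑ i ∈ Icc a0 t, (cc i : ℝ) + y) := by
      intro ω
      rw [sum_sub_distrib, ← mul_sum, ← Finset.sum_coe_sort (Icc a0 t) (fun i => e (tk z i) ω)]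
      ring
    simp_rw [h3]
    rw [h2]
    congr 4
    rw [← Finset.sum_coe_sort (Icc a0 t) (fun i => (cc i : ℝ) ^ 2)]
    simp
  have hpt : ∀ ω, ENNReal.ofReal (∑ z ∈ desc a t, Real.exp (θc / cbar *
      (∑ i ∈ Icc a0 t, (e (tk z i) ω - θc * cc i) - y))) =
      ∑ z ∈ desc a t, ENNReal.ofReal (Real.exp (θc / cbar *
      (∑ i ∈ Icc a0 t, (e (tk z i) ω - θc * cc i) - y))) := by
    intro ω
    rw [ENNReal.ofReal_sum_of_nonneg (fun _ _ => (Real.exp_pos _).le)]
  simp_rw [hpt]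
  rw [lintegral_finsetSum _ (fun z _ => by fun_prop), sum_congr rfl hterm, sum_const,
    nsmul_eq_mul]
  have hcard : ((desc a t).card : ℝ≥0∞) ≤ ENNReal.ofReal (2 ^ (t - a0)) := by
    rw [← ENNReal.ofReal_natCast]
    apply ENNReal.ofReal_le_ofReal
    have := card_desc_le a (j := t) (by omega)
    rw [ha] at this
    exact_mod_cast this
  refine (mul_le_mul_left hcard _).trans ?_
  rw [← ENNReal.ofReal_mul (by positivity)]
  apply ENNReal.ofReal_le_ofReal
  have h2 : (2 : ℝ) ^ (t - a0) ≤ Real.exp (∑ i ∈ Icc a0 t, θc ^ 2 / 2) := by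
    rw [sum_const, nsmul_eq_mul, Nat.card_Icc, Real.exp_nat_mul, θc_sq]
    have h3 : 2 * Real.log 2 / 2 = Real.log 2 := by ring
    rw [h3, Real.exp_log (by norm_num)]
    exact pow_le_pow_right₀ (by norm_num) (by omega)
  calc (2 : ℝ) ^ (t - a0) * Real.exp ((∑ i ∈ Icc a0 t, (cc i : ℝ) ^ 2) * (θc / cbar) ^ 2 / 2 -
        θc / cbar * (θc * ∑ i ∈ Icc a0 t, (cc i : ℝ) + y))
      ≤ Real.exp (∑ i ∈ Icc a0 t, θc ^ 2 / 2) * Real.exp ((∑ i ∈ Icc a0 t, (cc i : ℝ) ^ 2) *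
        (θc / cbar) ^ 2 / 2 - θc / cbar * (θc * ∑ i ∈ Icc a0 t, (cc i : ℝ) + y)) :=
        mul_le_mul_of_nonneg_right h2 (Real.exp_pos _).le
    _ = Real.exp (∑ i ∈ Icc a0 t, θc ^ 2 / 2 + ((∑ i ∈ Icc a0 t, (cc i : ℝ) ^ 2) *
        (θc / cbar) ^ 2 / 2 - θc / cbar * (θc * ∑ i ∈ Icc a0 t, (cc i : ℝ) + y))) :=
        (Real.exp_add _ _).symm
    _ ≤ Real.exp (-(θc * δ / cbar)) := by
        apply Real.exp_le_exp.2
        have h4 : ∑ i ∈ Icc a0 t, (θc ^ 2 / 2 + (cc i : ℝ) ^ 2 * (θc / cbar) ^ 2 / 2 -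
            θc / cbar * (θc * (cc i : ℝ)) - θc / cbar * (θc / 2 * (cbar - cc i))) ≤ 0 := by
          apply sum_nonpos
          intro i hi
          have h5 := hcc i hi
          have h6 : (0 : ℝ) ≤ cc i := (cc i).2
          have h7 : θc ^ 2 / 2 + (cc i : ℝ) ^ 2 * (θc / cbar) ^ 2 / 2 -
              θc / cbar * (θc * (cc i : ℝ)) - θc / cbar * (θc / 2 * (cbar - cc i)) =
              -(θc ^ 2 / (2 * cbar ^ 2)) * (cc i * (cbar - cc i)) := by
            field_simp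
            ring
          rw [h7]
          have h8 : 0 ≤ (θc ^ 2 / (2 * cbar ^ 2)) * (cc i * (cbar - cc i)) := by
            have : 0 ≤ cbar - cc i := by linarith
            positivity
          linarith
        have h9 : ∑ i ∈ Icc a0 t, (θc ^ 2 / 2 + (cc i : ℝ) ^ 2 * (θc / cbar) ^ 2 / 2 -
            θc / cbar * (θc * (cc i : ℝ)) - θc / cbar * (θc / 2 * (cbar - cc i))) =
            ∑ i ∈ Icc a0 t, θc ^ 2 / 2 + ((∑ i ∈ Icc a0 t, (cc i : ℝ) ^ 2) *
            (θc / cbar) ^ 2 / 2 - θc / cbar * (θc * ∑ i ∈ Icc a0 t, (cc i : ℝ))) -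
            θc / cbar * (θc / 2 * ∑ i ∈ Icc a0 t, (cbar - (cc i : ℝ))) := by
          simp only [mul_sum, sum_mul, sum_div, ← sum_add_distrib, ← sum_sub_distrib]
          apply sum_congr rfl
          intro i _
          ring
        rw [h9] at h4
        have h10 : θc / cbar * y = θc / cbar * (θc / 2 * ∑ i ∈ Icc a0 t, (cbar - (cc i : ℝ))) +
            θc * δ / cbar := by
          rw [hy]
          ring
        have h11 : θc / cbar * (θc * ∑ i ∈ Icc a0 t, (cc i : ℝ) + y) =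
            θc / cbar * (θc * ∑ i ∈ Icc a0 t, (cc i : ℝ)) + θc / cbar * y := by ring
        rw [h11, h10]
        linarith

end

section
variable {D X : Vtx N → Ω → ℝ} {e : Vtx N → Ω → ℝ} {a0 t : ℕ} {U : ℕ → Ω → ℝ}
  {v : ℕ → Ω → Vtx N} {cc : ℕ → ℝ≥0}

theorem lintegral_Bq [IsProbabilityMeasure P] (hD : iIndepFun D P) (hDm : ∀ u, Measurable (D u))
    (hXD : ∀ u ω, X u ω = ∑ i ∈ Finset.range (u.1.length + 1), D (tk u i) ω)
    (hUm : ∀ k, Measurable (U k))
    (hUD : Indep (sU U) (⨆ u, MeasurableSpace.comap (D u) (borel ℝ)) P)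
    (hv : ∀ n, Measurable[info X U v n, ⊤] (v n))
    {c : Vtx N → ℝ} (heD : ∀ u ω, e u ω = c u * D u ω)
    (hlaw : ∀ u : Vtx N, a0 ≤ u.1.length → u.1.length ≤ t →
      P.map (e u) = gaussianReal 0 (cc u.1.length ^ 2))
    {cbar : ℝ} (hc : 0 < cbar) (hcc : ∀ i ∈ Icc a0 t, (cc i : ℝ) ≤ cbar) (δ : ℝ)
    (hat : a0 ≤ t) (r : ℕ) :
    ∫⁻ ω, ENNReal.ofReal (Bq (θc / cbar) θc (θc / 2 * ∑ i ∈ Icc a0 t, (cbar - cc i) + δ) cc a0 t
      (fun u => e u ω) (fun k => v k ω) r) ∂P ≤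
      ENNReal.ofReal (Real.exp (-(θc * δ / cbar))) := by
  classical
  have heeq : e = fun u => (fun x => c u * x) ∘ D u := by
    ext u ω
    exact heD u ω
  have hei : iIndepFun e P := by
    rw [heeq]
    exact hD.comp (fun u x => c u * x) (fun u => measurable_const.mul measurable_id)
  have hem : ∀ u, Measurable (e u) := by
    intro u
    rw [heeq]
    exact (measurable_const.mul measurable_id).comp (hDm u)
  have heS : ∀ (S : Set (Vtx N)), ∀ u ∈ S, Measurable[sD D S] (e u) := by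
    intro S u hu
    rw [heeq]
    exact Measurable.comp (measurable_const.mul measurable_id) (measurable_sD hu)
  refine adapt_bound hD hDm hXD hUm hUD hv r
    (fun H => {u | FreshAt a0 H r ∧ (tk (H r) a0).1 <+: u.1})
    (fun H ω => ENNReal.ofReal (Bq (θc / cbar) θc
      (θc / 2 * ∑ i ∈ Icc a0 t, (cbar - cc i) + δ) cc a0 t (fun u => e u ω) H r)) _ ?_ ?_ ?_ ?_
  · intro H H' hHH
    have h1 : FreshAt a0 H r = FreshAt a0 H' r := by
      unfold FreshAt
      rw [hHH r (le_refl r)]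
      apply propext
      constructor
      · rintro ⟨h3, h4⟩
        exact ⟨h3, fun k hk => by rw [← hHH k hk.le]; exact h4 k hk⟩
      · rintro ⟨h3, h4⟩
        exact ⟨h3, fun k hk => by rw [hHH k hk.le]; exact h4 k hk⟩
    ext ω
    unfold Bq
    simp only [h1, hHH r (le_refl r)]
  · intro H
    by_cases hF : FreshAt a0 H r
    · have h1 : (fun ω => ENNReal.ofReal (Bq (θc / cbar) θc
          (θc / 2 * ∑ i ∈ Icc a0 t, (cbar - cc i) + δ) cc a0 t (fun u => e u ω) H r)) =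
          fun ω => ENNReal.ofReal (BV (θc / cbar) θc
          (θc / 2 * ∑ i ∈ Icc a0 t, (cbar - cc i) + δ) cc a0 t (fun u => e u ω)
          (tk (H r) a0)) := by
        ext ω
        unfold Bq
        rw [if_pos hF]
      rw [h1]
      refine Measurable.ennreal_ofReal ?_
      unfold BV
      refine Finset.measurable_fun_sum _ fun z hz => ?_
      refine Real.measurable_exp.comp (Measurable.mul measurable_const ?_)
      refine Measurable.sub (Finset.measurable_fun_sum _ fun i hi => ?_) measurable_const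
      refine Measurable.sub (heS _ _ ⟨hF, ?_⟩) measurable_const
      exact prefix_tk (mem_desc.1 hz).2 (by rw [tk_length hF.1]; exact (mem_Icc.1 hi).1)
    · have h1 : (fun ω => ENNReal.ofReal (Bq (θc / cbar) θc
          (θc / 2 * ∑ i ∈ Icc a0 t, (cbar - cc i) + δ) cc a0 t (fun u => e u ω) H r)) =
          fun ω => 0 := by
        ext ω
        unfold Bq
        rw [if_neg hF, ENNReal.ofReal_zero]
      rw [h1]
      exact measurable_const
  · rintro H k hk u ⟨hF, hu⟩ hcon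
    exact hF.2 k hk (hu.trans hcon)
  · intro H
    by_cases hF : FreshAt a0 H r
    · have h1 : ∀ ω, Bq (θc / cbar) θc
          (θc / 2 * ∑ i ∈ Icc a0 t, (cbar - cc i) + δ) cc a0 t (fun u => e u ω) H r =
          BV (θc / cbar) θc
          (θc / 2 * ∑ i ∈ Icc a0 t, (cbar - cc i) + δ) cc a0 t (fun u => e u ω)
          (tk (H r) a0) := by
        intro ω
        unfold Bq
        rw [if_pos hF]
      simp_rw [h1]
      exact lintegral_BV hei hem hlaw hc hcc δ hat _ (tk_length hF.1)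
    · have h1 : ∀ ω, Bq (θc / cbar) θc
          (θc / 2 * ∑ i ∈ Icc a0 t, (cbar - cc i) + δ) cc a0 t (fun u => e u ω) H r = 0 := by
        intro ω
        unfold Bq
        rw [if_neg hF]
      simp_rw [h1]
      simp

end

end Pool.Agent.Lib.MP_f9dad2_pr
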