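import Mathlib
import Pool.Agent.Lib.MP_f9dad2_pr.Defs
import Pool.Agent.Lib.MP_f9dad2_pr.Block

/-!
# The increments of the branching random walk
-/

namespace Pool.Agent.Lib.MP_f9dad2_pr

open MeasureTheory ProbabilityTheory Finset
open scoped ENNReal NNReal

lemma meet_nil_left (l : List Bool) : meet [] l = 0 := by
  cases l <;> rfl

lemma meet_nil_right (l : List Bool) : meet l [] = 0 := by
  cases l <;> rfl

lemma meet_comm (l l' : List Bool) : meet l l' = meet l' l := by
  induction l generalizing l' with
  | nil => rw [meet_nil_left, meet_nil_right]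
  | cons a l ih =>
    cases l' with
    | nil => rw [meet_nil_left, meet_nil_right]
    | cons b l' =>
      simp only [meet, ih l', eq_comm]

lemma meet_self (l : List Bool) : meet l l = l.length := by
  induction l with
  | nil => rfl
  | cons a l ih => simp [meet, ih]

lemma meet_le_left (l l' : List Bool) : meet l l' ≤ l.length := by
  induction l generalizing l' with
  | nil => rw [meet_nil_left]; exact Nat.zero_le _
  | cons a l ih =>
    cases l' with
    | nil => rw [meet_nil_right]; exact Nat.zero_le _
    | cons b l' =>
      simp only [meet, List.length_cons]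
      split_ifs
      · exact Nat.succ_le_succ (ih l')
      · exact Nat.zero_le _

lemma meet_le_right (l l' : List Bool) : meet l l' ≤ l'.length := by
  rw [meet_comm]
  exact meet_le_left l' l

lemma meet_take (l l' : List Bool) (i : ℕ) : meet (l.take i) l' = min i (meet l l') := by
  induction l generalizing l' i with
  | nil => rw [List.take_nil, meet_nil_left]; simp
  | cons a l ih =>
    cases i with
    | zero => rw [List.take_zero, meet_nil_left]; simp
    | succ i =>
      cases l' with
      | nil => rw [meet_nil_right, meet_nil_right]; simp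
      | cons b l' =>
        simp only [List.take_succ_cons, meet, ih]
        split_ifs
        · omega
        · simp

lemma eq_of_meet {l l' : List Bool} (h1 : meet l l' = l.length) (h2 : meet l l' = l'.length) :
    l = l' := by
  induction l generalizing l' with
  | nil =>
    rw [meet_nil_left] at h2
    exact (List.length_eq_zero_iff.1 h2.symm).symm
  | cons a l ih =>
    cases l' with
    | nil =>
      rw [meet_nil_right] at h1
      simp at h1
    | cons b l' =>
      simp only [meet, List.length_cons] at h1 h2
      split_ifs at h1 h2 with hab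
      rw [hab, ih (l' := l') (by omega) (by omega)]

variable {Ω : Type*} {mΩ : MeasurableSpace Ω} {P : Measure Ω} {N : ℕ}

/-- The value at the parent (zero for the root). -/
noncomputable def parX (X : Vtx N → Ω → ℝ) (u : Vtx N) (ω : Ω) : ℝ :=
  if u.1.length = 0 then 0 else X (tk u (u.1.length - 1)) ω

/-- The increments of the branching random walk. -/
noncomputable def incr (X : Vtx N → Ω → ℝ) (u : Vtx N) (ω : Ω) : ℝ := X u ω - parX X u ω

lemma incr_sum (X : Vtx N → Ω → ℝ) (u : Vtx N) (ω : Ω) :
    X u ω = ∑ i ∈ Finset.range (u.1.length + 1), incr X (tk u i) ω := by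
  have h : ∀ n ≤ u.1.length, X (tk u n) ω = ∑ i ∈ Finset.range (n + 1), incr X (tk u i) ω := by
    intro n
    induction n with
    | zero =>
      intro _
      rw [zero_add, sum_range_one]
      unfold incr parX
      rw [if_pos (tk_length (Nat.zero_le _)), sub_zero]
    | succ n ih =>
      intro hn
      rw [sum_range_succ, ← ih (by omega)]
      unfold incr parX
      rw [tk_length hn, if_neg (by omega), Nat.add_sub_cancel, tk_tk u (by omega)]
      ring
  have h1 := h u.1.length (le_refl _)
  have h2 : tk u u.1.length = u := by
    apply Subtype.ext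
    simp [tk]
  rwa [h2] at h1

lemma measurable_incr_of {m : MeasurableSpace Ω} {X : Vtx N → Ω → ℝ}
    (hX : ∀ u, Measurable[m] (X u)) (u : Vtx N) : Measurable[m] (incr X u) := by
  have h1 : Measurable[m] (parX X u) := by
    unfold parX
    split_ifs
    · exact measurable_const
    · exact hX _
  exact (hX u).sub h1

lemma hasGaussianLaw_incr {X : Vtx N → Ω → ℝ} (hX : IsGaussianProcess X P) :
    HasGaussianLaw (fun ω => (incr X · ω)) P := by
  classical
  have h1 := hX.hasGaussianLaw Finset.univ
  let L : (↥(Finset.univ : Finset (Vtx N)) → ℝ) →L[ℝ] (Vtx N → ℝ) :=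
    LinearMap.toContinuousLinearMap
    { toFun := fun x u => x ⟨u, mem_univ u⟩ - (if u.1.length = 0 then 0 else
        x ⟨tk u (u.1.length - 1), mem_univ _⟩)
      map_add' := by
        intro x y
        ext u
        simp only [Pi.add_apply]
        split_ifs <;> ring
      map_smul' := by
        intro c x
        ext u
        simp only [Pi.smul_apply, smul_eq_mul, RingHom.id_apply]
        split_ifs <;> ring }
  have h2 := h1.map_fun L
  have h3 : (fun ω => L ((Finset.univ : Finset (Vtx N)).restrict (X · ω))) =
      fun ω => (incr X · ω) := by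
    ext ω u
    rfl
  rwa [h3] at h2

section
variable {X : Vtx N → Ω → ℝ} {F : ℕ → ℝ}

lemma cov_incr (hX : IsGaussianProcess X P)
    (hcov : ∀ u w, cov[X u, X w; P] = F (meet u.1 w.1)) (hF0 : F 0 = 0) (u w : Vtx N) :
    cov[incr X u, incr X w; P] = F (meet u.1 w.1) - F (min (w.1.length - 1) (meet u.1 w.1)) -
      (F (min (u.1.length - 1) (meet u.1 w.1)) -
        F (min (u.1.length - 1) (min (w.1.length - 1) (meet u.1 w.1)))) := by
  have hP := hX.isProbabilityMeasure
  have hXL : ∀ u, MemLp (X u) 2 P := fun u => (hX.hasGaussianLaw_eval u).memLp_two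
  have hpL : ∀ u, MemLp (parX X u) 2 P := by
    intro u
    by_cases hu : u.1.length = 0
    · have : parX X u = 0 := by
        ext ω
        simp [parX, hu]
      rw [this]
      exact MemLp.zero
    · have : parX X u = X (tk u (u.1.length - 1)) := by
        ext ω
        simp [parX, hu]
      rw [this]
      exact hXL _
  have h1 : ∀ u w, cov[parX X u, X w; P] = F (min (u.1.length - 1) (meet u.1 w.1)) := by
    intro u w
    by_cases hu : u.1.length = 0
    · have : parX X u = 0 := by
        ext ω
        simp [parX, hu]
      rw [this, covariance_zero_left]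
      simp [hu, hF0]
    · have : parX X u = X (tk u (u.1.length - 1)) := by
        ext ω
        simp [parX, hu]
      rw [this, hcov]
      simp only [tk]
      rw [meet_take]
  have h2 : ∀ u w, cov[X u, parX X w; P] = F (min (w.1.length - 1) (meet u.1 w.1)) := by
    intro u w
    rw [covariance_comm, h1, meet_comm]
  have h3 : ∀ u w, cov[parX X u, parX X w; P] =
      F (min (u.1.length - 1) (min (w.1.length - 1) (meet u.1 w.1))) := by
    intro u w
    by_cases hu : u.1.length = 0
    · have : parX X u = 0 := by
        ext ω
        simp [parX, hu]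
      rw [this, covariance_zero_left]
      simp [hu, hF0]
    · have : parX X u = X (tk u (u.1.length - 1)) := by
        ext ω
        simp [parX, hu]
      rw [this, h2]
      simp only [tk]
      rw [meet_take]
      congr 1
      omega
  have h4 : incr X u = X u - parX X u := by
    ext ω
    rfl
  have h5 : incr X w = X w - parX X w := by
    ext ω
    rfl
  rw [h4, h5, covariance_sub_left (hXL u) (hpL u) ((hXL w).sub (hpL w)),
    covariance_sub_right (hXL u) (hXL w) (hpL w), covariance_sub_right (hpL u) (hXL w) (hpL w),
    hcov, h2, h1, h3]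

lemma iIndepFun_incr (hX : IsGaussianProcess X P)
    (hcov : ∀ u w, cov[X u, X w; P] = F (meet u.1 w.1)) (hF0 : F 0 = 0) :
    iIndepFun (incr X) P := by
  refine HasGaussianLaw.iIndepFun_of_covariance_eq_zero (hasGaussianLaw_incr hX) ?_
  intro u w huw
  rw [cov_incr hX hcov hF0]
  have h1 := meet_le_left u.1 w.1
  have h2 := meet_le_right u.1 w.1
  rcases h1.lt_or_eq with h3 | h3
  · have e1 : min (u.1.length - 1) (meet u.1 w.1) = meet u.1 w.1 := by omega
    have e2 : min (u.1.length - 1) (min (w.1.length - 1) (meet u.1 w.1)) =
      min (w.1.length - 1) (meet u.1 w.1) := by omega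
    rw [e1, e2]
    ring
  · rcases h2.lt_or_eq with h4 | h4
    · have e1 : min (w.1.length - 1) (meet u.1 w.1) = meet u.1 w.1 := by omega
      rw [e1]
      ring
    · exact absurd (Subtype.ext (eq_of_meet h3 h4)) huw

lemma map_incr (hX : IsGaussianProcess X P) (hmean : ∀ u, ∫ ω, X u ω ∂P = 0)
    (hcov : ∀ u w, cov[X u, X w; P] = F (meet u.1 w.1)) (hF0 : F 0 = 0) (u : Vtx N) :
    P.map (incr X u) = gaussianReal 0 (F u.1.length - F (u.1.length - 1)).toNNReal := by
  have hP := hX.isProbabilityMeasure
  have h1 : HasGaussianLaw (incr X u) P := (hasGaussianLaw_incr hX).eval u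
  have hint : ∀ u, Integrable (X u) P := fun u => (hX.hasGaussianLaw_eval u).integrable
  have h2 : ∫ ω, incr X u ω ∂P = 0 := by
    by_cases hu : u.1.length = 0
    · have : incr X u = X u := by
        ext ω
        simp [incr, parX, hu]
      rw [this]
      exact hmean u
    · have : incr X u = fun ω => X u ω - X (tk u (u.1.length - 1)) ω := by
        ext ω
        simp [incr, parX, hu]
      rw [this, integral_sub (hint _) (hint _), hmean, hmean, sub_zero]
  have h3 : Var[incr X u; P] = F u.1.length - F (u.1.length - 1) := by
    rw [← covariance_self h1.aemeasurable, cov_incr hX hcov hF0, meet_self]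
    have e1 : min (u.1.length - 1) u.1.length = u.1.length - 1 := by omega
    have e2 : min (u.1.length - 1) (u.1.length - 1) = u.1.length - 1 := by omega
    rw [e1, e2]
    ring
  rw [h1.map_eq_gaussianReal, h2, h3]

lemma indep_incr {U : ℕ → Ω → ℝ}
    (h : Indep (sU U) (⨆ u, MeasurableSpace.comap (X u) (borel ℝ)) P) :
    Indep (sU U) (⨆ u, MeasurableSpace.comap (incr X u) (borel ℝ)) P := by
  refine indep_of_indep_of_le_right h ?_
  refine iSup_le fun u => ?_
  have hb : borel ℝ = (inferInstance : MeasurableSpace ℝ) :=
    (BorelSpace.measurable_eq (α := ℝ)).symm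
  rw [hb, ← measurable_iff_comap_le]
  apply measurable_incr_of
  intro w
  rw [measurable_iff_comap_le]
  exact le_iSup (fun u => MeasurableSpace.comap (X u) (inferInstance : MeasurableSpace ℝ)) w

end

end Pool.Agent.Lib.MP_f9dad2_pr
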