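import Mathlib
import Pool.Agent.Lib.MP_f9dad2_pr.Defs

/-!
# Riemann sums
-/

namespace Pool.Agent.Lib.MP_f9dad2_pr

open MeasureTheory Finset

/-- Partitions of `[0, 1]` with two families of tags and mesh less than `δ`. -/
def Part (δ : ℝ) (n : ℕ) (x s t : ℕ → ℝ) : Prop :=
  x 0 = 0 ∧ x n = 1 ∧ ∀ i < n, x i ≤ s i ∧ s i ≤ x (i + 1) ∧ x i ≤ t i ∧ t i ≤ x (i + 1) ∧
    x (i + 1) - x i < δ

lemma part_le {n : ℕ} {x : ℕ → ℝ} (h : ∀ i < n, x i ≤ x (i + 1)) {i j : ℕ} (hij : i ≤ j)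
    (hj : j ≤ n) : x i ≤ x j := by
  induction j, hij using Nat.le_induction with
  | base => exact le_refl _
  | succ j hij ih => exact (ih (by omega)).trans (h j (by omega))

lemma Part.tag {δ : ℝ} {n : ℕ} {x s t : ℕ → ℝ} (h : Part δ n x s t) {i : ℕ} (hi : i < n) :
    0 ≤ s i ∧ s i ≤ 1 ∧ 0 ≤ t i ∧ t i ≤ 1 := by
  obtain ⟨h0, h1, hx⟩ := h
  have hm : ∀ i < n, x i ≤ x (i + 1) := fun i hi => (hx i hi).1.trans (hx i hi).2.1
  have e1 : 0 ≤ x i := by
    rw [← h0]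
    exact part_le hm (Nat.zero_le i) hi.le
  have e2 : x (i + 1) ≤ 1 := by
    rw [← h1]
    exact part_le hm hi (le_refl n)
  obtain ⟨g1, g2, g3, g4, _⟩ := hx i hi
  exact ⟨e1.trans g1, g2.trans e2, e1.trans g3, g4.trans e2⟩

lemma osc_sum {f : ℝ → ℝ} (hf : RiemannIntegrable f) {ε : ℝ} (hε : 0 < ε) :
    ∃ δ > 0, ∀ (n : ℕ) (x s t : ℕ → ℝ), Part δ n x s t →
      ∑ i ∈ range n, |f (t i) - f (s i)| * (x (i + 1) - x i) ≤ ε := by
  classical
  obtain ⟨I, hI⟩ := hf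
  obtain ⟨δ, hδ, h⟩ := hI (ε / 2) (half_pos hε)
  refine ⟨δ, hδ, ?_⟩
  rintro n x s t ⟨h0, h1, hx⟩
  have ht' := h n x (fun i => if f (s i) ≤ f (t i) then t i else s i) h0 h1 (fun i hi => by
    obtain ⟨g1, g2, g3, g4, g5⟩ := hx i hi
    split_ifs
    · exact ⟨g3, g4, g5⟩
    · exact ⟨g1, g2, g5⟩)
  have hs' := h n x (fun i => if f (s i) ≤ f (t i) then s i else t i) h0 h1 (fun i hi => by
    obtain ⟨g1, g2, g3, g4, g5⟩ := hx i hi
    split_ifs
    · exact ⟨g1, g2, g5⟩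
    · exact ⟨g3, g4, g5⟩)
  have e : ∑ i ∈ range n, |f (t i) - f (s i)| * (x (i + 1) - x i) =
      ∑ i ∈ range n, f (if f (s i) ≤ f (t i) then t i else s i) * (x (i + 1) - x i) -
      ∑ i ∈ range n, f (if f (s i) ≤ f (t i) then s i else t i) * (x (i + 1) - x i) := by
    rw [← sum_sub_distrib]
    apply sum_congr rfl
    intro i _
    split_ifs with hi
    · rw [abs_of_nonneg (by linarith)]
      ring
    · rw [abs_of_nonpos (by linarith)]
      ring
  rw [e]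
  have a1 := abs_lt.1 ht'
  have a2 := abs_lt.1 hs'
  linarith [a1.1, a1.2, a2.1, a2.2]

lemma sqrt_sub_le {x y η : ℝ} (hx : 0 ≤ x) (hy : 0 ≤ y) (hη : 0 < η) :
    |√x - √y| ≤ |x - y| / (2 * η) + η / 2 := by
  have h1 : |√x - √y| ^ 2 ≤ |x - y| := by
    have h2 : |x - y| = |√x - √y| * (√x + √y) := by
      have : x - y = (√x - √y) * (√x + √y) := by
        have e1 := Real.mul_self_sqrt hx
        have e2 := Real.mul_self_sqrt hy
        nlinarith
      rw [this, abs_mul, abs_of_nonneg (a := √x + √y) (by positivity)]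
    rw [h2, sq]
    apply mul_le_mul_of_nonneg_left _ (abs_nonneg _)
    rw [abs_le]
    have e1 := Real.sqrt_nonneg x
    have e2 := Real.sqrt_nonneg y
    constructor <;> linarith
  have h3 : |√x - √y| ≤ |√x - √y| ^ 2 / (2 * η) + η / 2 := by
    have h4 : 0 ≤ (|√x - √y| - η) ^ 2 / (2 * η) := by positivity
    have h5 : (|√x - √y| - η) ^ 2 / (2 * η) =
      |√x - √y| ^ 2 / (2 * η) + η / 2 - |√x - √y| := by
      field_simp
      ring
    rw [h5] at h4
    linarith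
  have h6 : |√x - √y| ^ 2 / (2 * η) ≤ |x - y| / (2 * η) := by gcongr
  linarith

lemma osc_sqrt {a : ℝ → ℝ} (ha : RiemannIntegrable a) (h0 : ∀ t ∈ Set.Icc (0 : ℝ) 1, 0 ≤ a t)
    {ε : ℝ} (hε : 0 < ε) :
    ∃ δ > 0, ∀ (n : ℕ) (x s t : ℕ → ℝ), Part δ n x s t →
      ∑ i ∈ range n, |√(a (t i)) - √(a (s i))| * (x (i + 1) - x i) ≤ ε := by
  obtain ⟨δ, hδ, h⟩ := osc_sum ha (ε := ε ^ 2) (by positivity)
  refine ⟨δ, hδ, ?_⟩
  intro n x s t hP
  have h1 := h n x s t hP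
  have hD : ∀ i < n, 0 ≤ x (i + 1) - x i := by
    intro i hi
    have := hP.2.2 i hi
    linarith [this.1, this.2.1]
  have hsum : ∑ i ∈ range n, (x (i + 1) - x i) = 1 := by
    rw [sum_range_sub, hP.1, hP.2.1, sub_zero]
  calc ∑ i ∈ range n, |√(a (t i)) - √(a (s i))| * (x (i + 1) - x i)
      ≤ ∑ i ∈ range n, (|a (t i) - a (s i)| / (2 * ε) + ε / 2) * (x (i + 1) - x i) := by
        apply sum_le_sum
        intro i hi
        have hi' := mem_range.1 hi
        have ht := hP.tag hi'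
        exact mul_le_mul_of_nonneg_right (sqrt_sub_le (h0 _ ⟨ht.2.2.1, ht.2.2.2⟩)
          (h0 _ ⟨ht.1, ht.2.1⟩) hε) (hD i hi')
    _ = (∑ i ∈ range n, |a (t i) - a (s i)| * (x (i + 1) - x i)) / (2 * ε) +
        ε / 2 * ∑ i ∈ range n, (x (i + 1) - x i) := by
        rw [sum_div, mul_sum, ← sum_add_distrib]
        apply sum_congr rfl
        intro i _
        ring
    _ ≤ ε ^ 2 / (2 * ε) + ε / 2 * 1 := by
        rw [hsum]
        gcongr
    _ = ε := by
        field_simp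
        ring

/-- Every function that is Riemann integrable on `[0, 1]` is bounded there. -/
lemma bounded_of_riemann {f : ℝ → ℝ} (hf : RiemannIntegrable f) :
    ∃ M : ℝ, 0 ≤ M ∧ ∀ t ∈ Set.Icc (0 : ℝ) 1, f t ≤ M := by
  classical
  obtain ⟨δ, hδ, h⟩ := osc_sum hf one_pos
  obtain ⟨K, hK⟩ := exists_nat_gt (1 / δ)
  have hKpos : (0 : ℝ) < K := lt_trans (by positivity) hK
  have hK0 : 0 < K := by exact_mod_cast hKpos
  have hmesh : (1 : ℝ) / K < δ := by
    rw [div_lt_iff₀ hKpos]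
    rw [div_lt_iff₀ hδ] at hK
    linarith
  refine ⟨∑ j ∈ range K, |f ((j : ℝ) / K)| + K, by positivity, ?_⟩
  rintro t ⟨ht0, ht1⟩
  obtain ⟨j, hjK, hj1, hj2⟩ : ∃ j < K, (j : ℝ) / K ≤ t ∧ t ≤ ((j + 1 : ℕ) : ℝ) / K := by
    rcases ht1.lt_or_eq with hlt | heq
    · refine ⟨⌊t * K⌋₊, ?_, ?_, ?_⟩
      · rw [Nat.floor_lt (by positivity)]
        nlinarith
      · rw [div_le_iff₀ hKpos]
        exact Nat.floor_le (by positivity)
      · rw [le_div_iff₀ hKpos]
        push_cast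
        exact (Nat.lt_floor_add_one _).le
    · refine ⟨K - 1, by omega, ?_, ?_⟩
      · rw [heq, div_le_one hKpos]
        exact_mod_cast Nat.sub_le K 1
      · rw [heq, Nat.sub_add_cancel hK0, div_self hKpos.ne']
  have h1 := h K (fun i => (i : ℝ) / K) (fun i => (i : ℝ) / K)
    (fun i => if i = j then t else (i : ℝ) / K) ⟨by simp, div_self hKpos.ne', by
      intro i _
      have e1 : (i : ℝ) / K ≤ ((i + 1 : ℕ) : ℝ) / K := by
        gcongr
        exact Nat.le_succ i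
      have e2 : ((i + 1 : ℕ) : ℝ) / K - (i : ℝ) / K < δ := by
        have : ((i + 1 : ℕ) : ℝ) / K - (i : ℝ) / K = 1 / K := by
          push_cast
          ring
        rw [this]
        exact hmesh
      refine ⟨le_refl _, e1, ?_, ?_, e2⟩
      · dsimp only
        split_ifs with hij
        · rw [hij]; exact hj1
        · exact le_refl _
      · dsimp only
        split_ifs with hij
        · rw [hij]; exact hj2
        · exact e1⟩
  have h2 : |f t - f ((j : ℝ) / K)| * (((j + 1 : ℕ) : ℝ) / K - (j : ℝ) / K) ≤ 1 := by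
    refine le_trans ?_ h1
    refine le_trans (le_of_eq ?_) (single_le_sum (f := fun i : ℕ =>
      |f (if i = j then t else (i : ℝ) / K) - f ((i : ℝ) / K)| *
        (((i + 1 : ℕ) : ℝ) / K - (i : ℝ) / K)) (fun i _ => ?_) (mem_range.2 hjK))
    · simp
    · apply mul_nonneg (abs_nonneg _)
      have : ((i + 1 : ℕ) : ℝ) / K - (i : ℝ) / K = 1 / K := by
        push_cast
        ring
      rw [this]
      positivity
  have h3 : ((j + 1 : ℕ) : ℝ) / K - (j : ℝ) / K = 1 / K := by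
    push_cast
    ring
  rw [h3, mul_one_div, div_le_one hKpos] at h2
  have h4 : |f ((j : ℝ) / K)| ≤ ∑ j ∈ range K, |f ((j : ℝ) / K)| :=
    single_le_sum (f := fun j : ℕ => |f ((j : ℝ) / K)|) (fun _ _ => abs_nonneg _)
      (mem_range.2 hjK)
  have h5 := le_abs_self (f t - f ((j : ℝ) / K))
  have h6 := le_abs_self (f ((j : ℝ) / K))
  linarith

section avg
variable {g : ℝ → ℝ} {N : ℕ}

lemma cell_integrable (hg : IntervalIntegrable g volume 0 1) (hN : 0 < N) {i : ℕ} (hi : i < N) :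
    IntervalIntegrable g volume ((i : ℝ) / N) (((i + 1 : ℕ) : ℝ) / N) := by
  have hNR : (0 : ℝ) < N := by exact_mod_cast hN
  apply hg.mono_set
  have h1 : (0 : ℝ) ≤ (i : ℝ) / N := by positivity
  have h2 : (i : ℝ) / N ≤ ((i + 1 : ℕ) : ℝ) / N := by
    gcongr
    exact Nat.le_succ i
  have h3 : ((i + 1 : ℕ) : ℝ) / N ≤ 1 := by
    rw [div_le_one hNR]
    exact_mod_cast hi
  rw [Set.uIcc_of_le h2, Set.uIcc_of_le zero_le_one]
  exact Set.Icc_subset_Icc h1 h3

lemma cell_tags (hg : IntervalIntegrable g volume 0 1) (hN : 0 < N) {i : ℕ} (hi : i < N) :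
    (∃ t, (i : ℝ) / N ≤ t ∧ t ≤ ((i + 1 : ℕ) : ℝ) / N ∧
      N * ∫ s in ((i : ℝ) / N)..(((i + 1 : ℕ) : ℝ) / N), g s ≤ g t) ∧
    (∃ t, (i : ℝ) / N ≤ t ∧ t ≤ ((i + 1 : ℕ) : ℝ) / N ∧
      g t ≤ N * ∫ s in ((i : ℝ) / N)..(((i + 1 : ℕ) : ℝ) / N), g s) := by
  have hNR : (0 : ℝ) < N := by exact_mod_cast hN
  have hlt : (i : ℝ) / N < ((i + 1 : ℕ) : ℝ) / N := by
    gcongr
    exact Nat.lt_succ_self i
  have h1 := cell_integrable hg hN hi
  have h2 : IntegrableOn g (Set.Ioc ((i : ℝ) / N) (((i + 1 : ℕ) : ℝ) / N)) volume := by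
    rwa [intervalIntegrable_iff_integrableOn_Ioc_of_le hlt.le] at h1
  have h3 : volume (Set.Ioc ((i : ℝ) / N) (((i + 1 : ℕ) : ℝ) / N)) ≠ 0 := by
    rw [Real.volume_Ioc]
    simp only [ne_eq, ENNReal.ofReal_eq_zero, not_le, sub_pos]
    exact hlt
  have h4 : volume (Set.Ioc ((i : ℝ) / N) (((i + 1 : ℕ) : ℝ) / N)) ≠ ⊤ := by
    rw [Real.volume_Ioc]
    exact ENNReal.ofReal_ne_top
  have h5 : ⨍ s in Set.Ioc ((i : ℝ) / N) (((i + 1 : ℕ) : ℝ) / N), g s =
      N * ∫ s in ((i : ℝ) / N)..(((i + 1 : ℕ) : ℝ) / N), g s := by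
    rw [setAverage_eq, intervalIntegral.integral_of_le hlt.le, Real.volume_real_Ioc_of_le hlt.le,
      smul_eq_mul]
    congr 1
    have : ((i + 1 : ℕ) : ℝ) / N - (i : ℝ) / N = 1 / N := by
      push_cast
      ring
    rw [this, one_div, inv_inv]
  obtain ⟨t, ht, ht'⟩ := exists_setAverage_le h3 h4 h2
  obtain ⟨s, hs, hs'⟩ := exists_le_setAverage h3 h4 h2
  rw [h5] at ht' hs'
  exact ⟨⟨t, ht.1.le, ht.2, ht'⟩, ⟨s, hs.1.le, hs.2, hs'⟩⟩

lemma cell_sum (hg : IntervalIntegrable g volume 0 1) (hN : 0 < N) :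
    ∑ i ∈ range N, ∫ s in ((i : ℝ) / N)..(((i + 1 : ℕ) : ℝ) / N), g s = ∫ s in (0 : ℝ)..1, g s := by
  have hNR : (0 : ℝ) < N := by exact_mod_cast hN
  have := intervalIntegral.sum_integral_adjacent_intervals (f := g) (μ := volume)
    (a := fun i : ℕ => (i : ℝ) / N) (n := N) (fun k hk => cell_integrable hg hN hk)
  rw [this]
  simp [hNR.ne']

end avg

/-- The variance of the increment from depth `i` to depth `i + 1`. -/
noncomputable def av (a : ℝ → ℝ) (N i : ℕ) : ℝ :=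
  N * ∫ s in ((i : ℝ) / N)..(((i + 1 : ℕ) : ℝ) / N), a s

section main
variable {a : ℝ → ℝ}

lemma av_nonneg (h0 : ∀ t ∈ Set.Icc (0 : ℝ) 1, 0 ≤ a t) {N i : ℕ} (hi : i < N) :
    0 ≤ av a N i := by
  have hNR : (0 : ℝ) < N := by
    have : 0 < N := by omega
    exact_mod_cast this
  have h2 : (i : ℝ) / N ≤ ((i + 1 : ℕ) : ℝ) / N := by
    gcongr
    exact Nat.le_succ i
  have h3 : ((i + 1 : ℕ) : ℝ) / N ≤ 1 := by
    rw [div_le_one hNR]
    exact_mod_cast hi
  unfold av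
  apply mul_nonneg hNR.le
  apply intervalIntegral.integral_nonneg h2
  intro u hu
  have : (0 : ℝ) ≤ (i : ℝ) / N := by positivity
  exact h0 u ⟨this.trans hu.1, hu.2.trans h3⟩

lemma sqrt_integrable (hint : IntervalIntegrable a volume 0 1)
    (h0 : ∀ t ∈ Set.Icc (0 : ℝ) 1, 0 ≤ a t) :
    IntervalIntegrable (fun t => √(a t)) volume 0 1 := by
  rw [intervalIntegrable_iff_integrableOn_Ioc_of_le zero_le_one] at hint ⊢
  have h1 : IntegrableOn (fun t => 1 + a t) (Set.Ioc 0 1) volume :=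
    (integrableOn_const (by simp)).add hint
  refine Integrable.mono' h1 ?_ ?_
  · exact Real.continuous_sqrt.comp_aestronglyMeasurable hint.aestronglyMeasurable
  · rw [ae_restrict_iff' measurableSet_Ioc]
    apply Filter.Eventually.of_forall
    intro t ht
    have ha := h0 t ⟨ht.1.le, ht.2⟩
    rw [Real.norm_of_nonneg (Real.sqrt_nonneg _)]
    have := Real.sq_sqrt ha
    nlinarith [sq_nonneg (√(a t) - 1), Real.sqrt_nonneg (a t)]

/-- Upper bound for the sum of the standard deviations of the increments. -/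
lemma sum_sqrt_av (ha : RiemannIntegrable a) (h0 : ∀ t ∈ Set.Icc (0 : ℝ) 1, 0 ≤ a t)
    (hint : IntervalIntegrable a volume 0 1) {ε : ℝ} (hε : 0 < ε) :
    ∃ N1 : ℕ, ∀ N ≥ N1, ∑ i ∈ range N, √(av a N i) ≤ N * ((∫ t in (0 : ℝ)..1, √(a t)) + ε) := by
  obtain ⟨δ, hδ, h⟩ := osc_sqrt ha h0 hε
  obtain ⟨K, hK⟩ := exists_nat_gt (1 / δ)
  refine ⟨K, ?_⟩
  intro N hN
  have hKpos : (0 : ℝ) < K := lt_trans (by positivity) hK
  have hNR : (0 : ℝ) < N := lt_of_lt_of_le hKpos (by exact_mod_cast hN)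
  have hN0 : 0 < N := by exact_mod_cast hNR
  have hmesh : (1 : ℝ) / N < δ := by
    rw [div_lt_iff₀ hNR]
    rw [div_lt_iff₀ hδ] at hK
    have : (K : ℝ) ≤ N := by exact_mod_cast hN
    nlinarith
  have hsq := sqrt_integrable hint h0
  have hT : ∀ i : ℕ, ∃ t, i < N → ((i : ℝ) / N ≤ t ∧ t ≤ ((i + 1 : ℕ) : ℝ) / N ∧
      N * ∫ s in ((i : ℝ) / N)..(((i + 1 : ℕ) : ℝ) / N), a s ≤ a t) := by
    intro i
    by_cases hi : i < N
    · obtain ⟨t, ht⟩ := (cell_tags hint hN0 hi).1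
      exact ⟨t, fun _ => ht⟩
    · exact ⟨0, fun h => absurd h hi⟩
  have hS : ∀ i : ℕ, ∃ t, i < N → ((i : ℝ) / N ≤ t ∧ t ≤ ((i + 1 : ℕ) : ℝ) / N ∧
      √(a t) ≤ N * ∫ s in ((i : ℝ) / N)..(((i + 1 : ℕ) : ℝ) / N), √(a s)) := by
    intro i
    by_cases hi : i < N
    · obtain ⟨t, ht⟩ := (cell_tags hsq hN0 hi).2
      exact ⟨t, fun _ => ht⟩
    · exact ⟨0, fun h => absurd h hi⟩
  choose t ht using hT
  choose s hs using hS
  have hwid : ∀ i : ℕ, ((i + 1 : ℕ) : ℝ) / N - (i : ℝ) / N = 1 / N := by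
    intro i
    push_cast
    ring
  have h1 := h N (fun i => (i : ℝ) / N) s t ⟨by simp, div_self hNR.ne', by
    intro i hi
    refine ⟨(hs i hi).1, (hs i hi).2.1, (ht i hi).1, (ht i hi).2.1, ?_⟩
    dsimp only
    rw [hwid]
    exact hmesh⟩
  have h2 : ∑ i ∈ range N, √(av a N i) * (1 / N) ≤ ∑ i ∈ range N,
      (|√(a (t i)) - √(a (s i))| * (((i + 1 : ℕ) : ℝ) / N - (i : ℝ) / N) +
        ∫ s in ((i : ℝ) / N)..(((i + 1 : ℕ) : ℝ) / N), √(a s)) := by
    apply sum_le_sum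
    intro i hi
    have hi' := mem_range.1 hi
    have e1 : √(av a N i) ≤ √(a (t i)) := Real.sqrt_le_sqrt (ht i hi').2.2
    have e2 := (hs i hi').2.2
    have e3 := le_abs_self (√(a (t i)) - √(a (s i)))
    rw [hwid]
    have e4 : ∫ s in ((i : ℝ) / N)..(((i + 1 : ℕ) : ℝ) / N), √(a s) =
        (N * ∫ s in ((i : ℝ) / N)..(((i + 1 : ℕ) : ℝ) / N), √(a s)) * (1 / N) := by
      field_simp
    rw [e4, ← add_mul]
    apply mul_le_mul_of_nonneg_right _ (by positivity)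
    linarith
  rw [sum_add_distrib, cell_sum hsq hN0, ← sum_mul] at h2
  have h3 : (∑ i ∈ range N, √(av a N i)) * (1 / N) ≤ ε + ∫ t in (0 : ℝ)..1, √(a t) := by
    linarith
  rw [mul_one_div, div_le_iff₀ hNR] at h3
  linarith

/-- The macroscopic blocks. -/
lemma exists_blocks (ha : RiemannIntegrable a) (h0 : ∀ t ∈ Set.Icc (0 : ℝ) 1, 0 ≤ a t)
    (hint : IntervalIntegrable a volume 0 1) {ε : ℝ} (hε : 0 < ε) :
    ∃ K1 : ℕ, 0 < K1 ∧ ∀ K ≥ K1, ∀ N ≥ K, ∃ cbar : ℕ → ℝ,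
      (∀ j < K, ∀ i, j * N / K ≤ i → i < (j + 1) * N / K → √(av a N i) ≤ cbar j) ∧
      (∀ j < K, ∃ t ∈ Set.Icc (0 : ℝ) 1, cbar j = √(a t)) ∧
      ∑ j ∈ range K, ∑ i ∈ Ico (j * N / K) ((j + 1) * N / K), (cbar j - √(av a N i)) ≤
        ε * N := by
  classical
  obtain ⟨δ, hδ, h⟩ := osc_sqrt ha h0 hε
  obtain ⟨K1, hK1⟩ := exists_nat_gt (2 / δ)
  have hK1pos : (0 : ℝ) < K1 := lt_trans (by positivity) hK1
  refine ⟨K1, by exact_mod_cast hK1pos, ?_⟩
  intro K hK N hN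
  have hKR : (0 : ℝ) < K := lt_of_lt_of_le hK1pos (by exact_mod_cast hK)
  have hK0 : 0 < K := by exact_mod_cast hKR
  have hNR : (0 : ℝ) < N := lt_of_lt_of_le hKR (by exact_mod_cast hN)
  have hN0 : 0 < N := by exact_mod_cast hNR
  have hKN : (K : ℝ) ≤ N := by exact_mod_cast hN
  have hlt : ∀ j : ℕ, j * N / K < (j + 1) * N / K := by
    intro j
    have e1 : j * N + K ≤ (j + 1) * N := by
      rw [add_mul]
      omega
    calc j * N / K < j * N / K + 1 := Nat.lt_succ_self _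
      _ = (j * N + K) / K := (Nat.add_div_right _ hK0).symm
      _ ≤ (j + 1) * N / K := Nat.div_le_div_right e1
  have hle : ∀ j < K, (j + 1) * N / K ≤ N := by
    intro j hj
    have e1 : (j + 1) * N ≤ K * N := Nat.mul_le_mul_right _ hj
    calc (j + 1) * N / K ≤ K * N / K := Nat.div_le_div_right e1
      _ = N := Nat.mul_div_cancel_left _ hK0
  -- the partition
  set x : ℕ → ℝ := fun j => ((j * N / K : ℕ) : ℝ) / N with hx
  have hx0 : x 0 = 0 := by simp [hx]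
  have hx1 : x K = 1 := by
    simp only [hx]
    rw [Nat.mul_div_cancel_left _ hK0, div_self hNR.ne']
  have hmesh : ∀ j < K, x (j + 1) - x j < δ := by
    intro j _
    simp only [hx]
    rw [← sub_div, div_lt_iff₀ hNR]
    have e1 : (((j + 1) * N / K : ℕ) : ℝ) ≤ ((j + 1) * N : ℕ) / K := Nat.cast_div_le
    have e2 : ((j * N : ℕ) : ℝ) / K - 1 < ((j * N / K : ℕ) : ℝ) := by
      rw [sub_lt_iff_lt_add, div_lt_iff₀ hKR]
      have : j * N < (j * N / K + 1) * K := by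
        rw [mul_comm (j * N / K + 1) K]
        exact Nat.lt_mul_div_succ _ hK0
      exact_mod_cast this
    have e3 : (((j + 1) * N : ℕ) : ℝ) / K = ((j * N : ℕ) : ℝ) / K + N / K := by
      push_cast
      ring
    have e4 : (N : ℝ) / K + 1 < δ * N := by
      have g1 : (2 : ℝ) < K * δ := by
        rw [div_lt_iff₀ hδ] at hK1
        have : (K1 : ℝ) ≤ K := by exact_mod_cast hK
        nlinarith
      have g2 : (N : ℝ) / K + 1 ≤ 2 * (N / K) := by
        have : (1 : ℝ) ≤ N / K := by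
          rw [le_div_iff₀ hKR]
          linarith
        linarith
      have g3 : 2 * ((N : ℝ) / K) < δ * N := by
        rw [← mul_div_assoc, div_lt_iff₀ hKR]
        nlinarith
      linarith
    linarith
  -- the tags
  have htag : ∀ j : ℕ, ∃ t s : ℝ, j < K → (x j ≤ t ∧ t ≤ x (j + 1) ∧ x j ≤ s ∧ s ≤ x (j + 1) ∧
      (∀ i, j * N / K ≤ i → i < (j + 1) * N / K →
        √(av a N i) ≤ √(a t) ∧ √(a s) ≤ √(av a N i))) := by
    intro j
    by_cases hj : j < K
    · have hne : (Ico (j * N / K) ((j + 1) * N / K)).Nonempty := nonempty_Ico.2 (hlt j)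
      obtain ⟨i1, hi1, hmax⟩ := exists_max_image _ (fun i => √(av a N i)) hne
      obtain ⟨i2, hi2, hmin⟩ := exists_min_image _ (fun i => √(av a N i)) hne
      have hi1' := mem_Ico.1 hi1
      have hi2' := mem_Ico.1 hi2
      have hjle := hle j hj
      obtain ⟨t, ht1, ht2, ht3⟩ := (cell_tags hint hN0 (i := i1) (by omega)).1
      obtain ⟨s, hs1, hs2, hs3⟩ := (cell_tags hint hN0 (i := i2) (by omega)).2
      refine ⟨t, s, fun _ => ⟨?_, ?_, ?_, ?_, ?_⟩⟩
      · refine le_trans ?_ ht1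
        simp only [hx]
        gcongr
        exact hi1'.1
      · refine ht2.trans ?_
        simp only [hx]
        gcongr
        exact hi1'.2
      · refine le_trans ?_ hs1
        simp only [hx]
        gcongr
        exact hi2'.1
      · refine hs2.trans ?_
        simp only [hx]
        gcongr
        exact hi2'.2
      · intro i h1 h2
        have hi : i ∈ Ico (j * N / K) ((j + 1) * N / K) := mem_Ico.2 ⟨h1, h2⟩
        exact ⟨(hmax i hi).trans (Real.sqrt_le_sqrt ht3),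
          (Real.sqrt_le_sqrt hs3).trans (hmin i hi)⟩
    · exact ⟨0, 0, fun h => absurd h hj⟩
  choose t s hts using htag
  refine ⟨fun j => √(a (t j)), ?_, ?_, ?_⟩
  · intro j hj i h1 h2
    exact ((hts j hj).2.2.2.2 i h1 h2).1
  · intro j hj
    refine ⟨t j, ?_, rfl⟩
    obtain ⟨g1, g2, _⟩ := hts j hj
    have e1 : 0 ≤ x j := by
      simp only [hx]
      positivity
    have e2 : x (j + 1) ≤ 1 := by
      simp only [hx]
      rw [div_le_one hNR]
      exact_mod_cast hle j hj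
    exact ⟨e1.trans g1, g2.trans e2⟩
  · have h1 := h K x s t ⟨hx0, hx1, fun j hj => by
      obtain ⟨g1, g2, g3, g4, _⟩ := hts j hj
      exact ⟨g3, g4, g1, g2, hmesh j hj⟩⟩
    have h2 : ∀ j ∈ range K, ∑ i ∈ Ico (j * N / K) ((j + 1) * N / K),
        (√(a (t j)) - √(av a N i)) ≤ |√(a (t j)) - √(a (s j))| * (x (j + 1) - x j) * N := by
      intro j hj
      have hj' := mem_range.1 hj
      calc ∑ i ∈ Ico (j * N / K) ((j + 1) * N / K), (√(a (t j)) - √(av a N i))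
          ≤ ∑ i ∈ Ico (j * N / K) ((j + 1) * N / K), |√(a (t j)) - √(a (s j))| := by
            apply sum_le_sum
            intro i hi
            have hi' := mem_Ico.1 hi
            have e1 := ((hts j hj').2.2.2.2 i hi'.1 hi'.2).2
            have e2 := le_abs_self (√(a (t j)) - √(a (s j)))
            linarith
        _ = |√(a (t j)) - √(a (s j))| * (x (j + 1) - x j) * N := by
            rw [sum_const, nsmul_eq_mul, Nat.card_Ico, Nat.cast_sub (hlt j).le]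
            simp only [hx]
            field_simp
    calc _ ≤ ∑ j ∈ range K, |√(a (t j)) - √(a (s j))| * (x (j + 1) - x j) * N := sum_le_sum h2
      _ = (∑ j ∈ range K, |√(a (t j)) - √(a (s j))| * (x (j + 1) - x j)) * N := by
          rw [sum_mul]
      _ ≤ ε * N := mul_le_mul_of_nonneg_right h1 hNR.le

/-- There is an interval on which `a` is bounded from below. -/
lemma exists_pos_cell (ha : RiemannIntegrable a) (hint : IntervalIntegrable a volume 0 1)
    (h1 : ∫ t in (0 : ℝ)..1, a t = 1) :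
    ∃ K0 : ℕ, 0 < K0 ∧ ∃ p < K0, ∀ t : ℝ, (p : ℝ) / K0 ≤ t → t ≤ ((p + 1 : ℕ) : ℝ) / K0 →
      1 / 4 ≤ a t := by
  obtain ⟨δ, hδ, h⟩ := osc_sum ha (ε := 1 / 2) (by norm_num)
  obtain ⟨N, hK⟩ := exists_nat_gt (1 / δ)
  have hNR : (0 : ℝ) < N := lt_trans (by positivity) hK
  have hN0 : 0 < N := by exact_mod_cast hNR
  have hmesh : (1 : ℝ) / N < δ := by
    rw [div_lt_iff₀ hNR]
    rw [div_lt_iff₀ hδ] at hK
    linarith
  refine ⟨N, hN0, ?_⟩
  by_contra hcon
  push Not at hcon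
  have hS : ∀ i : ℕ, ∃ t, i < N → ((i : ℝ) / N ≤ t ∧ t ≤ ((i + 1 : ℕ) : ℝ) / N ∧
      a t < 1 / 4) := by
    intro i
    by_cases hi : i < N
    · obtain ⟨t, ht⟩ := hcon i hi
      exact ⟨t, fun _ => ht⟩
    · exact ⟨0, fun h => absurd h hi⟩
  have hT : ∀ i : ℕ, ∃ t, i < N → ((i : ℝ) / N ≤ t ∧ t ≤ ((i + 1 : ℕ) : ℝ) / N ∧
      N * ∫ s in ((i : ℝ) / N)..(((i + 1 : ℕ) : ℝ) / N), a s ≤ a t) := by
    intro i
    by_cases hi : i < N
    · obtain ⟨t, ht⟩ := (cell_tags hint hN0 hi).1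
      exact ⟨t, fun _ => ht⟩
    · exact ⟨0, fun h => absurd h hi⟩
  choose t ht using hT
  choose s hs using hS
  have hwid : ∀ i : ℕ, ((i + 1 : ℕ) : ℝ) / N - (i : ℝ) / N = 1 / N := by
    intro i
    push_cast
    ring
  have h2 := h N (fun i => (i : ℝ) / N) s t ⟨by simp, div_self hNR.ne', by
    intro i hi
    refine ⟨(hs i hi).1, (hs i hi).2.1, (ht i hi).1, (ht i hi).2.1, ?_⟩
    dsimp only
    rw [hwid]
    exact hmesh⟩
  have h3 : ∑ i ∈ range N, ((∫ s in ((i : ℝ) / N)..(((i + 1 : ℕ) : ℝ) / N), a s) -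
      1 / 4 * (1 / N)) ≤ ∑ i ∈ range N,
      |a (t i) - a (s i)| * (((i + 1 : ℕ) : ℝ) / N - (i : ℝ) / N) := by
    apply sum_le_sum
    intro i hi
    have hi' := mem_range.1 hi
    have e1 := (ht i hi').2.2
    have e2 := (hs i hi').2.2
    have e3 := le_abs_self (a (t i) - a (s i))
    rw [hwid]
    have e4 : ∫ s in ((i : ℝ) / N)..(((i + 1 : ℕ) : ℝ) / N), a s =
        (N * ∫ s in ((i : ℝ) / N)..(((i + 1 : ℕ) : ℝ) / N), a s) * (1 / N) := by
      field_simp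
    rw [e4, ← sub_mul]
    apply mul_le_mul_of_nonneg_right _ (by positivity)
    linarith
  rw [sum_sub_distrib, cell_sum hint hN0, h1, sum_const, card_range, nsmul_eq_mul] at h3
  have h4 : (N : ℝ) * (1 / 4 * (1 / N)) = 1 / 4 := by
    field_simp
  rw [h4] at h3
  linarith

end main

end Pool.Agent.Lib.MP_f9dad2_pr
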