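import Mathlib
import Pool.Agent.Lib.MP_f9dad2_pr.Incr
import Pool.Agent.Lib.MP_f9dad2_pr.Riem

/-!
# Assembling the estimate for a fixed depth
-/

namespace Pool.Agent.Lib.MP_f9dad2_pr

open MeasureTheory ProbabilityTheory Finset
open scoped ENNReal NNReal

variable {Ω : Type*} {mΩ : MeasurableSpace Ω} {P : Measure Ω} {N : ℕ}

/-! ### Sums over blocks -/

lemma sum_Icc_succ (s t : ℕ) (f : ℕ → ℝ) : ∑ i ∈ Icc (s + 1) t, f i = ∑ i ∈ Ico s t, f (i + 1) := by
  apply Finset.sum_nbij' (fun i => i - 1) (fun i => i + 1)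
  · intro i hi
    have := mem_Icc.1 hi
    exact mem_Ico.2 ⟨by omega, by omega⟩
  · intro i hi
    have := mem_Ico.1 hi
    exact mem_Icc.2 ⟨by omega, by omega⟩
  · intro i hi
    have := mem_Icc.1 hi
    omega
  · intro i _
    omega
  · intro i hi
    have := mem_Icc.1 hi
    rw [Nat.sub_add_cancel (by omega)]

lemma sum_blocks (m : ℕ → ℕ) (hm : ∀ j, m j ≤ m (j + 1)) (f : ℕ → ℝ) (K : ℕ) :
    ∑ j ∈ range K, ∑ i ∈ Icc (m j + 1) (m (j + 1)), f i = ∑ i ∈ Icc (m 0 + 1) (m K), f i := by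
  have hmono : Monotone m := monotone_nat_of_le_succ hm
  induction K with
  | zero => simp
  | succ K ih =>
    rw [sum_range_succ, ih]
    have h1 := hmono (Nat.zero_le K)
    have h2 := hm K
    rw [sum_Icc_succ, sum_Icc_succ, sum_Icc_succ]
    exact sum_Ico_consecutive _ h1 h2

/-! ### The weights -/

/-- The amount that is taken away from the standard deviation on the levels in `[a0, b]`. -/
noncomputable def ind (a0 b i : ℕ) : ℝ := if a0 ≤ i ∧ i ≤ b then 1 / 2 else 0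

/-- Normalising constant. -/
noncomputable def cxi (a : ℝ → ℝ) (u : Vtx N) : ℝ := (√(av a N (u.1.length - 1)))⁻¹

/-- Factor of the remaining part of the increments. -/
noncomputable def cex (a : ℝ → ℝ) (a0 b : ℕ) (u : Vtx N) : ℝ := 1 - ind a0 b u.1.length * cxi a u

/-- Standard deviation of the remaining part of the increments. -/
noncomputable def ccx (a : ℝ → ℝ) (N a0 b i : ℕ) : ℝ≥0 :=
  Real.toNNReal (√(av a N (i - 1)) - ind a0 b i)

section laws

variable {a : ℝ → ℝ} {a0 b : ℕ}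

lemma map_const_mul {Y : Ω → ℝ} (hY : Measurable Y) {v w : ℝ≥0}
    (h : P.map Y = gaussianReal 0 v) (c : ℝ) (hw : (w : ℝ) = c ^ 2 * v) :
    P.map (fun ω => c * Y ω) = gaussianReal 0 w := by
  have h1 : P.map (fun ω => c * Y ω) = (P.map Y).map (fun x => c * x) := by
    rw [Measure.map_map (by fun_prop) hY]
    rfl
  rw [h1, h, gaussianReal_map_const_mul, mul_zero]
  congr 1
  apply NNReal.coe_injective
  rw [hw]
  simp

lemma ind_le_sqrt (hI : ∀ i, a0 ≤ i → i ≤ b → 1 / 4 ≤ av a N (i - 1)) (i : ℕ) :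
    ind a0 b i ≤ √(av a N (i - 1)) := by
  unfold ind
  split_ifs with h
  · have h1 := hI i h.1 h.2
    rw [show (1 : ℝ) / 2 = √(1 / 4) by
      rw [show (1 : ℝ) / 4 = (1 / 2) ^ 2 by norm_num, Real.sqrt_sq (by norm_num)]]
    exact Real.sqrt_le_sqrt h1
  · exact Real.sqrt_nonneg _

lemma ccx_coe (hI : ∀ i, a0 ≤ i → i ≤ b → 1 / 4 ≤ av a N (i - 1)) (i : ℕ) :
    (ccx a N a0 b i : ℝ) = √(av a N (i - 1)) - ind a0 b i := by
  unfold ccx
  rw [Real.coe_toNNReal _ (by linarith [ind_le_sqrt hI i])]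

lemma law_xi {D : Vtx N → Ω → ℝ} (hDm : ∀ u, Measurable (D u))
    (hI : ∀ i, a0 ≤ i → i ≤ b → 1 / 4 ≤ av a N (i - 1))
    {u : Vtx N} (hD : P.map (D u) = gaussianReal 0 (av a N (u.1.length - 1)).toNNReal)
    (h1 : a0 ≤ u.1.length) (h2 : u.1.length ≤ b) :
    P.map (fun ω => cxi a u * D u ω) = gaussianReal 0 1 := by
  have h3 := hI _ h1 h2
  refine map_const_mul (hDm u) hD _ ?_
  rw [Real.coe_toNNReal _ (by linarith)]
  unfold cxi
  rw [inv_pow, Real.sq_sqrt (by linarith), inv_mul_cancel₀ (by linarith)]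
  simp

lemma law_ex {D : Vtx N → Ω → ℝ} (hDm : ∀ u, Measurable (D u))
    (hI : ∀ i, a0 ≤ i → i ≤ b → 1 / 4 ≤ av a N (i - 1))
    {u : Vtx N} (hav : 0 ≤ av a N (u.1.length - 1))
    (hD : P.map (D u) = gaussianReal 0 (av a N (u.1.length - 1)).toNNReal) :
    P.map (fun ω => cex a a0 b u * D u ω) = gaussianReal 0 (ccx a N a0 b u.1.length ^ 2) := by
  refine map_const_mul (hDm u) hD _ ?_
  rw [Real.coe_toNNReal _ hav]
  push_cast
  rw [ccx_coe hI]
  unfold cex cxi
  by_cases hi : a0 ≤ u.1.length ∧ u.1.length ≤ b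
  · have h3 := hI _ hi.1 hi.2
    have h4 : √(av a N (u.1.length - 1)) ≠ 0 := (Real.sqrt_pos.2 (by linarith)).ne'
    have h5 := Real.sq_sqrt hav
    set r := √(av a N (u.1.length - 1)) with hr
    rw [← h5]
    field_simp
  · unfold ind
    rw [if_neg hi, zero_mul, sub_zero, sub_zero, Real.sq_sqrt hav]
    ring

end laws

/-! ### The deterministic estimate -/

lemma det_bound {a : ℝ → ℝ} {a0 b : ℕ} (h1a : 1 ≤ a0) (hab : a0 ≤ b) (hbN : b ≤ N)
    (hI : ∀ i, a0 ≤ i → i ≤ b → 1 / 4 ≤ av a N (i - 1)) {K : ℕ} (hK : 0 < K)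
    {cb : ℕ → ℝ} {B S' δ' : ℝ} {d : Vtx N → ℝ} {w : Vtx N} (hw : w.1.length = N)
    (hS : ∑ j ∈ range K, ∑ i ∈ Icc (j * N / K + 1) ((j + 1) * N / K),
      (cb j - ccx a N a0 b i) ≤ S')
    (G1 : psum (fun u => cxi a u * d u) θc w a0 b ≤ B)
    (G2 : ∀ j < K, ∑ i ∈ Icc (j * N / K + 1) ((j + 1) * N / K),
      (cex a a0 b (tk w i) * d (tk w i) - θc * ccx a N a0 b i) <
      θc / 2 * ∑ i ∈ Icc (j * N / K + 1) ((j + 1) * N / K), (cb j - ccx a N a0 b i) + δ')
    (G3 : d (tk w 0) = 0) :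
    ∑ i ∈ range (N + 1), d (tk w i) ≤ 1 / 2 * B + θc * ∑ i ∈ range N, √(av a N i) +
      θc / 2 * S' + K * δ' := by
  have hθ := θc_pos
  set m : ℕ → ℕ := fun j => j * N / K with hm
  have hm1 : ∀ j, m j ≤ m (j + 1) := fun j => Nat.div_le_div_right (Nat.mul_le_mul_right _ (by omega))
  have hm0 : m 0 = 0 := by simp [hm]
  have hmK : m K = N := by simp only [hm]; exact Nat.mul_div_cancel_left _ hK
  have e1 : ∑ i ∈ range (N + 1), d (tk w i) = ∑ i ∈ Icc 1 N, d (tk w i) := by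
    rw [Finset.range_eq_Ico, Finset.sum_eq_sum_Ico_succ_bot (by omega), G3, zero_add]
    congr 1
  have e2 : ∑ i ∈ Icc 1 N, d (tk w i) = ∑ i ∈ Icc 1 N, cex a a0 b (tk w i) * d (tk w i) +
      1 / 2 * ∑ i ∈ Icc a0 b, cxi a (tk w i) * d (tk w i) := by
    have g1 : ∑ i ∈ Icc a0 b, cxi a (tk w i) * d (tk w i) =
        ∑ i ∈ Icc 1 N, if a0 ≤ i ∧ i ≤ b then cxi a (tk w i) * d (tk w i) else 0 := by
      rw [← sum_filter]
      apply sum_congr _ (fun _ _ => rfl)
      ext i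
      simp only [mem_Icc, mem_filter]
      omega
    rw [g1, mul_sum, ← sum_add_distrib]
    apply sum_congr rfl
    intro i hi
    have hi' := mem_Icc.1 hi
    have hl : (tk w i).1.length = i := tk_length (by omega)
    unfold cex ind
    rw [hl]
    split_ifs <;> ring
  have e3 : ∑ i ∈ Icc a0 b, cxi a (tk w i) * d (tk w i) ≤ B + θc * ((b : ℝ) - a0 + 1) := by
    have g1 : psum (fun u => cxi a u * d u) θc w a0 b =
        ∑ i ∈ Icc a0 b, cxi a (tk w i) * d (tk w i) - θc * ((b : ℝ) - a0 + 1) := by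
      unfold psum
      rw [sum_sub_distrib, sum_const, Nat.card_Icc, nsmul_eq_mul, Nat.cast_sub (by omega)]
      push_cast
      ring
    rw [g1] at G1
    linarith
  have e4 : ∑ i ∈ Icc 1 N, cex a a0 b (tk w i) * d (tk w i) ≤
      θc * ∑ i ∈ Icc 1 N, (ccx a N a0 b i : ℝ) + θc / 2 * S' + K * δ' := by
    have g1 := sum_blocks m hm1 (fun i => cex a a0 b (tk w i) * d (tk w i)) K
    have g2 := sum_blocks m hm1 (fun i => (ccx a N a0 b i : ℝ)) K
    rw [hm0, hmK, zero_add] at g1 g2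
    rw [← g1, ← g2]
    calc ∑ j ∈ range K, ∑ i ∈ Icc (m j + 1) (m (j + 1)), cex a a0 b (tk w i) * d (tk w i)
        ≤ ∑ j ∈ range K, (θc * ∑ i ∈ Icc (m j + 1) (m (j + 1)), (ccx a N a0 b i : ℝ) +
          (θc / 2 * ∑ i ∈ Icc (m j + 1) (m (j + 1)), (cb j - ccx a N a0 b i) + δ')) := by
          apply sum_le_sum
          intro j hj
          have g3 := G2 j (mem_range.1 hj)
          rw [sum_sub_distrib, ← mul_sum] at g3
          simp only [hm]
          linarith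
      _ = θc * ∑ j ∈ range K, ∑ i ∈ Icc (m j + 1) (m (j + 1)), (ccx a N a0 b i : ℝ) +
          (θc / 2 * ∑ j ∈ range K, ∑ i ∈ Icc (m j + 1) (m (j + 1)), (cb j - ccx a N a0 b i) +
            K * δ') := by
          rw [sum_add_distrib, sum_add_distrib, mul_sum, mul_sum, sum_const, card_range,
            nsmul_eq_mul]
      _ ≤ _ := by
          have := mul_le_mul_of_nonneg_left hS (by positivity : 0 ≤ θc / 2)
          simp only [hm] at this ⊢
          linarith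
  have e5 : ∑ i ∈ Icc 1 N, (ccx a N a0 b i : ℝ) = ∑ i ∈ range N, √(av a N i) -
      1 / 2 * ((b : ℝ) - a0 + 1) := by
    have g1 : ∑ i ∈ Icc 1 N, (ccx a N a0 b i : ℝ) = ∑ i ∈ Icc 1 N, √(av a N (i - 1)) -
        ∑ i ∈ Icc 1 N, ind a0 b i := by
      rw [← sum_sub_distrib]
      exact sum_congr rfl fun i _ => ccx_coe hI i
    have g2 : ∑ i ∈ Icc 1 N, √(av a N (i - 1)) = ∑ i ∈ range N, √(av a N i) := by
      have := sum_Icc_succ 0 N (fun i => √(av a N (i - 1)))
      rw [zero_add] at this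
      rw [this, Finset.range_eq_Ico]
      rfl
    have g3 : ∑ i ∈ Icc 1 N, ind a0 b i = 1 / 2 * ((b : ℝ) - a0 + 1) := by
      unfold ind
      rw [← sum_filter, sum_const, nsmul_eq_mul]
      have : (Icc 1 N).filter (fun i => a0 ≤ i ∧ i ≤ b) = Icc a0 b := by
        ext i
        simp only [mem_Icc, mem_filter]
        omega
      rw [this, Nat.card_Icc, Nat.cast_sub (by omega)]
      push_cast
      ring
    rw [g1, g2, g3]
  rw [e1, e2]
  rw [e5] at e4
  nlinarith [e3, e4]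

end Pool.Agent.Lib.MP_f9dad2_pr
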