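import Mathlib
import Pool.Agent.Lib.MP_f9dad2_pr.Assemble

/-!
# The probability estimate for a fixed depth
-/

namespace Pool.Agent.Lib.MP_f9dad2_pr

open MeasureTheory ProbabilityTheory Finset
open scoped ENNReal NNReal

variable {Ω : Type*} {mΩ : MeasurableSpace Ω} {P : Measure Ω} {N : ℕ}

/-! ### Measurability -/

lemma measurable_comp_discrete {β ι : Type*} [MeasurableSpace β] [Finite ι] {f : ι → Ω → β}
    (hf : ∀ i, Measurable (f i)) {g : Ω → ι} (hg : ∀ i, MeasurableSet (g ⁻¹' {i})) :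
    Measurable fun ω => f (g ω) ω := by
  intro s hs
  have : (fun ω => f (g ω) ω) ⁻¹' s = ⋃ i, (g ⁻¹' {i} ∩ f i ⁻¹' s) := by
    ext ω
    simp
  rw [this]
  exact MeasurableSet.iUnion fun i => (hg i).inter (hf i hs)

section
variable {X : Vtx N → Ω → ℝ} {U : ℕ → Ω → ℝ} {v : ℕ → Ω → Vtx N}

lemma v_measurable (hXm : ∀ u, Measurable (X u)) (hUm : ∀ k, Measurable (U k))
    (hv : ∀ n, Measurable[info X U v n, ⊤] (v n)) (n : ℕ) : Measurable[mΩ, ⊤] (v n) := by
  induction n using Nat.strong_induction_on with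
  | _ n ih =>
    have hb : borel ℝ = (inferInstance : MeasurableSpace ℝ) :=
      (BorelSpace.measurable_eq (α := ℝ)).symm
    have hle : info X U v n ≤ mΩ := by
      unfold info
      refine sup_le (sup_le (iSup_le fun k => ?_) (iSup_le fun k => ?_)) (iSup_le fun k => ?_)
      · exact (ih k k.2).comap_le
      · have h1 : Measurable (fun ω => X (v k ω) ω) :=
          measurable_comp_discrete hXm (fun i => (ih k k.2) (t := {i}) trivial)
        rw [hb]
        exact h1.comap_le
      · rw [hb]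
        exact (hUm k).comap_le
    exact (hv n).mono hle le_rfl

lemma measurable_adapt {Φ : (ℕ → Vtx N) → Ω → ℝ≥0∞} {r : ℕ}
    (hdep : ∀ H H' : ℕ → Vtx N, (∀ k ≤ r, H k = H' k) → Φ H = Φ H')
    (hΦ : ∀ H, Measurable (Φ H)) (hvm : ∀ n, Measurable[mΩ, ⊤] (v n)) :
    Measurable fun ω => Φ (fun k => v k ω) ω := by
  classical
  let root : Vtx N := ⟨[], by simp⟩
  let ext : (Fin (r + 1) → Vtx N) → ℕ → Vtx N := fun g k =>
    if h : k < r + 1 then g ⟨k, h⟩ else root
  have h1 : (fun ω => Φ (fun k => v k ω) ω) =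
      fun ω => Φ (ext (fun k : Fin (r + 1) => v k ω)) ω := by
    ext ω
    rw [hdep (fun k => v k ω) (ext (fun k : Fin (r + 1) => v k ω))]
    intro k hk
    simp only [ext]
    rw [dif_pos (by omega)]
  rw [h1]
  refine measurable_comp_discrete (f := fun g : Fin (r + 1) → Vtx N => Φ (ext g))
    (g := fun ω => fun k : Fin (r + 1) => v k ω) (fun g => hΦ _) ?_
  intro g
  have h2 : (fun ω => fun k : Fin (r + 1) => v k ω) ⁻¹' {g} =
      ⋂ k : Fin (r + 1), v k ⁻¹' {g k} := by
    ext ω
    simp only [Set.mem_preimage, Set.mem_singleton_iff, Set.mem_iInter]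
    exact funext_iff
  rw [h2]
  exact MeasurableSet.iInter fun k => (hvm k) (t := {g k}) trivial

end

section
variable {ξ : Vtx N → Ω → ℝ} {v : ℕ → Ω → Vtx N}

lemma measurable_Wq (hξm : ∀ u, Measurable (ξ u)) (hvm : ∀ n, Measurable[mΩ, ⊤] (v n))
    (h : ℝ) (T0 q a0 b r : ℕ) :
    Measurable fun ω => ENNReal.ofReal
      (Wq θc h T0 q a0 b (fun u => ξ u ω) (fun k => v k ω) r) := by
  classical
  refine measurable_adapt (r := r) (Φ := fun H ω => ENNReal.ofReal
    (Wq θc h T0 q a0 b (fun u => ξ u ω) H r)) ?_ ?_ hvm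
  · intro H H' hHH
    ext ω
    rw [Wq_congr θc h T0 q a0 b _ hHH]
  · intro H
    by_cases hex : ∃ j, Fresh a0 b H r j
    · have h1 : (fun ω => ENNReal.ofReal (Wq θc h T0 q a0 b (fun u => ξ u ω) H r)) =
          fun ω => ENNReal.ofReal (Wt θc h T0 q b (fun u => ξ u ω)
            (tk (H r) (Nat.find hex)) (H r)) := by
        ext ω
        unfold Wq
        rw [dif_pos hex]
      rw [h1]
      exact Measurable.ennreal_ofReal (measurable_Wt (fun u _ => hξm u) (tk_prefix_self _ _))
    · have h1 : (fun ω => ENNReal.ofReal (Wq θc h T0 q a0 b (fun u => ξ u ω) H r)) =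
          fun ω => 0 := by
        ext ω
        unfold Wq
        rw [dif_neg hex, ENNReal.ofReal_zero]
      rw [h1]
      exact measurable_const

lemma Bq_congr (lam θ y : ℝ) (cc : ℕ → ℝ≥0) (a0 t : ℕ) (x : Vtx N → ℝ) {H H' : ℕ → Vtx N}
    {r : ℕ} (hHH : ∀ k ≤ r, H k = H' k) :
    Bq lam θ y cc a0 t x H r = Bq lam θ y cc a0 t x H' r := by
  classical
  have h1 : FreshAt a0 H r = FreshAt a0 H' r := by
    unfold FreshAt
    rw [hHH r (le_refl r)]
    apply propext
    constructor
    · rintro ⟨h3, h4⟩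
      exact ⟨h3, fun k hk => by rw [← hHH k hk.le]; exact h4 k hk⟩
    · rintro ⟨h3, h4⟩
      exact ⟨h3, fun k hk => by rw [hHH k hk.le]; exact h4 k hk⟩
  unfold Bq
  simp only [h1, hHH r (le_refl r)]

lemma measurable_Bq (hξm : ∀ u, Measurable (ξ u)) (hvm : ∀ n, Measurable[mΩ, ⊤] (v n))
    (lam θ y : ℝ) (cc : ℕ → ℝ≥0) (a0 t r : ℕ) :
    Measurable fun ω => ENNReal.ofReal
      (Bq lam θ y cc a0 t (fun u => ξ u ω) (fun k => v k ω) r) := by
  classical
  refine measurable_adapt (r := r) (Φ := fun H ω => ENNReal.ofReal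
    (Bq lam θ y cc a0 t (fun u => ξ u ω) H r)) ?_ ?_ hvm
  · intro H H' hHH
    ext ω
    rw [Bq_congr lam θ y cc a0 t _ hHH]
  · intro H
    by_cases hex : FreshAt a0 H r
    · have h1 : (fun ω => ENNReal.ofReal (Bq lam θ y cc a0 t (fun u => ξ u ω) H r)) =
          fun ω => ENNReal.ofReal (BV lam θ y cc a0 t (fun u => ξ u ω) (tk (H r) a0)) := by
        ext ω
        unfold Bq
        rw [if_pos hex]
      rw [h1]
      unfold BV
      fun_prop
    · have h1 : (fun ω => ENNReal.ofReal (Bq lam θ y cc a0 t (fun u => ξ u ω) H r)) =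
          fun ω => 0 := by
        ext ω
        unfold Bq
        rw [if_neg hex, ENNReal.ofReal_zero]
      rw [h1]
      exact measurable_const

end

/-! ### The estimate -/

section
variable {X : Vtx N → Ω → ℝ} {U : ℕ → Ω → ℝ} {v : ℕ → Ω → Vtx N} {a : ℝ → ℝ}

/-- Conclusion of the estimate for a fixed depth. -/
theorem prob_bound [IsProbabilityMeasure P] {D : Vtx N → Ω → ℝ}
    (hXm : ∀ u, Measurable (X u)) (hD : iIndepFun D P) (hDm : ∀ u, Measurable (D u))
    (hXD : ∀ u ω, X u ω = ∑ i ∈ Finset.range (u.1.length + 1), D (tk u i) ω)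
    (hUm : ∀ k, Measurable (U k))
    (hUD : Indep (sU U) (⨆ u, MeasurableSpace.comap (D u) (borel ℝ)) P)
    (hv : ∀ n, Measurable[info X U v n, ⊤] (v n))
    (hlaw : ∀ u : Vtx N, 1 ≤ u.1.length →
      P.map (D u) = gaussianReal 0 (av a N (u.1.length - 1)).toNNReal)
    (hroot : ∀ u : Vtx N, u.1.length = 0 → ∀ᵐ ω ∂P, D u ω = 0)
    (hav : ∀ i < N, 0 ≤ av a N i)
    {a0 b : ℕ} (h1a : 1 ≤ a0) (hab : a0 ≤ b) (hbN : b ≤ N)
    (hI : ∀ i, a0 ≤ i → i ≤ b → 1 / 4 ≤ av a N (i - 1)) {K : ℕ} (hK : 0 < K) (hKN : K ≤ N)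
    {cb : ℕ → ℝ} {M' S' δ' : ℝ} (hδ' : 0 ≤ δ') (hcb0 : ∀ j < K, 0 < cb j) (hcbM : ∀ j < K, cb j ≤ M')
    (hcc : ∀ j < K, ∀ i ∈ Icc (j * N / K + 1) ((j + 1) * N / K), (ccx a N a0 b i : ℝ) ≤ cb j)
    (hS : ∑ j ∈ range K, ∑ i ∈ Icc (j * N / K + 1) ((j + 1) * N / K),
      (cb j - ccx a N a0 b i) ≤ S')
    {h κ : ℝ} (hh : 0 < h) {T0 q : ℕ} (hT : 1 ≤ T0) (hq : 1 ≤ q) (hκ : 0 ≤ κ)
    (hκΛ : κ * (q * T0 : ℕ) ≤ h / 2) (hκθ : κ ≤ θc / 2) (n : ℕ) {t x : ℝ} (ht : 0 < t)
    (hx : 1 / 2 * (-κ * ((b : ℝ) - a0 + 1) + 2 * h + (3 / 2 * h + 3 / θc) * t) +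
      θc * ∑ i ∈ range N, √(av a N i) + θc / 2 * S' + K * δ' < x) :
    P {ω | ∃ R < n, (v R ω).1.length = N ∧ x ≤ X (v R ω) ω} ≤
      n * ENNReal.ofReal (yh h T0 q) / ENNReal.ofReal t +
        K * (n * ENNReal.ofReal (Real.exp (-(θc * δ' / M')))) := by
  classical
  have hθ := θc_pos
  have hvm := v_measurable hXm hUm hv
  set ξ : Vtx N → Ω → ℝ := fun u ω => cxi a u * D u ω with hξ
  set e : Vtx N → Ω → ℝ := fun u ω => cex a a0 b u * D u ω with he
  have hξm : ∀ u, Measurable (ξ u) := fun u => (hDm u).const_mul _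
  have hem : ∀ u, Measurable (e u) := fun u => (hDm u).const_mul _
  -- the exceptional events
  set E1 : Set Ω := {ω | ENNReal.ofReal t ≤ ∑ r ∈ range n, ENNReal.ofReal
    (Wq θc h T0 q a0 b (fun u => ξ u ω) (fun k => v k ω) r)} with hE1
  set y : ℕ → ℝ := fun j => θc / 2 * ∑ i ∈ Icc (j * N / K + 1) ((j + 1) * N / K),
    (cb j - ccx a N a0 b i) + δ' with hy
  set E2 : ℕ → ℕ → Set Ω := fun j r => {ω | 1 ≤ ENNReal.ofReal
    (Bq (θc / cb j) θc (y j) (ccx a N a0 b) (j * N / K + 1) ((j + 1) * N / K)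
      (fun u => e u ω) (fun k => v k ω) r)} with hE2
  set E3 : Set Ω := {ω | ¬ ∀ u : Vtx N, u.1.length = 0 → D u ω = 0} with hE3
  have hsub : {ω | ∃ R < n, (v R ω).1.length = N ∧ x ≤ X (v R ω) ω} ⊆
      E1 ∪ (⋃ j ∈ range K, ⋃ r ∈ range n, E2 j r) ∪ E3 := by
    rintro ω ⟨R, hR, hlen, hX⟩
    by_contra hcon
    simp only [Set.mem_union, not_or, Set.mem_iUnion, not_exists] at hcon
    obtain ⟨⟨h1, h2⟩, h3⟩ := hcon
    simp only [hE1, Set.mem_ofPred_eq, not_le] at h1
    simp only [hE3, Set.mem_ofPred_eq, not_not] at h3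
    have hWsum : ∑ r ∈ range n, Wq θc h T0 q a0 b (fun u => ξ u ω) (fun k => v k ω) r < t := by
      rw [← ENNReal.ofReal_sum_of_nonneg (fun r _ => Wq_nonneg _ _ _ _ _ _ _ _ _)] at h1
      exact (ENNReal.ofReal_lt_ofReal_iff ht).1 h1
    have G1 : psum (fun u => ξ u ω) θc (v R ω) a0 b ≤ -κ * ((b : ℝ) - a0 + 1) + 2 * h +
        (3 / 2 * h + 3 / θc) * t := by
      have g1 := path_bound (ξ := fun u => ξ u ω) (H := fun k => v k ω) (R := R) (θ := θc)
        (h := h) (T0 := T0) (q := q) (κ := κ) hθ hh hT hq hκ hκΛ hκθ hab (by omega)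
      have g2 : ∑ r ∈ range (R + 1), Wq θc h T0 q a0 b (fun u => ξ u ω) (fun k => v k ω) r ≤
          ∑ r ∈ range n, Wq θc h T0 q a0 b (fun u => ξ u ω) (fun k => v k ω) r :=
        sum_le_sum_of_subset_of_nonneg (range_subset_range.2 hR)
          (fun r _ _ => Wq_nonneg _ _ _ _ _ _ _ _ _)
      have g3 : (3 / 2 * h + 3 / θc) *
          ∑ r ∈ range (R + 1), Wq θc h T0 q a0 b (fun u => ξ u ω) (fun k => v k ω) r ≤
          (3 / 2 * h + 3 / θc) * t :=
        mul_le_mul_of_nonneg_left (g2.trans hWsum.le) (by positivity)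
      linarith
    have G2 : ∀ j < K, ∑ i ∈ Icc (j * N / K + 1) ((j + 1) * N / K),
        (cex a a0 b (tk (v R ω) i) * D (tk (v R ω) i) ω - θc * ccx a N a0 b i) <
        θc / 2 * ∑ i ∈ Icc (j * N / K + 1) ((j + 1) * N / K), (cb j - ccx a N a0 b i) +
          δ' := by
      intro j hj
      have hblock : j * N / K + 1 ≤ (j + 1) * N / K := by
        have e1 : j * N + K ≤ (j + 1) * N := by
          rw [add_mul]
          omega
        calc j * N / K + 1 = (j * N + K) / K := (Nat.add_div_right _ hK).symm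
          _ ≤ (j + 1) * N / K := Nat.div_le_div_right e1
      have hble : (j + 1) * N / K ≤ N := by
        have e1 : (j + 1) * N ≤ K * N := Nat.mul_le_mul_right _ hj
        calc (j + 1) * N / K ≤ K * N / K := Nat.div_le_div_right e1
          _ = N := Nat.mul_div_cancel_left _ hK
      refine block_path (lam := θc / cb j) (θ := θc) (y := y j) (cc := ccx a N a0 b)
        (x := fun u => e u ω) (H := fun k => v k ω) (R := R) (div_pos hθ (hcb0 j hj)) hblock
        (by omega) ?_
      intro r hr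
      have g1 := h2 j (mem_range.2 hj) r (mem_range.2 (by omega))
      simp only [hE2, Set.mem_ofPred_eq, not_le] at g1
      rw [ENNReal.ofReal_lt_one] at g1
      exact g1
    have G3 : D (tk (v R ω) 0) ω = 0 := h3 _ (tk_length (Nat.zero_le _))
    have key := det_bound (a := a) (d := fun u => D u ω) (w := v R ω) h1a hab hbN hI hK hlen hS
      G1 G2 G3
    rw [hXD, hlen] at hX
    linarith
  refine (measure_mono hsub).trans ?_
  refine (measure_union_le _ _).trans ?_
  have hm3 : P E3 = 0 := by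
    have : ∀ᵐ ω ∂P, ∀ u : Vtx N, u.1.length = 0 → D u ω = 0 := by
      rw [ae_all_iff]
      intro u
      by_cases hu : u.1.length = 0
      · filter_upwards [hroot u hu] with ω hω _
        exact hω
      · exact Filter.Eventually.of_forall fun ω h => absurd h hu
    exact this
  rw [hm3, add_zero]
  refine (measure_union_le _ _).trans ?_
  refine add_le_add ?_ ?_
  · -- Markov for the charges
    have hmeas : Measurable fun ω => ∑ r ∈ range n, ENNReal.ofReal
        (Wq θc h T0 q a0 b (fun u => ξ u ω) (fun k => v k ω) r) :=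
      Finset.measurable_fun_sum _ fun r _ => measurable_Wq hξm hvm h T0 q a0 b r
    refine (meas_ge_le_lintegral_div hmeas.aemeasurable
      (ENNReal.ofReal_pos.2 ht).ne' ENNReal.ofReal_ne_top).trans ?_
    rw [lintegral_finsetSum _ (fun r _ => measurable_Wq hξm hvm h T0 q a0 b r)]
    apply ENNReal.div_le_div_right
    calc ∑ r ∈ range n, ∫⁻ ω, ENNReal.ofReal
          (Wq θc h T0 q a0 b (fun u => ξ u ω) (fun k => v k ω) r) ∂P
        ≤ ∑ r ∈ range n, ENNReal.ofReal (yh h T0 q) := by
          apply sum_le_sum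
          intro r _
          refine lintegral_Wq hD hDm hXD hUm hUD hv (c := cxi a) (fun u ω => rfl) ?_ hh.le
            (by omega) (by omega) r
          intro u hu1 hu2
          exact law_xi hDm hI (hlaw u (by omega)) hu1 hu2
      _ = n * ENNReal.ofReal (yh h T0 q) := by
          rw [sum_const, card_range, nsmul_eq_mul]
  · -- the blocks
    refine (measure_biUnion_finset_le _ _).trans ?_
    calc ∑ j ∈ range K, P (⋃ r ∈ range n, E2 j r)
        ≤ ∑ j ∈ range K, (n * ENNReal.ofReal (Real.exp (-(θc * δ' / M')))) := by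
          apply sum_le_sum
          intro j hj
          have hj' := mem_range.1 hj
          refine (measure_biUnion_finset_le _ _).trans ?_
          calc ∑ r ∈ range n, P (E2 j r)
              ≤ ∑ r ∈ range n, ENNReal.ofReal (Real.exp (-(θc * δ' / M'))) := by
                apply sum_le_sum
                intro r _
                have hblock : j * N / K + 1 ≤ (j + 1) * N / K := by
                  have e1 : j * N + K ≤ (j + 1) * N := by
                    rw [add_mul]
                    omega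
                  calc j * N / K + 1 = (j * N + K) / K := (Nat.add_div_right _ hK).symm
                    _ ≤ (j + 1) * N / K := Nat.div_le_div_right e1
                have hble : (j + 1) * N / K ≤ N := by
                  have e1 : (j + 1) * N ≤ K * N := Nat.mul_le_mul_right _ hj'
                  calc (j + 1) * N / K ≤ K * N / K := Nat.div_le_div_right e1
                    _ = N := Nat.mul_div_cancel_left _ hK
                have hmeas := measurable_Bq (ξ := e) hem hvm (θc / cb j) θc (y j)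
                  (ccx a N a0 b) (j * N / K + 1) ((j + 1) * N / K) r
                refine (meas_ge_le_lintegral_div hmeas.aemeasurable one_ne_zero
                  ENNReal.one_ne_top).trans ?_
                rw [div_one]
                refine (lintegral_Bq hD hDm hXD hUm hUD hv (c := cex a a0 b) (fun u ω => rfl)
                  ?_ (hcb0 j hj') (hcc j hj') δ' hblock r).trans ?_
                · intro u hu1 hu2
                  have hu0 : 1 ≤ u.1.length := (Nat.le_add_left 1 _).trans hu1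
                  exact law_ex hDm hI (hav _ (by omega)) (hlaw u hu0)
                · apply ENNReal.ofReal_le_ofReal
                  apply Real.exp_le_exp.2
                  apply neg_le_neg
                  have := hcb0 j hj'
                  have := hcbM j hj'
                  gcongr
              _ = n * ENNReal.ofReal (Real.exp (-(θc * δ' / M'))) := by
                rw [sum_const, card_range, nsmul_eq_mul]
      _ = _ := by
          rw [sum_const, card_range, nsmul_eq_mul]

end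

end Pool.Agent.Lib.MP_f9dad2_pr
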