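import Mathlib
import Pool.Agent.Lib.MP_f9dad2_pr.ProbBound

/-!
# Choice of the parameters
-/

namespace Pool.Agent.Lib.MP_f9dad2_pr

open MeasureTheory ProbabilityTheory Finset
open scoped ENNReal NNReal

lemma one_le_θc : 1 ≤ θc := by
  have h1 := θc_sq
  have h2 := Real.log_two_gt_d9
  nlinarith [θc_pos]

lemma θc_le : θc ≤ 6 / 5 := by
  have h1 := θc_sq
  have h2 := Real.log_two_lt_d9
  nlinarith [θc_pos]

lemma exp_three_le : Real.exp 3 ≤ 21 := by
  have h1 := Real.exp_one_lt_d9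
  have h2 : Real.exp 3 = Real.exp 1 ^ 3 := by
    rw [← Real.exp_nat_mul]
    norm_num
  rw [h2]
  have h3 : Real.exp 1 ^ 3 ≤ (2.7182818286 : ℝ) ^ 3 :=
    pow_le_pow_left₀ (Real.exp_pos _).le h1.le 3
  refine h3.trans ?_
  norm_num

lemma yh_le {h : ℕ} (hh : 1 ≤ h) :
    yh h (64 * h ^ 2) (6 * h) ≤ 2695 * (h : ℝ) ^ 3 * Real.exp (-(θc * h / 4)) := by
  have hθ := θc_pos
  have hR : (1 : ℝ) ≤ h := by exact_mod_cast hh
  have hpos : (0 : ℝ) < h := by linarith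
  have h3 : (1 : ℝ) ≤ (h : ℝ) ^ 3 := one_le_pow₀ hR
  have e1 : Real.exp (-(θc * h / 2)) ≤ Real.exp (-(θc * h / 4)) := by
    apply Real.exp_le_exp.2
    have : 0 ≤ θc * h := by positivity
    linarith
  have e2 : (((6 * h * (64 * h ^ 2) : ℕ)) : ℝ) = 384 * (h : ℝ) ^ 3 := by
    push_cast
    ring
  have e3 : Real.exp (2 * θc * h) * (8 * h * (Real.sqrt (2 * Real.pi * (64 * h ^ 2 : ℕ)))⁻¹) ^
      (6 * h) ≤ Real.exp (-(θc * h / 4)) := by
    have g1 : Real.sqrt (2 * Real.pi * (64 * h ^ 2 : ℕ)) = Real.sqrt (2 * Real.pi) * (8 * h) := by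
      have : (2 * Real.pi * (64 * h ^ 2 : ℕ) : ℝ) = 2 * Real.pi * (8 * h) ^ 2 := by
        push_cast
        ring
      rw [this, Real.sqrt_mul (by positivity), Real.sqrt_sq (by positivity)]
    have g2 : 8 * (h : ℝ) * (Real.sqrt (2 * Real.pi * (64 * h ^ 2 : ℕ)))⁻¹ =
        (Real.sqrt (2 * Real.pi))⁻¹ := by
      rw [g1, mul_inv]
      field_simp
    have g3 : (Real.sqrt (2 * Real.pi))⁻¹ ≤ 2 / 5 := by
      rw [inv_le_comm₀ (by positivity) (by norm_num)]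
      rw [show ((2 : ℝ) / 5)⁻¹ = 5 / 2 by norm_num]
      apply Real.le_sqrt_of_sq_le
      have := Real.pi_gt_d2
      norm_num
      linarith
    rw [g2]
    have g4 : (Real.sqrt (2 * Real.pi))⁻¹ ^ (6 * h) ≤ ((2 / 5 : ℝ) ^ 6) ^ h := by
      rw [pow_mul]
      apply pow_le_pow_left₀ (by positivity)
      exact pow_le_pow_left₀ (by positivity) g3 6
    have g5 : Real.exp (2 * θc * h) = Real.exp (2 * θc) ^ h := by
      rw [← Real.exp_nat_mul]
      congr 1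
      ring
    have g6 : Real.exp (-(θc * h / 4)) = Real.exp (-(θc / 4)) ^ h := by
      rw [← Real.exp_nat_mul]
      congr 1
      ring
    rw [g5, g6]
    refine (mul_le_mul_of_nonneg_left g4 (by positivity)).trans ?_
    rw [← mul_pow]
    apply pow_le_pow_left₀ (by positivity)
    have g7 : Real.exp (9 * θc / 4) ≤ 21 := by
      refine le_trans (Real.exp_le_exp.2 ?_) exp_three_le
      have := θc_le
      linarith
    have g8 : Real.exp (2 * θc) = Real.exp (9 * θc / 4) * Real.exp (-(θc / 4)) := by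
      rw [← Real.exp_add]
      congr 1
      ring
    rw [g8]
    have g9 : 0 < Real.exp (-(θc / 4)) := Real.exp_pos _
    nlinarith
  unfold yh
  rw [e2]
  have e4 : 0 < Real.exp (-(θc * h / 4)) := Real.exp_pos _
  have e5 : Real.exp (-(θc * ↑h / 2)) * (384 * (h : ℝ) ^ 3) ≤
      Real.exp (-(θc * h / 4)) * (384 * (h : ℝ) ^ 3) := by gcongr
  have e6 : Real.exp (-(θc * h / 4)) * 1 ≤ Real.exp (-(θc * h / 4)) * (h : ℝ) ^ 3 := by gcongr
  nlinarith

lemma exists_h {Q η : ℝ} (hQ : 0 ≤ Q) (hη : 0 < η) : ∃ h : ℕ, 1 ≤ h ∧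
    Q * ((3 / 2 * h + 3 / θc) * yh h (64 * h ^ 2) (6 * h) * (768 * h ^ 2)) ≤ η := by
  obtain ⟨h, hh⟩ := exists_nat_ge (max 1 (Q * 9314000 * (5040 * 4 ^ 7) / η))
  have hR : (1 : ℝ) ≤ h := (le_max_left _ _).trans hh
  have hpos : (0 : ℝ) < h := by linarith
  have hh1 : 1 ≤ h := by exact_mod_cast hR
  refine ⟨h, hh1, ?_⟩
  have h1 := yh_le hh1
  have h2 := one_le_θc
  have h3 : 3 / 2 * (h : ℝ) + 3 / θc ≤ 9 / 2 * h := by
    have : 3 / θc ≤ 3 := by
      rw [div_le_iff₀ (by linarith)]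
      linarith
    linarith
  have hy := yh_nonneg (h := (h : ℝ)) hpos.le (64 * h ^ 2) (6 * h)
  have h4 : Real.exp (-(θc * h / 4)) ≤ 5040 * 4 ^ 7 / (h : ℝ) ^ 7 := by
    have g1 : ((h : ℝ) / 4) ^ 7 / (Nat.factorial 7 : ℕ) ≤ Real.exp (h / 4) :=
      Real.pow_div_factorial_le_exp _ (by positivity) 7
    have g2 : Real.exp (-(θc * h / 4)) ≤ Real.exp (-((h : ℝ) / 4)) := by
      apply Real.exp_le_exp.2
      nlinarith
    refine g2.trans ?_
    rw [Real.exp_neg, inv_le_comm₀ (Real.exp_pos _) (by positivity)]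
    refine le_trans (le_of_eq ?_) g1
    have : (Nat.factorial 7 : ℕ) = 5040 := rfl
    rw [this, inv_div, div_pow]
    push_cast
    field_simp
  calc Q * ((3 / 2 * h + 3 / θc) * yh h (64 * h ^ 2) (6 * h) * (768 * h ^ 2))
      ≤ Q * ((9 / 2 * h) * (2695 * (h : ℝ) ^ 3 * Real.exp (-(θc * h / 4))) * (768 * h ^ 2)) := by
        gcongr
    _ ≤ Q * ((9 / 2 * h) * (2695 * (h : ℝ) ^ 3 * (5040 * 4 ^ 7 / (h : ℝ) ^ 7)) *
        (768 * h ^ 2)) := by
        gcongr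
    _ = Q * (9313920 * (5040 * 4 ^ 7)) / h := by
        field_simp
        ring
    _ ≤ η := by
        rw [div_le_iff₀ hpos]
        have g1 : Q * 9314000 * (5040 * 4 ^ 7) / η ≤ h := (le_max_right _ _).trans hh
        rw [div_le_iff₀ hη] at g1
        nlinarith

end Pool.Agent.Lib.MP_f9dad2_pr
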