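import Mathlib
import Pool.Agent.Lib.MP_f9dad2_pr.Asymp

/-!
# The main theorem
-/

namespace Pool.Agent.Lib.MP_f9dad2_pr

open MeasureTheory ProbabilityTheory Finset
open scoped ENNReal NNReal

section fixed

variable {Ω : Type*} {mΩ : MeasurableSpace Ω} {P : Measure Ω} {N : ℕ}
variable {X : Vtx N → Ω → ℝ} {a : ℝ → ℝ}

/-- The variance profile. -/
noncomputable def Fv (a : ℝ → ℝ) (N m : ℕ) : ℝ := N * primitive a (m / N)

lemma Fv_zero (a : ℝ → ℝ) (N : ℕ) : Fv a N 0 = 0 := by
  simp [Fv, primitive]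

lemma Fv_sub (hint : IntervalIntegrable a volume 0 1) {i : ℕ} (hi : i < N) :
    Fv a N (i + 1) - Fv a N i = av a N i := by
  have hN : 0 < N := by omega
  have hNR : (0 : ℝ) < N := by exact_mod_cast hN
  unfold Fv av primitive
  rw [← mul_sub]
  congr 1
  have hsub : ∀ m ≤ N, IntervalIntegrable a volume 0 ((m : ℝ) / N) := by
    intro m hm
    apply hint.mono_set
    have h1 : (0 : ℝ) ≤ (m : ℝ) / N := by positivity
    have h2 : (m : ℝ) / N ≤ 1 := by
      rw [div_le_one hNR]
      exact_mod_cast hm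
    rw [Set.uIcc_of_le h1, Set.uIcc_of_le zero_le_one]
    exact Set.Icc_subset_Icc_right h2
  exact intervalIntegral.integral_interval_sub_left (hsub _ hi) (hsub _ hi.le)

lemma crem_cov (hX : IsCREM a N X P) (u w : Vtx N) :
    cov[X u, X w; P] = Fv a N (meet u.1 w.1) := by
  unfold covariance
  simp only [hX.mean, sub_zero]
  exact hX.cov u w

lemma ae_zero_of_map {Y : Ω → ℝ} (hY : Measurable Y) (h : P.map Y = gaussianReal 0 0) :
    ∀ᵐ ω ∂P, Y ω = 0 := by
  rw [gaussianReal_zero_var] at h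
  have h1 : (P.map Y) {0}ᶜ = 0 := by
    rw [h]
    simp
  rw [Measure.map_apply hY (measurableSet_singleton 0).compl] at h1
  exact h1

/-- Value of the average on a cell. -/
lemma quarter_le_av (hint : IntervalIntegrable a volume 0 1) {i : ℕ} (hi : i < N)
    (h : ∀ t : ℝ, (i : ℝ) / N ≤ t → t ≤ ((i + 1 : ℕ) : ℝ) / N → 1 / 4 ≤ a t) :
    1 / 4 ≤ av a N i := by
  have hN : 0 < N := by omega
  obtain ⟨t, ht1, ht2, ht3⟩ := (cell_tags hint hN hi).2
  exact (h t ht1 ht2).trans ht3

end fixed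

/-- The estimate for all large depths, uniformly in the probability space and the algorithm. -/
theorem main_aux {a : ℝ → ℝ} (h0 : ∀ t ∈ Set.Icc (0 : ℝ) 1, 0 ≤ a t) (hR : RiemannIntegrable a)
    (h1 : ∫ t in (0 : ℝ)..1, a t = 1) {g : ℕ → ℝ}
    (hg : g =o[Filter.atTop] fun N => (N : ℝ)) {C η : ℝ} (hC : 0 < C) (hη : 0 < η) :
    ∃ N0 : ℕ, ∀ N ≥ N0, ∀ {Ω : Type*} {mΩ : MeasurableSpace Ω} {P : Measure Ω}
      [IsProbabilityMeasure P] {X : Vtx N → Ω → ℝ} {U : ℕ → Ω → ℝ} {v : ℕ → Ω → Vtx N},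
      IsCREM a N X P → (∀ k, Measurable (U k)) →
      Indep (sU U) (⨆ u, MeasurableSpace.comap (X u) (borel ℝ)) P →
      (∀ n, Measurable[info X U v n, ⊤] (v n)) →
      P {ω | ∃ R < ⌊C * N⌋₊, (v R ω).1.length = N ∧ xstar a * N - g N ≤ X (v R ω) ω} ≤
        ENNReal.ofReal η := by
  classical
  have hθ := θc_pos
  have hint : IntervalIntegrable a volume 0 1 := by
    by_contra h
    rw [intervalIntegral.integral_undef h] at h1
    exact zero_ne_one h1
  obtain ⟨K00, hK00, p0, hp0, hcell⟩ := exists_pos_cell hR hint h1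
  obtain ⟨M, hM0, hM⟩ := bounded_of_riemann hR
  set K0 := 2 * K00 with hK0
  set p := 2 * p0 + 1 with hp
  have hK0pos : 0 < K0 := by omega
  have hK0R : (0 : ℝ) < K0 := by exact_mod_cast hK0pos
  obtain ⟨h, hh1, hhy⟩ := exists_h (Q := 4 * C * K0) (η := η / 2) (by positivity) (by positivity)
  have hhR : (1 : ℝ) ≤ h := by exact_mod_cast hh1
  have hhpos : (0 : ℝ) < h := by linarith
  set κ : ℝ := 1 / (768 * (h : ℝ) ^ 2) with hκdef
  have hκ : 0 < κ := by positivity
  set Z : ℝ := 3 / 2 * (h : ℝ) + 3 / θc with hZdef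
  have hZ : 0 < Z := by positivity
  set ε : ℝ := κ / (64 * K0 * θc) with hεdef
  have hε : 0 < ε := by positivity
  obtain ⟨N1, hN1⟩ := sum_sqrt_av hR h0 hint hε
  obtain ⟨K1, hK1, hblocks⟩ := exists_blocks hR h0 hint hε
  set K := K1 * K0 with hKdef
  have hKpos : 0 < K := Nat.mul_pos hK1 hK0pos
  have hKR : (0 : ℝ) < K := by exact_mod_cast hKpos
  have hK1K : K1 ≤ K := Nat.le_mul_of_pos_right _ hK0pos
  set δ : ℝ := κ / (32 * K0 * K) with hδdef
  have hδ : 0 < δ := by positivity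
  set M' : ℝ := √M + ε with hM'
  have hM'pos : 0 < M' := by positivity
  -- the last two thresholds
  have hg2 : ∀ᶠ N : ℕ in Filter.atTop, ‖g N‖ ≤ κ / (64 * K0) * ‖(N : ℝ)‖ :=
    hg.def (by positivity)
  obtain ⟨N2, hN2⟩ := Filter.eventually_atTop.1 hg2
  obtain ⟨N3, hN3⟩ := exists_nat_gt (64 * K0 * h / κ)
  set c : ℝ := θc * δ / M' with hcdef
  have hc : 0 < c := by positivity
  obtain ⟨N4, hN4⟩ := exists_nat_gt (4 * K * C / (c ^ 2 * η))
  refine ⟨N1 + N2 + N3 + N4 + 2 * K + 2 * K0 + 1, ?_⟩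
  intro N hN Ω mΩ P _ X U v hX hUm hUX hv
  have hNpos : 0 < N := by omega
  have hNR : (0 : ℝ) < N := by exact_mod_cast hNpos
  have hKN : K ≤ N := by omega
  have hK0N : K0 ≤ N := by omega
  have hK0N2 : 2 * K0 ≤ N := by omega
  obtain ⟨cbar, hcb1, hcb2, hcb3⟩ := hblocks K hK1K N hKN
  -- the levels with positive variance
  set a0 := p * N / K0 + 1 with ha0
  set b := (p + 1) * N / K0 with hb
  have hpK : p + 1 ≤ K0 := by omega
  have hlen : p * N / K0 + 1 ≤ (p + 1) * N / K0 := by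
    have e1 : p * N + K0 ≤ (p + 1) * N := by
      have e2 : (p + 1) * N = p * N + N := Nat.succ_mul p N
      rw [e2]
      exact Nat.add_le_add_left hK0N _
    calc p * N / K0 + 1 = (p * N + K0) / K0 := (Nat.add_div_right _ hK0pos).symm
      _ ≤ (p + 1) * N / K0 := Nat.div_le_div_right e1
  have hab : a0 ≤ b := hlen
  have h1a : 1 ≤ a0 := Nat.le_add_left 1 _
  have hbN : b ≤ N := by
    have e1 : (p + 1) * N ≤ K0 * N := Nat.mul_le_mul_right _ hpK
    calc (p + 1) * N / K0 ≤ K0 * N / K0 := Nat.div_le_div_right e1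
      _ = N := Nat.mul_div_cancel_left _ hK0pos
  have hfloor1 : ((p * N / K0 : ℕ) : ℝ) ≤ p * N / K0 := by
    have : ((p * N / K0 : ℕ) : ℝ) ≤ ((p * N : ℕ) : ℝ) / K0 := Nat.cast_div_le
    push_cast at this
    exact this
  have hfloor2 : (p * N / K0 : ℝ) - 1 < ((p * N / K0 : ℕ) : ℝ) := by
    rw [sub_lt_iff_lt_add, div_lt_iff₀ hK0R]
    have : p * N < (p * N / K0 + 1) * K0 := by
      rw [mul_comm (p * N / K0 + 1) K0]
      exact Nat.lt_mul_div_succ _ hK0pos
    exact_mod_cast this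
  have hfloor3 : (((p + 1) * N / K0 : ℕ) : ℝ) ≤ (p + 1) * N / K0 := by
    have : (((p + 1) * N / K0 : ℕ) : ℝ) ≤ (((p + 1) * N : ℕ) : ℝ) / K0 := Nat.cast_div_le
    push_cast at this
    exact this
  have hfloor4 : ((p + 1) * N / K0 : ℝ) - 1 < (((p + 1) * N / K0 : ℕ) : ℝ) := by
    rw [sub_lt_iff_lt_add, div_lt_iff₀ hK0R]
    have : (p + 1) * N < ((p + 1) * N / K0 + 1) * K0 := by
      rw [mul_comm ((p + 1) * N / K0 + 1) K0]
      exact Nat.lt_mul_div_succ _ hK0pos
    exact_mod_cast this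
  have hlenR : (N : ℝ) / (2 * K0) ≤ (b : ℝ) - a0 + 1 := by
    have e1 : (1 : ℝ) ≤ N / (2 * K0) := by
      rw [le_div_iff₀ (by positivity)]
      have : ((2 * K0 : ℕ) : ℝ) ≤ N := by exact_mod_cast hK0N2
      push_cast at this
      linarith
    have e2 : ((p : ℝ) + 1) * N / K0 = p * N / K0 + 2 * (N / (2 * K0)) := by
      field_simp
    rw [ha0, hb]
    push_cast
    rw [e2] at hfloor4
    push_cast at hfloor4 hfloor1
    linarith
  have hI : ∀ i, a0 ≤ i → i ≤ b → 1 / 4 ≤ av a N (i - 1) := by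
    intro i hi1 hi2
    have hi0 : 1 ≤ i := h1a.trans hi1
    apply quarter_le_av hint (by omega)
    intro t ht1 ht2
    apply hcell t
    · refine le_trans ?_ ht1
      have e1 : p * N / K0 ≤ i - 1 := by omega
      have e2 : ((p * N / K0 : ℕ) : ℝ) ≤ ((i - 1 : ℕ) : ℝ) := by exact_mod_cast e1
      have e3 : (p : ℝ) * N / K0 - 1 ≤ ((i - 1 : ℕ) : ℝ) := by linarith
      rw [div_le_div_iff₀ (by exact_mod_cast hK00) hNR]
      have e4 : (p : ℝ) = 2 * p0 + 1 := by rw [hp]; push_cast; ring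
      have e5 : (K0 : ℝ) = 2 * K00 := by rw [hK0]; push_cast; ring
      have e6 : (0 : ℝ) < K00 := by exact_mod_cast hK00
      have e7 : (K0 : ℝ) ≤ N := by exact_mod_cast hK0N
      rw [e4, e5] at e3
      have e8 : ((2 * p0 + 1 : ℝ) * N / (2 * K00) - 1) * K00 = p0 * N + N / 2 - K00 := by
        field_simp
      have e9 := mul_le_mul_of_nonneg_right e3 e6.le
      rw [e8] at e9
      rw [e5] at e7
      linarith
    · refine ht2.trans ?_
      have e0 : i - 1 + 1 = i := by omega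
      rw [e0]
      have e1 : (i : ℝ) ≤ (b : ℝ) := by exact_mod_cast hi2
      have e3 : (i : ℝ) ≤ (p + 1) * N / K0 := e1.trans hfloor3
      rw [div_le_div_iff₀ hNR (by exact_mod_cast hK00)]
      have e4 : (p : ℝ) = 2 * p0 + 1 := by rw [hp]; push_cast; ring
      have e5 : (K0 : ℝ) = 2 * K00 := by rw [hK0]; push_cast; ring
      have e6 : (0 : ℝ) < K00 := by exact_mod_cast hK00
      rw [e4, e5] at e3
      have e8 : ((2 * p0 + 1 + 1 : ℝ) * N / (2 * K00)) * K00 = (p0 + 1) * N := by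
        have : (2 * p0 + 1 + 1 : ℝ) = 2 * (p0 + 1) := by ring
        rw [this]
        field_simp
      have e9 := mul_le_mul_of_nonneg_right e3 e6.le
      rw [e8] at e9
      push_cast
      linarith
  -- the blocks
  have hblock : ∀ j : ℕ, j * N / K + 1 ≤ (j + 1) * N / K := by
    intro j
    have e1 : j * N + K ≤ (j + 1) * N := by
      rw [add_mul]
      omega
    calc j * N / K + 1 = (j * N + K) / K := (Nat.add_div_right _ hKpos).symm
      _ ≤ (j + 1) * N / K := Nat.div_le_div_right e1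
  have hscale : ∀ s : ℕ, K1 * s * N / K = s * N / K0 := by
    intro s
    rw [hKdef, mul_assoc]
    exact Nat.mul_div_mul_left _ _ hK1
  have hmonoK : ∀ i j : ℕ, i ≤ j → i * N / K ≤ j * N / K := fun i j hij =>
    Nat.div_le_div_right (Nat.mul_le_mul_right _ hij)
  have hind : ∀ j, ∀ i ∈ Icc (j * N / K + 1) ((j + 1) * N / K),
      ind a0 b i = ind a0 b (j * N / K + 1) := by
    intro j i hi
    have hi' := mem_Icc.1 hi
    have hbl := hblock j
    rcases lt_or_ge j (K1 * p) with hj | hj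
    · have e1 : (j + 1) * N / K ≤ p * N / K0 := by
        rw [← hscale]
        exact hmonoK _ _ hj
      unfold ind
      rw [if_neg (by omega), if_neg (by omega)]
    · rcases lt_or_ge j (K1 * (p + 1)) with hj2 | hj2
      · have e1 : p * N / K0 ≤ j * N / K := by
          rw [← hscale]
          exact hmonoK _ _ hj
        have e2 : (j + 1) * N / K ≤ (p + 1) * N / K0 := by
          rw [← hscale]
          exact hmonoK _ _ hj2
        unfold ind
        rw [if_pos (by omega), if_pos (by omega)]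
      · have e1 : (p + 1) * N / K0 ≤ j * N / K := by
          rw [← hscale]
          exact hmonoK _ _ hj2
        unfold ind
        rw [if_neg (by omega), if_neg (by omega)]
  have hind0 : ∀ i, 0 ≤ ind a0 b i := by
    intro i
    unfold ind
    split_ifs <;> norm_num
  set cb : ℕ → ℝ := fun j => cbar j + ε - ind a0 b (j * N / K + 1) with hcb
  have hsq : ∀ j < K, ∀ i ∈ Icc (j * N / K + 1) ((j + 1) * N / K),
      √(av a N (i - 1)) ≤ cbar j := by
    intro j hj i hi
    have hi' := mem_Icc.1 hi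
    have hi0 : 0 < i := lt_of_lt_of_le (Nat.succ_pos _) hi'.1
    exact hcb1 j hj (i - 1) (Nat.le_sub_of_add_le hi'.1)
      (lt_of_lt_of_le (Nat.sub_lt hi0 one_pos) hi'.2)
  have hcb0 : ∀ j < K, 0 < cb j := by
    intro j hj
    have hmem : j * N / K + 1 ∈ Icc (j * N / K + 1) ((j + 1) * N / K) :=
      mem_Icc.2 ⟨le_refl _, hblock j⟩
    have e1 := hsq j hj _ hmem
    have e2 := ind_le_sqrt hI (j * N / K + 1)
    simp only [hcb]
    linarith
  have hcbM : ∀ j < K, cb j ≤ M' := by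
    intro j hj
    obtain ⟨t, ht, hte⟩ := hcb2 j hj
    have e1 : cbar j ≤ √M := by
      rw [hte]
      exact Real.sqrt_le_sqrt (hM t ht)
    have e2 := hind0 (j * N / K + 1)
    simp only [hcb, hM']
    linarith
  have hcc : ∀ j < K, ∀ i ∈ Icc (j * N / K + 1) ((j + 1) * N / K),
      (ccx a N a0 b i : ℝ) ≤ cb j := by
    intro j hj i hi
    rw [ccx_coe hI, hind j i hi]
    have := hsq j hj i hi
    simp only [hcb]
    linarith
  have hS : ∑ j ∈ range K, ∑ i ∈ Icc (j * N / K + 1) ((j + 1) * N / K),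
      (cb j - ccx a N a0 b i) ≤ 2 * ε * N := by
    have e1 : ∀ j ∈ range K, ∑ i ∈ Icc (j * N / K + 1) ((j + 1) * N / K),
        (cb j - ccx a N a0 b i) = ∑ i ∈ Ico (j * N / K) ((j + 1) * N / K),
        (cbar j - √(av a N i)) + ∑ i ∈ Icc (j * N / K + 1) ((j + 1) * N / K), ε := by
      intro j hj
      have e2 : ∑ i ∈ Ico (j * N / K) ((j + 1) * N / K), (cbar j - √(av a N i)) =
          ∑ i ∈ Icc (j * N / K + 1) ((j + 1) * N / K), (cbar j - √(av a N (i - 1))) := by
        rw [sum_Icc_succ]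
        rfl
      rw [e2, ← sum_add_distrib]
      apply sum_congr rfl
      intro i hi
      rw [ccx_coe hI, hind j i hi]
      simp only [hcb]
      ring
    rw [sum_congr rfl e1, sum_add_distrib]
    have e3 := sum_blocks (fun j => j * N / K) (fun j => hmonoK _ _ (Nat.le_succ j))
      (fun _ => ε) K
    rw [e3, zero_mul, Nat.zero_div, zero_add, Nat.mul_div_cancel_left _ hKpos, sum_const,
      Nat.card_Icc, nsmul_eq_mul, Nat.add_sub_cancel]
    linarith
  -- the threshold inequality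
  set t : ℝ := κ * N / (4 * K0 * Z) with htdef
  have ht : 0 < t := by positivity
  have hZt : Z * t = κ * N / (4 * K0) := by
    rw [htdef]
    field_simp
  have hsum := hN1 N (by omega)
  have hxstar : θc * (N * ((∫ t in (0 : ℝ)..1, √(a t)) + ε)) =
      xstar a * N + θc * ε * N := by
    unfold xstar θc
    ring
  have hθε : θc * ε = κ / (64 * K0) := by
    rw [hεdef]
    field_simp
  have hgN : g N ≤ κ / (64 * K0) * N := by
    have e1 := hN2 N (by omega)
    rw [Real.norm_of_nonneg hNR.le] at e1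
    exact (Real.le_norm_self _).trans e1
  have hhN : (h : ℝ) < κ / (64 * K0) * N := by
    have e1 : (N3 : ℝ) ≤ N := by exact_mod_cast (by omega : N3 ≤ N)
    have e2 : 64 * (K0 : ℝ) * h / κ < N := hN3.trans_le e1
    rw [div_lt_iff₀ hκ] at e2
    rw [div_mul_eq_mul_div, lt_div_iff₀ (by positivity)]
    linarith
  have hKδ : (K : ℝ) * (δ * N) = κ / (32 * K0) * N := by
    rw [hδdef]
    field_simp
  have hx : 1 / 2 * (-κ * ((b : ℝ) - a0 + 1) + 2 * h + (3 / 2 * h + 3 / θc) * t) +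
      θc * ∑ i ∈ range N, √(av a N i) + θc / 2 * (2 * ε * N) + K * (δ * N) <
      xstar a * N - g N := by
    have e1 : κ * (N / (2 * K0)) ≤ κ * ((b : ℝ) - a0 + 1) :=
      mul_le_mul_of_nonneg_left hlenR hκ.le
    have e2 : θc * ∑ i ∈ range N, √(av a N i) ≤ xstar a * N + θc * ε * N := by
      rw [← hxstar]
      exact mul_le_mul_of_nonneg_left hsum hθ.le
    have e3 : θc / 2 * (2 * ε * N) = κ / (64 * K0) * N := by
      rw [← hθε]
      ring
    have e4 : (3 / 2 * (h : ℝ) + 3 / θc) * t = κ * N / (4 * K0) := hZt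
    rw [hθε] at e2
    rw [e3, hKδ, e4]
    have e5 : κ * (N / (2 * K0)) = 32 * (κ / (64 * K0) * N) := by ring
    have e6 : κ * N / (4 * K0) = 16 * (κ / (64 * K0) * N) := by ring
    have e7 : κ / (32 * K0) * N = 2 * (κ / (64 * K0) * N) := by ring
    rw [e5] at e1
    rw [e6, e7]
    have e8 : 0 < κ / (64 * K0) * N := by positivity
    linarith
  -- apply the estimate
  have hD := iIndepFun_incr hX.gaussian (crem_cov hX) (Fv_zero a N)
  have hDm : ∀ u, Measurable (incr X u) := fun u => measurable_incr_of hX.measurable u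
  have hlaw : ∀ u : Vtx N, 1 ≤ u.1.length →
      P.map (incr X u) = gaussianReal 0 (av a N (u.1.length - 1)).toNNReal := by
    intro u hu
    rw [map_incr hX.gaussian hX.mean (crem_cov hX) (Fv_zero a N)]
    have e1 := Fv_sub (N := N) hint (i := u.1.length - 1) (by have := u.2; omega)
    rw [Nat.sub_add_cancel hu] at e1
    rw [e1]
  have hroot : ∀ u : Vtx N, u.1.length = 0 → ∀ᵐ ω ∂P, incr X u ω = 0 := by
    intro u hu
    apply ae_zero_of_map (hDm u)
    rw [map_incr hX.gaussian hX.mean (crem_cov hX) (Fv_zero a N), hu]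
    simp
  have hmain := prob_bound (a := a) (K := K) (cb := cb) (M' := M') (S' := 2 * ε * N)
    (δ' := δ * N) (h := h) (κ := κ) (T0 := 64 * h ^ 2) (q := 6 * h) (t := t)
    (x := xstar a * N - g N) hX.measurable hD hDm (incr_sum X) hUm (indep_incr hUX) hv hlaw hroot
    (fun i hi => av_nonneg h0 hi) h1a hab hbN hI hKpos hKN (by positivity) hcb0 hcbM hcc hS
    hhpos (Nat.one_le_iff_ne_zero.2 (by positivity)) (by omega) hκ.le
    (by
      rw [hκdef]
      push_cast
      apply le_of_eq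
      field_simp
      ring)
    (by
      have e1 := one_le_θc
      rw [hκdef, div_le_iff₀ (by positivity)]
      nlinarith) ⌊C * N⌋₊ ht hx
  refine hmain.trans ?_
  have hn : ((⌊C * N⌋₊ : ℕ) : ℝ) ≤ C * N := Nat.floor_le (by positivity)
  have hy0 := yh_nonneg (h := (h : ℝ)) hhpos.le (64 * h ^ 2) (6 * h)
  have hterm1 : (⌊C * N⌋₊ : ℝ≥0∞) * ENNReal.ofReal (yh h (64 * h ^ 2) (6 * h)) /
      ENNReal.ofReal t ≤ ENNReal.ofReal (η / 2) := by
    rw [← ENNReal.ofReal_natCast, ← ENNReal.ofReal_mul (by positivity),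
      ← ENNReal.ofReal_div_of_pos ht]
    apply ENNReal.ofReal_le_ofReal
    rw [div_le_iff₀ ht]
    calc ((⌊C * N⌋₊ : ℕ) : ℝ) * yh h (64 * h ^ 2) (6 * h)
        ≤ C * N * yh h (64 * h ^ 2) (6 * h) := mul_le_mul_of_nonneg_right hn hy0
      _ = (4 * C * K0 * (Z * yh h (64 * h ^ 2) (6 * h) * (768 * h ^ 2))) * t := by
          rw [htdef, hκdef]
          field_simp
      _ ≤ η / 2 * t := mul_le_mul_of_nonneg_right hhy ht.le
  have hterm2 : (K : ℝ≥0∞) * ((⌊C * N⌋₊ : ℝ≥0∞) *
      ENNReal.ofReal (Real.exp (-(θc * (δ * N) / M')))) ≤ ENNReal.ofReal (η / 2) := by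
    rw [← ENNReal.ofReal_natCast, ← ENNReal.ofReal_natCast,
      ← ENNReal.ofReal_mul (by positivity), ← ENNReal.ofReal_mul (by positivity)]
    apply ENNReal.ofReal_le_ofReal
    have e1 : θc * (δ * N) / M' = c * N := by
      rw [hcdef]
      ring
    rw [e1]
    have e2 : (c * N) ^ 2 / 2 ≤ Real.exp (c * N) := by
      have := Real.pow_div_factorial_le_exp (c * N) (by positivity) 2
      simpa using this
    have e3 : Real.exp (-(c * N)) ≤ 2 / (c * N) ^ 2 := by
      rw [Real.exp_neg, inv_le_comm₀ (Real.exp_pos _) (by positivity)]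
      rw [inv_div]
      exact e2
    have e4 : (N4 : ℝ) ≤ N := by exact_mod_cast (by omega : N4 ≤ N)
    have e5 : 4 * (K : ℝ) * C / (c ^ 2 * η) < N := hN4.trans_le e4
    rw [div_lt_iff₀ (by positivity)] at e5
    calc (K : ℝ) * ((⌊C * N⌋₊ : ℕ) * Real.exp (-(c * N)))
        ≤ K * (C * N * (2 / (c * N) ^ 2)) := by gcongr
      _ = (4 * K * C) / (2 * c ^ 2 * N) := by
          field_simp
          ring
      _ ≤ η / 2 := by
          rw [div_le_iff₀ (by positivity)]
          nlinarith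
  calc _ ≤ ENNReal.ofReal (η / 2) + ENNReal.ofReal (η / 2) := add_le_add hterm1 hterm2
    _ = ENNReal.ofReal η := by
        rw [← ENNReal.ofReal_add (by positivity) (by positivity)]
        congr 1
        ring

end Pool.Agent.Lib.MP_f9dad2_pr
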